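import Mathlib
import Pool.Agent.Helper259.AbsHt

set_option autoImplicit false

/-! # Sums of vectors multiplied by elements of a group of finite rank -/

namespace Pool.Agent.Y215.SK

open MvPolynomial Pool.Agent.Helper259.AbsHt

variable {n N r : ℕ}

/-- the elements with a power in `Γ` -/
def DivHull (Γ : Subgroup Qbarˣ) : Set Qbarˣ := {u | ∃ m : ℕ, 0 < m ∧ u ^ m ∈ Γ}

/-- the partial sum of the `u_j V_j` over `J` -/
noncomputable def psum (J : Finset (Fin r)) (u : Fin r → Qbarˣ) (V : Fin r → Fin (n + 1) → Qbar) :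
    Fin (n + 1) → Qbar := fun a => ∑ j ∈ J, (u j : Qbar) * V j a

/-- the height of the vector of all coordinates of the `V_j` -/
noncomputable def hV (V : Fin r → Fin (n + 1) → Qbar) : ℝ :=
  absLogHeight (fun p : Fin r × Fin (n + 1) => V p.1 p.2)

/-- `x` is a vector of homogeneous coordinates of a point on `P = 0` and off `G = 0` -/
def OnOff {k F : Type} [Field k] [Field F] [Algebra k F] (P : Fin N → MvPolynomial (Fin (n + 1)) k)
    (G : MvPolynomial (Fin (n + 1)) k) (x : Fin (n + 1) → F) : Prop :=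
  x ≠ 0 ∧ (∀ i, aeval x (P i) = 0) ∧ aeval x G ≠ 0

/-- the points of projective space over the number field `K` (with an embedding `φ` in `Qbar`) on
`P = 0` and off `G = 0` with homogeneous coordinates `∑ u_j V_j`, for elements `u_j` of `Qbar` with
a power in `Γ` and some `V` in `𝒱` -/
def ratPts {k K : Type} [Field k] [Field K] [Algebra k Qbar] (φ : K →+* Qbar)
    (P : Fin N → MvPolynomial (Fin (n + 1)) k) (G : MvPolynomial (Fin (n + 1)) k)
    (Γ : Subgroup Qbarˣ) (𝒱 : Set (Fin r → Fin (n + 1) → Qbar)) :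
    Set (Projectivization K (Fin (n + 1) → K)) :=
  {p | ∃ (y : Fin (n + 1) → K) (hy : y ≠ 0), p = Projectivization.mk K y hy ∧
    OnOff P G (fun a => φ (y a)) ∧ ∃ u : Fin r → Qbarˣ, (∀ j, u j ∈ DivHull Γ) ∧
      ∃ V ∈ 𝒱, psum Finset.univ u V = fun a => φ (y a)}

end Pool.Agent.Y215.SK
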