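import Mathlib
import Pool.Agent.Y215.SK.Defs

set_option autoImplicit false

/-! # Sums of fixed vectors multiplied by elements close to a group of finite rank -/

namespace Pool.Agent.Y215.SK

open MvPolynomial Pool.Agent.Helper259.AbsHt

variable {n N r : ℕ}

/-- the points over `Qbar` on `P = 0` and off `G = 0` with homogeneous coordinates
`∑ u_j s_j V_j`, for elements `u_j` with a power in `Γ` and a vector `(s_1 : … : s_r)` of height
less than `ε` -/
def mixPts {k : Type} [Field k] [Algebra k Qbar] (P : Fin N → MvPolynomial (Fin (n + 1)) k)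
    (G : MvPolynomial (Fin (n + 1)) k) (Γ : Subgroup Qbarˣ) (ε : ℝ)
    (V : Fin r → Fin (n + 1) → Qbar) : Set (Projectivization Qbar (Fin (n + 1) → Qbar)) :=
  {p | ∃ (u : Fin r → Qbarˣ) (s : Fin r → Qbar), (∀ j, u j ∈ DivHull Γ) ∧ absLogHeight s < ε ∧
    OnOff P G (psum Finset.univ u (fun j a => s j * V j a)) ∧
    ∃ h : psum Finset.univ u (fun j a => s j * V j a) ≠ 0,
      p = Projectivization.mk Qbar (psum Finset.univ u (fun j a => s j * V j a)) h}

end Pool.Agent.Y215.SK
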