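import Mathlib
import Pool.Agent.Helper259.AbsHt

set_option autoImplicit false
set_option linter.unusedSectionVars false
set_option linter.unusedSimpArgs false

/-! # The absolute height of an algebraic number -/

namespace Pool.Agent.Y215.SK

open Finset NumberField Height Module
open Pool.Agent.Helper259.AbsHt

/-- the absolute logarithmic height of an algebraic number -/
noncomputable def h1 (a : Qbar) : ℝ := absLogHeight ![a, 1]

theorem h1_eq (L : Type) [Field L] [NumberField L] (φ : L →+* Qbar) (y : L) :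
    h1 (φ y) = logHeight₁ y / finrank ℚ L := by
  unfold h1
  have e : ![φ y, 1] = fun i => φ (![y, 1] i) := by
    funext i
    fin_cases i <;> simp
  rw [e, absLogHeight_eq L φ, logHeight₁_eq_logHeight]

theorem h1_val (L : IntermediateField ℚ Qbar) [NumberField L] (y : L) :
    h1 (y : Qbar) = logHeight₁ y / finrank ℚ L :=
  h1_eq L (algebraMap L Qbar) y

theorem exists_lift2 (a b : Qbar) : ∃ (L : IntermediateField ℚ Qbar) (_ : NumberField L)
    (x y : L), (x : Qbar) = a ∧ (y : Qbar) = b := by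
  obtain ⟨L, hL, hmem⟩ := exists_nf {a, b} (by simp)
  exact ⟨L, hL, ⟨a, hmem a (by simp)⟩, ⟨b, hmem b (by simp)⟩, rfl, rfl⟩

theorem h1_nonneg (a : Qbar) : 0 ≤ h1 a := absLogHeight_nonneg _

theorem h1_mul_le (a b : Qbar) : h1 (a * b) ≤ h1 a + h1 b := by
  obtain ⟨L, hL, x, y, rfl, rfl⟩ := exists_lift2 a b
  have e : (x : Qbar) * (y : Qbar) = ((x * y : L) : Qbar) := rfl
  rw [e, h1_val, h1_val, h1_val, ← add_div]
  exact div_le_div_of_nonneg_right (logHeight₁_mul_le x y) (finrank_pos' L).le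

theorem h1_add_le (a b : Qbar) : h1 (a + b) ≤ Real.log 2 + h1 a + h1 b := by
  obtain ⟨L, hL, x, y, rfl, rfl⟩ := exists_lift2 a b
  have e : (x : Qbar) + (y : Qbar) = ((x + y : L) : Qbar) := rfl
  have hpos := finrank_pos' L
  rw [e, h1_val, h1_val, h1_val, div_le_iff₀ hpos]
  refine (logHeight₁_add_le x y).trans (le_of_eq ?_)
  rw [totalWeight_eq_finrank]
  field_simp

theorem h1_neg (a : Qbar) : h1 (-a) = h1 a := by
  obtain ⟨L, hL, x, y, rfl, -⟩ := exists_lift2 a a
  have e : -(x : Qbar) = ((-x : L) : Qbar) := rfl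
  rw [e, h1_val, h1_val, logHeight₁_neg]

theorem h1_sub_le (a b : Qbar) : h1 (a - b) ≤ Real.log 2 + h1 a + h1 b := by
  rw [sub_eq_add_neg]
  refine (h1_add_le _ _).trans ?_
  rw [h1_neg]

theorem h1_inv (a : Qbar) : h1 a⁻¹ = h1 a := by
  obtain ⟨L, hL, x, y, rfl, -⟩ := exists_lift2 a a
  have e : (x : Qbar)⁻¹ = ((x⁻¹ : L) : Qbar) := rfl
  rw [e, h1_val, h1_val, logHeight₁_inv]

theorem h1_div_le (a b : Qbar) : h1 (a / b) ≤ h1 a + h1 b := by
  rw [div_eq_mul_inv]
  refine (h1_mul_le _ _).trans ?_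
  rw [h1_inv]

theorem h1_pow (a : Qbar) (n : ℕ) : h1 (a ^ n) = n * h1 a := by
  obtain ⟨L, hL, x, y, rfl, -⟩ := exists_lift2 a a
  have e : (x : Qbar) ^ n = ((x ^ n : L) : Qbar) := rfl
  rw [e, h1_val, h1_val, logHeight₁_pow]
  ring

theorem h1_zero : h1 0 = 0 := by
  have := h1_eq ℚ (algebraMap ℚ Qbar) 0
  rw [map_zero] at this
  rw [this, logHeight₁_zero, zero_div]

theorem h1_one : h1 1 = 0 := by
  have := h1_eq ℚ (algebraMap ℚ Qbar) 1
  rw [map_one] at this
  rw [this, logHeight₁_one, zero_div]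

theorem h1_zpow (a : Qbar) (n : ℤ) : h1 (a ^ n) = |(n : ℝ)| * h1 a := by
  rcases le_total 0 n with h | h
  · obtain ⟨k, rfl⟩ := Int.eq_ofNat_of_zero_le h
    rw [zpow_natCast, h1_pow]
    simp
  · obtain ⟨k, hk⟩ := Int.eq_ofNat_of_zero_le (neg_nonneg.2 h)
    have h5 : n = -(k : ℤ) := by omega
    rw [h5, zpow_neg, h1_inv, zpow_natCast, h1_pow]
    simp

theorem h1_prod_le {ι : Type} (s : Finset ι) (a : ι → Qbar) :
    h1 (∏ i ∈ s, a i) ≤ ∑ i ∈ s, h1 (a i) := by
  classical
  induction s using Finset.induction_on with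
  | empty => simp [h1_one]
  | insert i s hi ih =>
    rw [Finset.prod_insert hi, Finset.sum_insert hi]
    exact (h1_mul_le _ _).trans (by linarith)

theorem h1_sum_le {ι : Type} (s : Finset ι) (a : ι → Qbar) :
    h1 (∑ i ∈ s, a i) ≤ s.card * Real.log 2 + ∑ i ∈ s, h1 (a i) := by
  classical
  induction s using Finset.induction_on with
  | empty => simp [h1_zero]
  | insert i s hi ih =>
    rw [Finset.sum_insert hi, Finset.sum_insert hi, Finset.card_insert_of_notMem hi]
    refine (h1_add_le _ _).trans ?_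
    push_cast
    linarith

/-- invariance under automorphisms -/
theorem h1_aut (σ : Qbar →+* Qbar) (a : Qbar) : h1 (σ a) = h1 a := by
  obtain ⟨L, hL, x, y, rfl, -⟩ := exists_lift2 a a
  rw [h1_val]
  exact h1_eq L (σ.comp (algebraMap L Qbar)) x

/-- the ratios of the coordinates -/
theorem h1_ratio_le {ι : Type} [Finite ι] (x : ι → Qbar) (i j : ι) (hj : x j ≠ 0) :
    h1 (x i / x j) ≤ absLogHeight x := by
  have e : ![x i / x j, 1] = (x j)⁻¹ • (x ∘ ![i, j]) := by
    funext k
    fin_cases k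
    · simp [div_eq_inv_mul]
    · simp [hj]
  unfold h1
  rw [e, absLogHeight_smul _ (inv_ne_zero hj)]
  exact absLogHeight_comp_le _ _

/-- the height of a vector is at most the sum of the heights of the coordinates -/
theorem height_le_sum {ι : Type} [Fintype ι] (x : ι → Qbar) :
    absLogHeight x ≤ ∑ i, h1 (x i) := by
  classical
  obtain ⟨L, hL, hmem⟩ := exists_nf (Set.range x) (Set.finite_range x)
  obtain ⟨y, rfl⟩ := lift_vec L x fun i => hmem _ ⟨i, rfl⟩
  rw [val_eq]
  simp_rw [h1_val]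
  rw [← Finset.sum_div]
  refine div_le_div_of_nonneg_right ?_ (finrank_pos' L).le
  have h2 := logHeight_fun_prod_eq (K := L) (x := fun i : ι => ![y i, 1]) (fun i h => by
    have := congrFun h 1
    simp at this)
  simp_rw [← logHeight₁_eq_logHeight] at h2
  rw [← h2]
  have e : y = (fun I : ι → Fin 2 => ∏ a, ![y a, 1] (I a)) ∘
      (fun i a => if a = i then 0 else 1) := by
    funext i
    show y i = ∏ a, ![y a, 1] (if a = i then 0 else 1)
    rw [Finset.prod_eq_single i]
    · simp
    · intro a _ ha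
      simp [ha]
    · intro h
      exact absurd (Finset.mem_univ _) h
  conv_lhs => rw [e]
  exact logHeight_comp_le _ _

end Pool.Agent.Y215.SK
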