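import Mathlib
import Pool.Agent.Y215.SK.Ht1

set_option autoImplicit false
set_option linter.unusedSectionVars false
set_option linter.unusedSimpArgs false

/-! # Galois descent for linear relations with coefficients of small height -/

namespace Pool.Agent.Y215.SK

open Finset
open Pool.Agent.Helper259.AbsHt

theorem mem_of_fixed (K : IntermediateField ℚ Qbar) (x : Qbar)
    (h : ∀ σ : Qbar ≃ₐ[K] Qbar, σ x = x) : x ∈ K := by
  have h0 : Algebra.IsAlgebraic ℚ Qbar := AlgebraicClosure.isAlgebraic ℚ
  have halg : Algebra.IsAlgebraic K Qbar := Algebra.IsAlgebraic.tower_top (K := ℚ) K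
  have hac : IsAlgClosure K Qbar := ⟨inferInstance, halg⟩
  have hn : Normal K Qbar := IsAlgClosure.normal K Qbar
  have hg : IsGalois K Qbar := ⟨⟩
  have h1 : x ∈ (⊥ : IntermediateField K Qbar) := (InfiniteGalois.mem_bot_iff_fixed x).2 h
  obtain ⟨y, hy⟩ := IntermediateField.mem_bot.1 h1
  rw [← hy]
  exact y.2

open Classical in
theorem descent (K : IntermediateField ℚ Qbar) {m : ℕ} (u : Fin m → K) :
    ∀ (s : ℕ) (c : Fin m → Qbar) (H : ℝ), 0 ≤ H → c ≠ 0 →
      (Finset.univ.filter (fun j => c j ≠ 0)).card ≤ s → (∀ j, h1 (c j) ≤ H) →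
      ∑ j, c j * (u j : Qbar) = 0 →
      ∃ a : Fin m → K, a ≠ 0 ∧ ∑ j, a j * u j = 0 ∧ ∀ j, h1 (a j : Qbar) ≤ 5 ^ s * (H + 1) := by
  classical
  intro s
  induction s with
  | zero =>
    intro c H _ hc hs _ _
    exfalso
    apply hc
    funext j
    by_contra h
    have h1 : j ∈ Finset.univ.filter (fun j => c j ≠ 0) := by simpa using h
    have h2 := Finset.card_pos.2 ⟨j, h1⟩
    omega
  | succ s ih =>
    intro c H hH hc hs hh hsum
    obtain ⟨j0, hj0⟩ := Function.ne_iff.1 hc
    simp only [Pi.zero_apply] at hj0
    have h5 : (1 : ℝ) ≤ 5 ^ s := one_le_pow₀ (by norm_num)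
    have hc1h : ∀ j, h1 (c j / c j0) ≤ 2 * H := by
      intro j
      refine (h1_div_le _ _).trans ?_
      linarith [hh j, hh j0]
    have hc1s : ∑ j, (c j / c j0) * (u j : Qbar) = 0 := by
      have h2 : ∀ j, (c j / c j0) * (u j : Qbar) = (c j0)⁻¹ * (c j * (u j : Qbar)) := by
        intro j
        rw [div_eq_inv_mul]
        ring
      simp_rw [h2]
      rw [← Finset.mul_sum, hsum, mul_zero]
    by_cases hfix : ∀ (σ : Qbar ≃ₐ[K] Qbar) j, σ (c j / c j0) = c j / c j0
    · refine ⟨fun j => ⟨c j / c j0, mem_of_fixed K _ fun σ => hfix σ j⟩, ?_, ?_, ?_⟩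
      · intro h
        have h2 := congrArg (fun x : K => (x : Qbar)) (congrFun h j0)
        simp only [Pi.zero_apply] at h2
        rw [div_self hj0] at h2
        exact one_ne_zero h2
      · apply Subtype.val_injective
        have h3 := map_sum (algebraMap K Qbar) (fun j => (⟨c j / c j0,
          mem_of_fixed K _ fun σ => hfix σ j⟩ : K) * u j) Finset.univ
        refine Eq.trans h3 (Eq.trans ?_ (map_zero (algebraMap K Qbar)).symm)
        rw [← hc1s]
        refine Finset.sum_congr rfl fun j _ => ?_
        rw [map_mul]
        rfl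
      · intro j
        refine (hc1h j).trans ?_
        rw [pow_succ]
        nlinarith
    · push Not at hfix
      obtain ⟨σ, j1, hσ⟩ := hfix
      have hlog2 : Real.log 2 ≤ 1 := by
        have := Real.log_two_lt_d9
        linarith
      obtain ⟨a, ha1, ha2, ha3⟩ := ih (fun j => σ (c j / c j0) - c j / c j0) (4 * H + 1)
        (by linarith)
        (by
          intro h
          have h2 := congrFun h j1
          simp only [Pi.zero_apply] at h2
          exact hσ (sub_eq_zero.1 h2))
        (by
          have hsub : Finset.univ.filter (fun j => σ (c j / c j0) - c j / c j0 ≠ 0) ⊆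
              (Finset.univ.filter (fun j => c j ≠ 0)).erase j0 := by
            intro j hj
            rw [Finset.mem_filter] at hj
            rw [Finset.mem_erase, Finset.mem_filter]
            refine ⟨?_, Finset.mem_univ _, ?_⟩
            · rintro rfl
              apply hj.2
              rw [div_self hj0, map_one, sub_self]
            · intro h0
              apply hj.2
              rw [h0, zero_div, map_zero, sub_self]
          have h2 := Finset.card_le_card hsub
          have h3 : j0 ∈ Finset.univ.filter (fun j => c j ≠ 0) := by simpa using hj0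
          rw [Finset.card_erase_of_mem h3] at h2
          omega)
        (by
          intro j
          refine (h1_sub_le _ _).trans ?_
          have h2 : h1 (σ (c j / c j0)) = h1 (c j / c j0) := h1_aut (σ : Qbar →+* Qbar) _
          rw [h2]
          linarith [hc1h j])
        (by
          simp only [sub_mul]
          rw [Finset.sum_sub_distrib, hc1s, sub_zero]
          have h2 := congrArg σ hc1s
          rw [map_sum, map_zero] at h2
          rw [← h2]
          refine Finset.sum_congr rfl fun j _ => ?_
          rw [map_mul]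
          congr 1
          exact (σ.commutes (u j)).symm)
      refine ⟨a, ha1, ha2, fun j => (ha3 j).trans ?_⟩
      rw [pow_succ]
      nlinarith

end Pool.Agent.Y215.SK
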