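import Mathlib

set_option autoImplicit false

/-! # Bounds for determinants with a block of zeros -/

namespace Pool.Agent.Y215.SK

open Finset

/-- Leibniz' formula for a matrix with a block of zeros -/
theorem det_le_of_block {n : ℕ} (Q : Matrix (Fin n) (Fin n) ℂ) (T C : Finset (Fin n))
    (hTC : T.card = C.card) (A : Fin n → ℝ) (Y : ℝ) (hA : ∀ l, 0 ≤ A l) (hY : 0 ≤ Y)
    (h0 : ∀ l ∈ T, ∀ c, c ∉ C → Q l c = 0) (h1 : ∀ l, l ∉ T → ∀ c, c ∉ C → ‖Q l c‖ ≤ A l)
    (h2 : ∀ l ∈ T, ∀ c ∈ C, ‖Q l c‖ ≤ Y) :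
    ‖Q.det‖ ≤ n.factorial * ((∏ l ∈ Tᶜ, A l) * Y ^ T.card) := by
  classical
  rw [Matrix.det_apply]
  refine (norm_sum_le _ _).trans ?_
  have hb : 0 ≤ (∏ l ∈ Tᶜ, A l) * Y ^ T.card :=
    mul_nonneg (Finset.prod_nonneg fun l _ => hA l) (pow_nonneg hY _)
  have hterm : ∀ π : Equiv.Perm (Fin n), ‖Equiv.Perm.sign π • ∏ i, Q (π i) i‖ ≤
      (∏ l ∈ Tᶜ, A l) * Y ^ T.card := by
    intro π
    have hs : ‖Equiv.Perm.sign π • ∏ i, Q (π i) i‖ = ∏ i, ‖Q (π i) i‖ := by
      rcases Int.units_eq_one_or (Equiv.Perm.sign π) with h | h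
      · rw [h, one_smul, norm_prod]
      · rw [h, Units.neg_smul, one_smul, norm_neg, norm_prod]
    rw [hs]
    by_cases hex : ∃ i, i ∉ C ∧ π i ∈ T
    · obtain ⟨i, hi, hiT⟩ := hex
      rw [Finset.prod_eq_zero (Finset.mem_univ i) (by rw [h0 _ hiT i hi, norm_zero])]
      exact hb
    · push Not at hex
      have himg : Cᶜ.image π = Tᶜ := by
        refine Finset.eq_of_subset_of_card_le ?_ ?_
        · intro l hl
          obtain ⟨i, hi, rfl⟩ := Finset.mem_image.1 hl
          rw [Finset.mem_compl] at hi ⊢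
          exact hex i hi
        · rw [Finset.card_image_of_injective _ π.injective, Finset.card_compl,
            Finset.card_compl, hTC]
      have himg2 : C.image π = T := by
        ext l
        constructor
        · intro hl
          obtain ⟨i, hi, rfl⟩ := Finset.mem_image.1 hl
          by_contra hlT
          have : π i ∈ Cᶜ.image π := by rw [himg, Finset.mem_compl]; exact hlT
          obtain ⟨i', hi', h⟩ := Finset.mem_image.1 this
          rw [Finset.mem_compl] at hi'
          exact hi' (π.injective h ▸ hi)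
        · intro hl
          rw [Finset.mem_image]
          refine ⟨π.symm l, ?_, by simp⟩
          by_contra hc
          exact hex _ hc (by simpa using hl)
      rw [← Finset.prod_mul_prod_compl C, mul_comm]
      refine mul_le_mul ?_ ?_ (Finset.prod_nonneg fun i _ => norm_nonneg _)
        (Finset.prod_nonneg fun l _ => hA l)
      · rw [← himg, Finset.prod_image fun a _ b _ h => π.injective h]
        refine Finset.prod_le_prod (fun i _ => norm_nonneg _) fun i hi => ?_
        rw [Finset.mem_compl] at hi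
        exact h1 _ (hex i hi) i hi
      · rw [hTC, ← Finset.prod_const]
        refine Finset.prod_le_prod (fun i _ => norm_nonneg _) fun i hi => ?_
        refine h2 _ ?_ i hi
        rw [← himg2]
        exact Finset.mem_image_of_mem _ hi
  refine (Finset.sum_le_sum fun π _ => hterm π).trans ?_
  rw [Finset.sum_const, Finset.card_univ, Fintype.card_perm, Fintype.card_fin, nsmul_eq_mul]

/-- the columns in a lattice -/
theorem det_le_of_lattice {n : ℕ} (B Q : Matrix (Fin n) (Fin n) ℤ) (hQ : Q.det ≠ 0)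
    (h : ∀ c, ∃ z : Fin n → ℤ, (fun l => Q l c) = B.mulVec z) : |B.det| ≤ |Q.det| := by
  classical
  choose z hz using h
  have h1 : Q = B * Matrix.of fun l c => z c l := by
    ext l c
    have h2 : Q l c = _ := congrFun (hz c) l
    rw [h2]
    rfl
  rw [h1, Matrix.det_mul, abs_mul]
  have h2 : (Matrix.of fun l c => z c l : Matrix (Fin n) (Fin n) ℤ).det ≠ 0 := by
    intro h0
    rw [h1, Matrix.det_mul, h0, mul_zero] at hQ
    exact hQ rfl
  have h3 := Int.one_le_abs h2
  nlinarith [abs_nonneg B.det]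

end Pool.Agent.Y215.SK
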