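import Mathlib
import Pool.Agent.Y215.SK.Bas
import Pool.Agent.Y215.SK.Det

set_option autoImplicit false

/-! # The lattices, small elements of ideals -/

namespace Pool.Agent.Y215.SK

open Finset NumberField
open Pool.Agent.TH286.GT.GrowD (sg sg_coe sg_inj)

variable {K : Type} [Field K] [NumberField K] {m : ℕ}

/-- multiplication of the coordinates by `u` -/
noncomputable def mulL (u : Fin m → 𝓞 K) : (Fin m → 𝓞 K) →ₗ[ℤ] (Fin m → 𝓞 K) :=
  LinearMap.pi fun j => (LinearMap.mulLeft ℤ (u j)) ∘ₗ (LinearMap.proj j)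

/-- the matrix of the lattice `∏ u_j 𝓞` -/
noncomputable def Bt (u : Fin m → 𝓞 K) : Matrix (Fin (m * Module.finrank ℤ (𝓞 K)))
    (Fin (m * Module.finrank ℤ (𝓞 K))) ℤ :=
  LinearMap.toMatrix' ((vcL K m).symm.toLinearMap ∘ₗ mulL u ∘ₗ (vcL K m).toLinearMap)

theorem Bt_mulVec (u : Fin m → 𝓞 K) (z : Fin (m * Module.finrank ℤ (𝓞 K)) → ℤ) :
    (Bt u).mulVec z = cv (fun j => u j * vc z j) := by
  unfold Bt
  rw [LinearMap.toMatrix'_mulVec]
  rfl

theorem Bt_col (u : Fin m → 𝓞 K) (c : Fin (m * Module.finrank ℤ (𝓞 K))) :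
    (fun l => Bt u l c) = cv (fun j => u j * vc (Pi.single c 1) j) := by
  rw [← Bt_mulVec]
  funext l
  rw [Matrix.mulVec_single_one]
  rfl

/-- small elements of ideals -/
theorem exists_small_mem (I : Ideal (𝓞 K)) (hI : I ≠ ⊥) :
    ∃ θ ∈ I, θ ≠ 0 ∧ ∃ H : ℕ, (H : ℝ) ^ Module.finrank ℤ (𝓞 K) ≤ Ideal.absNorm I ∧
      ∀ b, |(((om K).repr θ b : ℤ) : ℝ)| ≤ H := by
  classical
  set D := Module.finrank ℤ (𝓞 K) with hD
  have hDpos : 0 < D := Module.finrank_pos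
  have hN0 : Ideal.absNorm I ≠ 0 := by
    rw [Ne, Ideal.absNorm_eq_zero_iff]
    exact hI
  -- the root
  obtain ⟨H, hH1, hH2⟩ : ∃ H : ℕ, H ^ D ≤ Ideal.absNorm I ∧ Ideal.absNorm I < (H + 1) ^ D := by
    have hP0 : (fun H : ℕ => H ^ D ≤ Ideal.absNorm I) 0 := by
      show 0 ^ D ≤ _
      rw [zero_pow hDpos.ne']
      exact Nat.zero_le _
    refine ⟨Nat.findGreatest (fun H => H ^ D ≤ Ideal.absNorm I) (Ideal.absNorm I), ?_, ?_⟩
    · exact Nat.findGreatest_spec (P := fun H => H ^ D ≤ Ideal.absNorm I) (Nat.zero_le _) hP0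
    · by_contra hcon
      push Not at hcon
      have h1 : Nat.findGreatest (fun H => H ^ D ≤ Ideal.absNorm I) (Ideal.absNorm I) + 1 ≤
          Ideal.absNorm I := by
        refine le_trans ?_ hcon
        exact Nat.le_self_pow hDpos.ne' _
      have h2 := Nat.le_findGreatest (P := fun H => H ^ D ≤ Ideal.absNorm I) h1 hcon
      omega
  have hfin : Finite (𝓞 K ⧸ I) := Ideal.finiteQuotientOfFreeOfNeBot I hI
  have := Fintype.ofFinite (𝓞 K ⧸ I)
  have hcard : Fintype.card (𝓞 K ⧸ I) < Fintype.card (Fin D → Fin (H + 1)) := by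
    rw [Fintype.card_fun, Fintype.card_fin, Fintype.card_fin, ← Nat.card_eq_fintype_card]
    exact hH2
  obtain ⟨a, a', hne, heq⟩ := Fintype.exists_ne_map_eq_of_card_lt
    (fun a : Fin D → Fin (H + 1) => Ideal.Quotient.mk I (∑ b, ((a b : ℕ) : ℤ) • om K b)) hcard
  have hrep : ∀ b, (om K).repr (∑ b, (((a b : ℕ) : ℤ) - ((a' b : ℕ) : ℤ)) • om K b) b =
      ((a b : ℕ) : ℤ) - ((a' b : ℕ) : ℤ) := by
    intro b
    rw [Module.Basis.repr_sum_self]
  refine ⟨∑ b, (((a b : ℕ) : ℤ) - ((a' b : ℕ) : ℤ)) • om K b, ?_, ?_, H, ?_, ?_⟩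
  · rw [← Ideal.Quotient.eq_zero_iff_mem]
    simp only [sub_smul, Finset.sum_sub_distrib]
    rw [map_sub, sub_eq_zero]
    exact heq
  · intro h0
    apply hne
    funext b
    have h1 := hrep b
    rw [h0, map_zero, Finsupp.zero_apply] at h1
    apply Fin.ext
    omega
  · exact_mod_cast hH1
  · intro b
    rw [hrep b]
    have h1 := (a b).2
    have h2 := (a' b).2
    have h3 : |(((a b : ℕ) : ℤ) - ((a' b : ℕ) : ℤ))| ≤ (H : ℤ) := by
      rw [abs_le]
      constructor <;> omega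
    exact_mod_cast h3

end Pool.Agent.Y215.SK
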