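import Mathlib
import Pool.Agent.Y215.SK.Vol
import Pool.Agent.Helper259.HtExt

set_option autoImplicit false
set_option linter.unusedSectionVars false
set_option linter.unusedSimpArgs false

/-! # Heights and conjugates -/

namespace Pool.Agent.Y215.SK

open Finset NumberField Height
open Pool.Agent.TH286.GT.GrowD (sg sg_coe sg_inj)

variable {K : Type} [Field K] [NumberField K]

/-- every conjugate is bounded by the height -/
theorem place_le_height (v : InfinitePlace K) (x : K) : v x ≤ Real.exp (logHeight₁ x) := by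
  have h1 := NumberField.logHeight₁_eq x
  have hnn : ∀ w : InfinitePlace K, 0 ≤ (w.mult : ℝ) * Real.posLog (w x) := fun w =>
    mul_nonneg (Nat.cast_nonneg _) Real.posLog_nonneg
  have h2 : (v.mult : ℝ) * Real.posLog (v x) ≤
      ∑ w : InfinitePlace K, (w.mult : ℝ) * Real.posLog (w x) :=
    Finset.single_le_sum (f := fun w : InfinitePlace K => (w.mult : ℝ) * Real.posLog (w x))
      (fun w _ => hnn w) (Finset.mem_univ v)
  have h3 : 0 ≤ ∑ᶠ w : FinitePlace K, Real.posLog (w x) :=
    finsum_nonneg fun w => Real.posLog_nonneg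
  have h4 : Real.posLog (v x) ≤ (v.mult : ℝ) * Real.posLog (v x) := by
    have h5 : (1 : ℝ) ≤ v.mult := by exact_mod_cast v.mult_pos
    nlinarith [Real.posLog_nonneg (x := v x)]
  have h5 : Real.posLog (v x) ≤ logHeight₁ x := by
    rw [h1]
    linarith
  rcases le_or_gt (v x) 0 with h0 | h0
  · exact h0.trans (Real.exp_pos _).le
  · rw [← Real.log_le_iff_le_exp h0]
    refine le_trans ?_ h5
    rw [Real.posLog_def]
    exact le_max_right _ _

variable [IsGalois ℚ K]

/-- the products over the infinite places and over the automorphisms -/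
theorem prod_places (ψ : K →+* ℂ) (g : InfinitePlace K → ℝ) :
    ∏ v : InfinitePlace K, g v ^ v.mult =
      ∏ σ : K ≃ₐ[ℚ] K, g (InfinitePlace.mk (ψ.comp (σ : K →+* K))) := by
  classical
  rw [Pool.Agent.Helper259.HtExt.prod_infinitePlace_pow_mult]
  have hbij : Function.Bijective (fun σ : K ≃ₐ[ℚ] K => ψ.comp (σ : K →+* K)) := by
    rw [Fintype.bijective_iff_injective_and_card]
    constructor
    · intro σ τ h
      ext x
      apply ψ.injective
      exact DFunLike.congr_fun h x
    · rw [card_aut, RingOfIntegers.rank, NumberField.Embeddings.card]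
  exact (Fintype.prod_bijective _ hbij _ _ (fun σ => rfl)).symm

/-- the height of a vector of algebraic integers -/
theorem height_int {m : ℕ} (ψ : K →+* ℂ) (x : Fin m → 𝓞 K) (hx : x ≠ 0) :
    logHeight (fun j => (x j : K)) =
      ∑ σ : K ≃ₐ[ℚ] K, Real.log (⨆ j, ‖ph ψ (sg σ (x j))‖) -
        Real.log (Ideal.absNorm (Ideal.span (Set.range x))) := by
  classical
  have hxK : (fun j => (x j : K)) ≠ 0 := by
    intro h
    apply hx
    funext j
    exact RingOfIntegers.ext (congrFun h j)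
  have h1 := absNorm_mul_finprod_finitePlace_eq_one hx
  have hI : (Ideal.absNorm (Ideal.span (Set.range x)) : ℝ) ≠ 0 := left_ne_zero_of_mul_eq_one h1
  have hF : ∏ᶠ v : FinitePlace K, ⨆ i, v (x i : K) ≠ 0 := right_ne_zero_of_mul_eq_one h1
  have hiso : ∀ σ : K ≃ₐ[ℚ] K, (⨆ j, InfinitePlace.mk (ψ.comp (σ : K →+* K)) ((x j : 𝓞 K) : K)) =
      ⨆ j, ‖ph ψ (sg σ (x j))‖ := fun σ => rfl
  have hpos : ∀ σ : K ≃ₐ[ℚ] K, ⨆ j, ‖ph ψ (sg σ (x j))‖ ≠ 0 := by
    intro σ
    obtain ⟨j, hj⟩ := Function.ne_iff.1 hx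
    have h2 : 0 < ‖ph ψ (sg σ (x j))‖ := by
      rw [norm_pos_iff]
      intro h
      exact hj (sg_inj σ (by rw [ph_inj ψ _ h]; simp))
    have h3 : ‖ph ψ (sg σ (x j))‖ ≤ ⨆ j, ‖ph ψ (sg σ (x j))‖ :=
      le_ciSup (f := fun j => ‖ph ψ (sg σ (x j))‖) (Set.finite_range _).bddAbove j
    exact (lt_of_lt_of_le h2 h3).ne'
  rw [logHeight_eq_log_mulHeight, NumberField.mulHeight_eq hxK,
    prod_places ψ (fun v => ⨆ i, v (x i : K))]
  simp_rw [hiso]
  rw [Real.log_mul (Finset.prod_ne_zero_iff.2 fun σ _ => hpos σ) hF,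
    Real.log_prod (fun σ _ => hpos σ)]
  have h4 := congrArg Real.log h1
  rw [Real.log_mul hI hF, Real.log_one] at h4
  linarith

end Pool.Agent.Y215.SK
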