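import Mathlib
import Pool.Agent.Y215.SK.Vol

set_option autoImplicit false
set_option linter.unusedSectionVars false
set_option linter.unusedSimpArgs false

/-! # Diagonal arguments, avoiding hyperplanes, trace forms -/

namespace Pool.Agent.Y215.SK

open Finset NumberField Filter
open Pool.Agent.TH286.GT.GrowD (sg sg_coe sg_inj)

/-- a slowly growing diagonal -/
theorem exists_diag (P : ℕ → ℕ → Prop) (hP : ∀ i, ∀ᶠ t in atTop, P i t) :
    ∃ κ : ℕ → ℕ, Tendsto κ atTop atTop ∧ ∀ᶠ t in atTop, ∀ i ≤ κ t, P i t := by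
  classical
  have hQ : ∀ k, ∃ T, ∀ t ≥ T, ∀ i ≤ k, P i t := by
    intro k
    have h1 : ∀ᶠ t in atTop, ∀ i ∈ Finset.range (k + 1), P i t :=
      (Filter.eventually_all_finset (Finset.range (k + 1))).2 fun i _ => hP i
    obtain ⟨T, hT⟩ := Filter.eventually_atTop.1 h1
    exact ⟨T, fun t ht i hi => hT t ht i (Finset.mem_range.2 (by omega))⟩
  choose T hT using hQ
  let R : ℕ → ℕ → Prop := fun t k => ∀ t' ≥ t, ∀ i ≤ k, P i t'
  refine ⟨fun t => Nat.findGreatest (R t) t, ?_, ?_⟩
  · rw [Filter.tendsto_atTop]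
    intro k
    filter_upwards [Filter.eventually_ge_atTop (max k (T k))] with t ht
    refine Nat.le_findGreatest (le_trans (le_max_left _ _) ht) ?_
    intro t' ht' i hi
    exact hT k t' (le_trans (le_trans (le_max_right _ _) ht) ht') i hi
  · filter_upwards [Filter.eventually_ge_atTop (T 0)] with t ht
    have h0 : R t 0 := fun t' ht' i hi => hT 0 t' (le_trans ht ht') i hi
    have h1 : R t (Nat.findGreatest (R t) t) := Nat.findGreatest_spec (P := R t) (Nat.zero_le _) h0
    exact fun i hi => h1 t le_rfl i hi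

variable {K : Type} [Field K] [NumberField K]

/-- the points of the moment curve -/
noncomputable def lamS (K : Type) [Field K] [NumberField K] (s : ℕ) : 𝓞 K :=
  ∑ b : Fin (Module.finrank ℤ (𝓞 K)), ((s : ℤ) ^ (b : ℕ)) • om K b

theorem lamS_ne (s : ℕ) : lamS K s ≠ 0 := by
  intro h
  have h1 := Fintype.linearIndependent_iff.1 (om K).linearIndependent _ h
  have hD : 0 < Module.finrank ℤ (𝓞 K) := Module.finrank_pos
  have h2 := h1 ⟨0, hD⟩
  simp at h2

/-- the moment curve avoids hyperplanes -/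
theorem exists_avoid (k : ℕ) : ∃ B : ℕ, ∀ g : Fin (k + 1) → (𝓞 K →ₗ[ℤ] ℤ),
    ∃ s ≤ B, ∀ i, g i ≠ 0 → g i (lamS K s) ≠ 0 := by
  classical
  refine ⟨(k + 1) * Module.finrank ℤ (𝓞 K), fun g => ?_⟩
  by_contra hcon
  push Not at hcon
  -- the polynomials
  let p : Fin (k + 1) → Polynomial ℤ := fun i =>
    ∑ b : Fin (Module.finrank ℤ (𝓞 K)), Polynomial.C (g i (om K b)) * Polynomial.X ^ (b : ℕ)
  have hev : ∀ i (s : ℕ), (p i).eval (s : ℤ) = g i (lamS K s) := by
    intro i s
    unfold lamS
    rw [map_sum]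
    simp only [p]
    rw [Polynomial.eval_finsetSum]
    refine Finset.sum_congr rfl fun b _ => ?_
    rw [map_smul, smul_eq_mul, Polynomial.eval_mul, Polynomial.eval_C, Polynomial.eval_pow,
      Polynomial.eval_X, mul_comm]
  have hdeg : ∀ i, (p i).natDegree < Module.finrank ℤ (𝓞 K) := by
    intro i
    have hD : 0 < Module.finrank ℤ (𝓞 K) := Module.finrank_pos
    refine lt_of_le_of_lt (Polynomial.natDegree_sum_le_of_forall_le (n :=
      Module.finrank ℤ (𝓞 K) - 1) _ _ fun b _ => ?_) (by omega)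
    refine (Polynomial.natDegree_C_mul_X_pow_le _ _).trans ?_
    have := b.2
    omega
  have hne : ∀ i, g i ≠ 0 → p i ≠ 0 := by
    intro i hi h0
    apply hi
    refine (om K).ext fun b => ?_
    have h1 : (p i).coeff (b : ℕ) = g i (om K b) := by
      simp only [p]
      rw [Polynomial.finsetSum_coeff, Finset.sum_eq_single b]
      · simp
      · intro b' _ hb'
        rw [Polynomial.coeff_C_mul_X_pow, if_neg]
        intro h
        exact hb' (Fin.ext h.symm)
      · intro h
        exact absurd (Finset.mem_univ _) h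
    rw [← h1, h0, Polynomial.coeff_zero]
    rfl
  have hcov : (Finset.range ((k + 1) * Module.finrank ℤ (𝓞 K) + 1)).image (fun s : ℕ => (s : ℤ)) ⊆
      Finset.univ.biUnion fun i : Fin (k + 1) => (p i).roots.toFinset := by
    intro x hx
    obtain ⟨s, hs, rfl⟩ := Finset.mem_image.1 hx
    obtain ⟨i, hi, hi0⟩ := hcon s (by have := Finset.mem_range.1 hs; omega)
    rw [Finset.mem_biUnion]
    refine ⟨i, Finset.mem_univ _, ?_⟩
    rw [Multiset.mem_toFinset, Polynomial.mem_roots (hne i hi), Polynomial.IsRoot.def, hev, hi0]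
  have h1 := Finset.card_le_card hcov
  rw [Finset.card_image_of_injective _ Nat.cast_injective, Finset.card_range] at h1
  have h2 : (Finset.univ.biUnion fun i : Fin (k + 1) => (p i).roots.toFinset).card ≤
      (k + 1) * Module.finrank ℤ (𝓞 K) := by
    refine Finset.card_biUnion_le.trans ?_
    have h3 : ∀ i ∈ (Finset.univ : Finset (Fin (k + 1))), (p i).roots.toFinset.card ≤
        Module.finrank ℤ (𝓞 K) := by
      intro i _
      exact (Multiset.toFinset_card_le _).trans ((Polynomial.card_roots' _).trans (hdeg i).le)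
    refine (Finset.sum_le_sum h3).trans ?_
    rw [Finset.sum_const, Finset.card_univ, Fintype.card_fin, smul_eq_mul]
  omega

/-- linear forms are given by the trace -/
theorem exists_trace (g : 𝓞 K →ₗ[ℤ] ℤ) :
    ∃ φ : K, ∀ x : 𝓞 K, ((g x : ℤ) : ℚ) = Algebra.trace ℚ K (φ * x) := by
  classical
  -- the rational basis
  let bQ : Module.Basis (Fin (Module.finrank ℤ (𝓞 K))) ℚ K := (om K).localizationLocalization ℚ
    (nonZeroDivisors ℤ) K
  have hbQ : ∀ b, bQ b = ((om K b : 𝓞 K) : K) := fun b =>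
    Module.Basis.localizationLocalization_apply _ _ _ _ _
  let G : K →ₗ[ℚ] ℚ := bQ.constr ℚ fun b => ((g (om K b) : ℤ) : ℚ)
  have hnd : (Algebra.traceForm ℚ K).Nondegenerate := traceForm_nondegenerate ℚ K
  obtain ⟨φ, hφ⟩ : ∃ φ : K, ∀ y, Algebra.traceForm ℚ K φ y = G y := by
    have h1 := ((Algebra.traceForm ℚ K).toDual hnd).surjective G
    obtain ⟨φ, hφ⟩ := h1
    refine ⟨φ, fun y => ?_⟩
    rw [← hφ]
    rfl
  refine ⟨φ, fun x => ?_⟩
  have h2 : G (x : K) = ((g x : ℤ) : ℚ) := by
    have h3 : ((x : 𝓞 K) : K) = ∑ b, (((om K).repr x b : ℤ) : ℚ) • bQ b := by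
      have h5 : ((x : 𝓞 K) : K) = algebraMap (𝓞 K) K (∑ b, (om K).repr x b • om K b) := by
        rw [(om K).sum_repr]
      rw [h5, map_sum]
      refine Finset.sum_congr rfl fun b _ => ?_
      rw [hbQ, map_zsmul, Int.cast_smul_eq_zsmul]
    rw [h3, map_sum]
    have h4 : g x = ∑ b, (om K).repr x b * g (om K b) := by
      conv_lhs => rw [← (om K).sum_repr x]
      rw [map_sum]
      refine Finset.sum_congr rfl fun b _ => ?_
      rw [map_smul, smul_eq_mul]
    rw [h4]
    push_cast
    refine Finset.sum_congr rfl fun b _ => ?_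
    rw [map_smul, smul_eq_mul]
    congr 1
    exact bQ.constr_basis ℚ _ b
  rw [← h2, ← hφ, Algebra.traceForm_apply]

end Pool.Agent.Y215.SK
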