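import Mathlib
import Pool.Agent.Y215.SK.Vol2
import Pool.Agent.TH717.ST.Small2

set_option autoImplicit false
set_option linter.unusedSectionVars false
set_option linter.unusedSimpArgs false

/-! # The subspace theorem for vanishing sums of units with small coefficients -/

namespace Pool.Agent.Y215.SK

open Finset NumberField Filter
open Pool.Agent.TH286.GT.GrowD (sg sg_coe sg_inj)
open Pool.Agent.TH286.GT
open Pool.Agent.TH717.ST (subT pen)

variable {K : Type} [Field K] [NumberField K] [IsGalois ℚ K] {m : ℕ}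

/-- products of powers -/
noncomputable def uu {s : ℕ} (U : Fin s → 𝓞 K) (k : Fin m → Fin s → ℕ) (j : Fin m) : 𝓞 K :=
  ∏ v, U v ^ k j v

/-- the numbers for the lattices -/
noncomputable def lamU {s : ℕ} (U : Fin s → 𝓞 K) (p : Fin (s * m))
    (l : Fin (m * Module.finrank ℤ (𝓞 K))) : 𝓞 K :=
  if (finProdFinEquiv.symm p).2 = (er K m l).1 then
    sg (er K m l).2 (U (finProdFinEquiv.symm p).1) else 1

theorem bet_lamU {s : ℕ} (U : Fin s → 𝓞 K) (k : Fin m → Fin s → ℕ) :
    bet (lamU U) (fun p => k (finProdFinEquiv.symm p).2 (finProdFinEquiv.symm p).1) =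
      fun l => sg (er K m l).2 (uu U k (er K m l).1) := by
  classical
  funext l
  unfold bet lamU uu
  rw [← Equiv.prod_comp finProdFinEquiv, Fintype.prod_prod_type, map_prod]
  refine Finset.prod_congr rfl fun v _ => ?_
  rw [Finset.prod_eq_single (er K m l).1]
  · simp [map_pow]
  · intro j _ hj
    simp [hj]
  · intro h
    exact absurd (Finset.mem_univ _) h

theorem uu_ne {s : ℕ} (U : Fin s → 𝓞 K) (hU : ∀ v, U v ≠ 0) (k : Fin m → Fin s → ℕ) (j : Fin m) :
    uu U k j ≠ 0 := Finset.prod_ne_zero_iff.2 fun v _ => pow_ne_zero _ (hU v)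

/-- the vectors spanning the subspace of sum zero -/
noncomputable def bV (K : Type) [Field K] [NumberField K] (m1 : ℕ)
    (p : Fin (m1 * Module.finrank ℤ (𝓞 K)))
    (l : Fin ((m1 + 1) * Module.finrank ℤ (𝓞 K))) : ℤ :=
  (if ec K (m1 + 1) l = ((ec K m1 p).1.castSucc, (ec K m1 p).2) then 1 else 0) -
    (if ec K (m1 + 1) l = (Fin.last m1, (ec K m1 p).2) then 1 else 0)

theorem bV_apply (m1 : ℕ) (p : Fin (m1 * Module.finrank ℤ (𝓞 K)))
    (f : Fin ((m1 + 1) * Module.finrank ℤ (𝓞 K)) → ℤ) :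
    ∑ l, f l * bV K m1 p l =
      f ((ec K (m1 + 1)).symm ((ec K m1 p).1.castSucc, (ec K m1 p).2)) -
        f ((ec K (m1 + 1)).symm (Fin.last m1, (ec K m1 p).2)) := by
  classical
  unfold bV
  simp only [mul_sub, Finset.sum_sub_distrib, mul_ite, mul_one, mul_zero]
  have h1 : ∀ q : Fin (m1 + 1) × Fin (Module.finrank ℤ (𝓞 K)),
      ∑ l, (if ec K (m1 + 1) l = q then f l else 0) = f ((ec K (m1 + 1)).symm q) := by
    intro q
    rw [Finset.sum_eq_single ((ec K (m1 + 1)).symm q)]
    · rw [Equiv.apply_symm_apply, if_pos rfl]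
    · intro l _ hl
      rw [if_neg]
      intro h
      apply hl
      rw [← h, Equiv.symm_apply_apply]
    · intro h
      exact absurd (Finset.mem_univ _) h
  rw [h1, h1]

theorem bV_indep (m1 : ℕ) : LinearIndependent ℤ (bV K m1) := by
  classical
  rw [Fintype.linearIndependent_iff]
  intro g hg p
  have h1 := congrFun hg ((ec K (m1 + 1)).symm ((ec K m1 p).1.castSucc, (ec K m1 p).2))
  rw [Finset.sum_apply, Finset.sum_eq_single p] at h1
  · simp only [Pi.smul_apply, smul_eq_mul, Pi.zero_apply, bV, Equiv.apply_symm_apply] at h1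
    have h2 : ((ec K m1 p).1.castSucc, (ec K m1 p).2) ≠ (Fin.last m1, (ec K m1 p).2) := by
      intro h
      have := congrArg Prod.fst h
      exact (Fin.castSucc_lt_last (ec K m1 p).1).ne this
    rw [if_neg h2] at h1
    simpa using h1
  · intro p' _ hp'
    simp only [Pi.smul_apply, smul_eq_mul, bV, Equiv.apply_symm_apply]
    have h2 : ((ec K m1 p).1.castSucc, (ec K m1 p).2) ≠ (Fin.last m1, (ec K m1 p').2) := by
      intro h
      have := congrArg Prod.fst h
      exact (Fin.castSucc_lt_last (ec K m1 p).1).ne this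
    have h3 : ((ec K m1 p).1.castSucc, (ec K m1 p).2) ≠
        ((ec K m1 p').1.castSucc, (ec K m1 p').2) := by
      intro h
      apply hp'
      apply (ec K m1).injective
      have h4 := congrArg Prod.fst h
      have h5 := congrArg Prod.snd h
      exact (Prod.ext (Fin.castSucc_injective _ h4) h5).symm
    rw [if_neg h2, if_neg h3]
    simp
  · intro h
    exact absurd (Finset.mem_univ _) h

theorem T2_sum (J : (K ≃ₐ[ℚ] K) → Fin m) (g : Fin m → (K ≃ₐ[ℚ] K) → ℝ) :
    ∑ l ∈ T2 J, g (er K m l).1 (er K m l).2 = ∑ σ, g (J σ) σ := by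
  classical
  refine (Finset.sum_bij (fun σ _ => (er K m).symm (J σ, σ)) ?_ ?_ ?_ ?_).symm
  · intro σ _
    unfold T2
    rw [Finset.mem_filter, Equiv.apply_symm_apply]
    exact ⟨Finset.mem_univ _, rfl⟩
  · intro σ _ τ _ h
    exact congrArg Prod.snd ((er K m).symm.injective h)
  · intro l hl
    refine ⟨(er K m l).2, Finset.mem_univ _, ?_⟩
    rw [← (Finset.mem_filter.1 hl).2]
    exact (er K m).symm_apply_apply l
  · intro σ _
    rw [Equiv.apply_symm_apply]

theorem det_abs (ψ : K →+* ℂ) (u : Fin m → 𝓞 K) :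
    |((Bt u).det : ℝ)| = ∏ l, ‖ph ψ (sg (er K m l).2 (u (er K m l).1))‖ := by
  have h1 := congrArg (fun x => ‖ph ψ x‖) (Bt_det u)
  simp only [map_intCast, Complex.norm_intCast, map_prod, norm_prod] at h1
  exact h1

theorem Bt_det_ne (u : Fin m → 𝓞 K) (hu : ∀ j, u j ≠ 0) : (Bt u).det ≠ 0 := by
  intro h
  have h1 := Bt_det u
  rw [h, Int.cast_zero] at h1
  refine Finset.prod_ne_zero_iff.2 (fun l _ => ?_) h1.symm
  intro h2
  exact hu _ (sg_inj _ (by rw [h2, map_zero]))

end Pool.Agent.Y215.SK
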