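import Mathlib
import Pool.Agent.Y215.SK.SubJ2
import Pool.Agent.Y215.SK.Diag

set_option autoImplicit false
set_option linter.unusedSectionVars false
set_option linter.unusedSimpArgs false

/-! # The subspace theorem over number fields for vanishing sums of units with small coefficients -/

namespace Pool.Agent.Y215.SK

open Finset NumberField Filter
open Pool.Agent.TH286.GT.GrowD (sg sg_coe sg_inj)

variable {K : Type} [Field K] [NumberField K]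

/-- the functional on the `j`-th coordinate -/
noncomputable def comp {m : ℕ} (f : Fin (m * Module.finrank ℤ (𝓞 K)) → ℤ) (j : Fin m) :
    𝓞 K →ₗ[ℤ] ℤ :=
  ∑ b, f ((ec K m).symm (j, b)) • (om K).coord b

theorem comp_om {m : ℕ} (f : Fin (m * Module.finrank ℤ (𝓞 K)) → ℤ) (j : Fin m)
    (b : Fin (Module.finrank ℤ (𝓞 K))) : comp f j (om K b) = f ((ec K m).symm (j, b)) := by
  classical
  unfold comp
  rw [LinearMap.sum_apply, Finset.sum_eq_single b]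
  · simp
  · intro b' _ hb'
    simp [Module.Basis.coord_apply, Finsupp.single_apply, hb'.symm]
  · intro h
    exact absurd (Finset.mem_univ _) h

theorem sum_cv {m : ℕ} (f : Fin (m * Module.finrank ℤ (𝓞 K)) → ℤ) (X : Fin m → 𝓞 K) :
    ∑ l, f l * cv X l = ∑ j, comp f j (X j) := by
  rw [← Equiv.sum_comp (ec K m).symm, Fintype.sum_prod_type]
  refine Finset.sum_congr rfl fun j _ => ?_
  unfold comp cv
  rw [LinearMap.sum_apply]
  refine Finset.sum_congr rfl fun b _ => ?_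
  rw [LinearMap.smul_apply, smul_eq_mul, Module.Basis.coord_apply, Equiv.apply_symm_apply]

variable [IsGalois ℚ K]

theorem subK (ψ : K →+* ℂ) (cj : K ≃ₐ[ℚ] K) (hcj : ∀ x, ψ (cj x) = (starRingEnd ℂ) (ψ x))
    (iK : 𝓞 K) (hi : ψ (iK : K) = Complex.I) {m1 s : ℕ}
    (U : Fin s → 𝓞 K) (hU : ∀ v, U v ≠ 0) (c1 : ℝ) (hc1 : 0 ≤ c1)
    (k : ℕ → Fin (m1 + 1) → Fin s → ℕ) (c : ℕ → Fin (m1 + 1) → 𝓞 K) (N : ℕ → ℝ)
    (hN : Tendsto N atTop atTop)
    (hlog : ∀ t j σ, |Real.log ‖ph ψ (sg σ (uu U (k t) j))‖| ≤ c1 * N t)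
    (hht : ∀ t, N t ≤ ∑ σ, Real.log (⨆ j, ‖ph ψ (sg σ (uu U (k t) j))‖) -
        Real.log (Ideal.absNorm (Ideal.span (Set.range (uu U (k t))))))
    (hsm : ∀ δ : ℝ, 0 < δ → ∀ᶠ t in atTop, ∀ j σ,
      ‖ph ψ (sg σ (c t j))‖ ≤ Real.exp (δ * N t))
    (hsum : ∀ t, ∑ j, c t j * uu U (k t) j = 0) (hnz : ∀ t, c t ≠ 0) :
    ∃ d : Fin (m1 + 1) → K, (∃ i, d i ≠ d (Fin.last m1)) ∧
      ∃ᶠ t in atTop, ∑ j, d j * ((c t j * uu U (k t) j : 𝓞 K) : K) = 0 := by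
  classical
  by_contra hcon
  push Not at hcon
  -- the pattern
  have hmax : ∀ t, ∃ J : (K ≃ₐ[ℚ] K) → Fin (m1 + 1), ∀ σ,
      ⨆ j, ‖ph ψ (sg σ (uu U (k t) j))‖ = ‖ph ψ (sg σ (uu U (k t) (J σ)))‖ := by
    intro t
    choose J hJ using fun σ : K ≃ₐ[ℚ] K =>
      exists_eq_ciSup_of_finite (f := fun j => ‖ph ψ (sg σ (uu U (k t) j))‖)
    exact ⟨J, fun σ => (hJ σ).symm⟩
  choose JJ hJJ using hmax
  obtain ⟨J, hJ⟩ : ∃ J, ∃ᶠ t in atTop, JJ t = J := by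
    by_contra h
    push Not at h
    have h1 : ∀ᶠ t in atTop, ∀ J, JJ t ≠ J :=
      Filter.eventually_all.2 fun J => h J
    obtain ⟨t, ht⟩ := h1.exists
    exact ht _ rfl
  obtain ⟨τ, hτ, hτJ⟩ := Filter.extraction_of_frequently_atTop hJ
  have hτt : Tendsto τ atTop atTop := hτ.tendsto_atTop
  -- enumeration of the functionals
  obtain ⟨F, hF⟩ := exists_surjective_nat (Fin ((m1 + 1) * Module.finrank ℤ (𝓞 K)) → ℤ)
  choose φ hφ using fun (f : Fin ((m1 + 1) * Module.finrank ℤ (𝓞 K)) → ℤ) (j : Fin (m1 + 1)) =>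
    exists_trace (comp f j)
  choose B hB using fun i : ℕ => exists_avoid (K := K) i
  -- sizes of the multipliers
  have hH : ∀ i : ℕ, ∃ H : ℝ, 1 ≤ H ∧ ∀ s ≤ B i, ∀ σ : K ≃ₐ[ℚ] K,
      ‖ph ψ (sg σ (lamS K s))‖ ≤ H := by
    intro i
    refine ⟨1 + ∑ s ∈ Finset.range (B i + 1), ∑ σ : K ≃ₐ[ℚ] K, ‖ph ψ (sg σ (lamS K s))‖, ?_, ?_⟩
    · have : 0 ≤ ∑ s ∈ Finset.range (B i + 1), ∑ σ : K ≃ₐ[ℚ] K, ‖ph ψ (sg σ (lamS K s))‖ :=
        Finset.sum_nonneg fun _ _ => Finset.sum_nonneg fun _ _ => norm_nonneg _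
      linarith
    · intro s hs σ
      have h1 : ‖ph ψ (sg σ (lamS K s))‖ ≤ ∑ σ : K ≃ₐ[ℚ] K, ‖ph ψ (sg σ (lamS K s))‖ :=
        Finset.single_le_sum (f := fun σ : K ≃ₐ[ℚ] K => ‖ph ψ (sg σ (lamS K s))‖)
          (fun _ _ => norm_nonneg _) (Finset.mem_univ σ)
      have h2 : ∑ σ : K ≃ₐ[ℚ] K, ‖ph ψ (sg σ (lamS K s))‖ ≤
          ∑ s ∈ Finset.range (B i + 1), ∑ σ : K ≃ₐ[ℚ] K, ‖ph ψ (sg σ (lamS K s))‖ :=
        Finset.single_le_sum (f := fun s => ∑ σ : K ≃ₐ[ℚ] K, ‖ph ψ (sg σ (lamS K s))‖)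
          (fun _ _ => Finset.sum_nonneg fun _ _ => norm_nonneg _)
          (Finset.mem_range.2 (by omega))
      linarith
  choose H hH1 hH2 using hH
  -- the predicates
  let X : ℕ → Fin (m1 + 1) → 𝓞 K := fun t j => c t j * uu U (k t) j
  obtain ⟨κ, hκ, hκP⟩ := exists_diag (fun i t =>
    ((∃ j, φ (F i) j ≠ φ (F i) (Fin.last m1)) →
      ∑ j, φ (F i) j * ((X (τ t) j : 𝓞 K) : K) ≠ 0) ∧
      (i + 1) * Real.log (H i) ≤ N (τ t)) (by
    intro i
    refine Filter.Eventually.and ?_ ?_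
    · by_cases h : ∃ j, φ (F i) j ≠ φ (F i) (Fin.last m1)
      · have h1 := hτt.eventually (hcon _ h)
        filter_upwards [h1] with t ht _
        exact ht
      · exact Filter.Eventually.of_forall fun t h' => absurd h' h
    · exact (hN.comp hτt).eventually_ge_atTop _)
  -- the functionals of `λ`
  let gg : ℕ → (Fin ((m1 + 1) * Module.finrank ℤ (𝓞 K)) → ℤ) → (𝓞 K →ₗ[ℤ] ℤ) := fun t f =>
    ∑ j, (comp f j) ∘ₗ (LinearMap.mulRight ℤ (X (τ t) j))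
  have hgg : ∀ t f lam, gg t f lam = ∑ l, f l * cv (fun j => lam * X (τ t) j) l := by
    intro t f lam
    rw [sum_cv]
    simp only [gg, LinearMap.sum_apply]
    rfl
  have hgg0 : ∀ t f, ∑ j, φ f j * ((X (τ t) j : 𝓞 K) : K) ≠ 0 → gg t f ≠ 0 := by
    intro t f h h0
    apply h
    have h1 : ∀ lam : 𝓞 K, Algebra.trace ℚ K ((∑ j, φ f j * ((X (τ t) j : 𝓞 K) : K)) * lam) = 0 := by
      intro lam
      have h2 : ((gg t f lam : ℤ) : ℚ) = 0 := by rw [h0]; simp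
      simp only [gg, LinearMap.sum_apply, LinearMap.comp_apply, LinearMap.mulRight_apply] at h2
      push_cast at h2
      rw [← h2, Finset.sum_mul, map_sum]
      refine Finset.sum_congr rfl fun j _ => ?_
      rw [hφ]
      congr 1
      push_cast
      ring
    have hnd := traceForm_nondegenerate ℚ K
    refine hnd.1 _ fun y => ?_
    obtain ⟨n, hn, -, hint⟩ := NumberField.exists_nat_le_mulHeight₁ y
    have h3 := h1 ⟨(n : K) * y, hint⟩
    have hnK : (n : ℚ) ≠ 0 := by exact_mod_cast hn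
    rw [Algebra.traceForm_apply]
    have h4 : (∑ j, φ f j * ((X (τ t) j : 𝓞 K) : K)) * ((n : K) * y) =
        (n : ℚ) • ((∑ j, φ f j * ((X (τ t) j : 𝓞 K) : K)) * y) := by
      rw [Algebra.smul_def, map_natCast]
      ring
    have h5 : Algebra.trace ℚ K ((n : ℚ) • ((∑ j, φ f j * ((X (τ t) j : 𝓞 K) : K)) * y)) = 0 := by
      rw [← h4]
      exact h3
    rw [map_smul, smul_eq_mul] at h5
    exact (mul_eq_zero.1 h5).resolve_left hnK
  -- the multipliers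
  have hsel : ∀ t, ∃ s ≤ B (κ t), ∀ i ≤ κ t, gg t (F i) ≠ 0 → gg t (F i) (lamS K s) ≠ 0 := by
    intro t
    obtain ⟨s, hs, hs2⟩ := hB (κ t) (fun i => gg t (F i))
    exact ⟨s, hs, fun i hi => hs2 ⟨i, by omega⟩⟩
  choose sel hsel1 hsel2 using hsel
  obtain ⟨m', hm'⟩ : ∃ m' : ℕ, m' = m1 * Module.finrank ℤ (𝓞 K) := ⟨_, rfl⟩
  have hm'0 : (0 : ℝ) ≤ m' := Nat.cast_nonneg _
  obtain ⟨γ, hγ⟩ : ∃ γ : ℝ, γ = 1 / (8 * ((m' : ℝ) + 1)) := ⟨_, rfl⟩
  have hγ0 : 0 < γ := by rw [hγ]; positivity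
  have hγ1 : γ * (8 * (((m1 * Module.finrank ℤ (𝓞 K) : ℕ) : ℝ) + 1)) ≤ 1 := by
    rw [← hm', hγ, one_div, inv_mul_cancel₀ (by positivity)]
  obtain ⟨N0, hN0⟩ := subK_J ψ cj hcj iK hi U hU J c1 hc1 γ hγ0 hγ1
  have hev : ∀ᶠ t in atTop, N0 ≤ N (τ t) ∧ 0 ≤ N (τ t) ∧
      (∀ j σ, ‖ph ψ (sg σ (c (τ t) j))‖ ≤ Real.exp (γ / 2 * N (τ t))) ∧
      Real.log (H (κ t)) ≤ γ / 2 * N (τ t) := by
    have h1 : Tendsto (fun t => N (τ t)) atTop atTop := hN.comp hτt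
    have h2 : ∀ᶠ t in atTop, ∀ j σ, ‖ph ψ (sg σ (c (τ t) j))‖ ≤ Real.exp (γ / 2 * N (τ t)) :=
      hτt.eventually (hsm (γ / 2) (by positivity))
    have h3 : Tendsto (fun t => (κ t : ℝ)) atTop atTop := tendsto_natCast_atTop_atTop.comp hκ
    filter_upwards [h1.eventually_ge_atTop N0, h1.eventually_ge_atTop 0, h2,
      h3.eventually_ge_atTop (2 / γ), hκP] with t ht1 ht2 ht3 ht4 ht5
    refine ⟨ht1, ht2, ht3, ?_⟩
    have h4 := (ht5 (κ t) le_rfl).2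
    have h5 : 0 ≤ Real.log (H (κ t)) := Real.log_nonneg (hH1 _)
    have h6 : 2 / γ * Real.log (H (κ t)) ≤ N (τ t) := by
      refine le_trans ?_ h4
      refine mul_le_mul_of_nonneg_right ?_ h5
      linarith
    rw [div_mul_eq_mul_div, div_le_iff₀ hγ0] at h6
    linarith
  obtain ⟨t0, ht0⟩ := Filter.eventually_atTop.1 hev
  have hsh : Tendsto (fun t => t + t0) atTop atTop := tendsto_add_atTop_nat t0
  obtain ⟨f, ⟨i', b, hib⟩, hfr⟩ := hN0 (fun t => k (τ (t + t0)))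
    (fun t j => lamS K (sel (t + t0)) * c (τ (t + t0)) j) (fun t => N (τ (t + t0)))
    ((hN.comp hτt).comp hsh) (fun t => (ht0 (t + t0) (Nat.le_add_left _ _)).1)
    (fun t j σ => hlog _ j σ)
    (by
      intro t
      have h1 := hht (τ (t + t0))
      have h2 : ∀ σ : K ≃ₐ[ℚ] K, ⨆ j, ‖ph ψ (sg σ (uu U (k (τ (t + t0))) j))‖ =
          ‖ph ψ (sg σ (uu U (k (τ (t + t0))) (J σ)))‖ := by
        intro σ
        rw [hJJ, hτJ]
      simp_rw [h2] at h1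
      exact h1)
    (by
      intro t j σ
      obtain ⟨-, h2, h3, h4⟩ := ht0 (t + t0) (Nat.le_add_left _ _)
      rw [map_mul, map_mul, norm_mul]
      have h5 := hH2 (κ (t + t0)) (sel (t + t0)) (hsel1 _) σ
      have h6 : H (κ (t + t0)) ≤ Real.exp (γ / 2 * N (τ (t + t0))) :=
        (Real.log_le_iff_le_exp (lt_of_lt_of_le one_pos (hH1 _))).1 h4
      calc _ ≤ Real.exp (γ / 2 * N (τ (t + t0))) * Real.exp (γ / 2 * N (τ (t + t0))) :=
            mul_le_mul (h5.trans h6) (h3 j σ) (norm_nonneg _) (Real.exp_pos _).le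
        _ = Real.exp (γ * N (τ (t + t0))) := by
            rw [← Real.exp_add]
            congr 1
            ring)
    (by
      intro t
      have h1 := hsum (τ (t + t0))
      have h2 : ∀ j, lamS K (sel (t + t0)) * c (τ (t + t0)) j * uu U (k (τ (t + t0))) j =
          lamS K (sel (t + t0)) * (c (τ (t + t0)) j * uu U (k (τ (t + t0))) j) := fun j =>
        mul_assoc _ _ _
      simp_rw [h2]
      rw [← Finset.mul_sum, h1, mul_zero])
    (by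
      intro t h
      apply hnz (τ (t + t0))
      funext j
      exact (mul_eq_zero.1 (congrFun h j)).resolve_left (lamS_ne _))
  obtain ⟨i, rfl⟩ := hF f
  have hφne : φ (F i) i' ≠ φ (F i) (Fin.last m1) := by
    intro h
    apply hib
    have h1 := hφ (F i) i' (om K b)
    rw [h, ← hφ] at h1
    have h2 : comp (F i) i' (om K b) = comp (F i) (Fin.last m1) (om K b) := by exact_mod_cast h1
    rw [comp_om, comp_om] at h2
    exact h2
  have hev2 : ∀ᶠ t in atTop, i ≤ κ (t + t0) ∧ ∀ i ≤ κ (t + t0),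
      ((∃ j, φ (F i) j ≠ φ (F i) (Fin.last m1)) →
      ∑ j, φ (F i) j * ((X (τ (t + t0)) j : 𝓞 K) : K) ≠ 0) ∧
      (i + 1) * Real.log (H i) ≤ N (τ (t + t0)) :=
    (hsh.eventually (hκ.eventually_ge_atTop i)).and (hsh.eventually hκP)
  obtain ⟨t, ht1, ht2, ht3⟩ := (hfr.and_eventually hev2).exists
  have h1 := (ht3 i ht2).1 ⟨i', hφne⟩
  have h2 := hsel2 (t + t0) i ht2 (hgg0 _ _ h1)
  apply h2
  rw [hgg, ← ht1]
  refine Finset.sum_congr rfl fun l _ => ?_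
  congr 2
  funext j
  simp only [X]
  ring

end Pool.Agent.Y215.SK
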