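import Mathlib
import Pool.Agent.Y215.SK.SubK
import Pool.Agent.Y215.SK.Hts

set_option autoImplicit false
set_option linter.unusedSectionVars false
set_option linter.unusedSimpArgs false

/-! # Vanishing sums with terms in a finitely generated group and small coefficients -/

namespace Pool.Agent.Y215.SK

open Finset NumberField Height Filter
open Pool.Agent.TH286.GT.GrowD (sg sg_coe sg_inj)

variable {K : Type} [Field K] [NumberField K]

/-- a common denominator -/
theorem exists_den {ι : Type} [Fintype ι] (x : ι → K) :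
    ∃ b : ℕ, b ≠ 0 ∧ Real.log b ≤ ∑ i, logHeight₁ (x i) ∧ ∀ i, IsIntegral ℤ ((b : K) * x i) := by
  classical
  choose n hn0 hn hint using fun i => exists_nat_le_mulHeight₁ (x i)
  refine ⟨∏ i, n i, Finset.prod_ne_zero_iff.2 fun i _ => hn0 i, ?_, fun i => ?_⟩
  · push_cast
    rw [Real.log_prod (fun i _ => by exact_mod_cast hn0 i)]
    refine Finset.sum_le_sum fun i _ => ?_
    rw [logHeight₁_eq_log_mulHeight₁]
    exact Real.log_le_log (by exact_mod_cast Nat.pos_of_ne_zero (hn0 i)) (hn i)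
  · push_cast
    rw [← Finset.prod_erase_mul _ _ (Finset.mem_univ i), mul_assoc]
    refine IsIntegral.mul ?_ (hint i)
    refine IsIntegral.prod _ fun j _ => ?_
    have h1 : IsIntegral ℤ (algebraMap ℤ K (n j : ℤ)) := isIntegral_algebraMap
    simpa using h1

variable [IsGalois ℚ K]

theorem subG (ψ : K →+* ℂ) (cj : K ≃ₐ[ℚ] K) (hcj : ∀ x, ψ (cj x) = (starRingEnd ℂ) (ψ x))
    (iK : 𝓞 K) (hi : ψ (iK : K) = Complex.I) {m1 ρ : ℕ}
    (g : Fin ρ → K) (hg : ∀ v, g v ≠ 0) (C : ℝ) (hC : 0 ≤ C)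
    (q : ℕ → Fin (m1 + 1) → Fin ρ → ℤ) (a : ℕ → Fin (m1 + 1) → K) (N : ℕ → ℝ)
    (hN : Tendsto N atTop atTop) (hq : ∀ t j v, |(q t j v : ℝ)| ≤ C * N t)
    (hht : ∀ t, N t ≤ logHeight (fun j => ∏ v, g v ^ q t j v))
    (hsm : ∀ δ : ℝ, 0 < δ → ∀ᶠ t in atTop, ∀ j, logHeight₁ (a t j) ≤ δ * N t)
    (hsum : ∀ t, ∑ j, a t j * ∏ v, g v ^ q t j v = 0) (hnz : ∀ t, a t ≠ 0) :
    ∃ d : Fin (m1 + 1) → K, (∃ i, d i ≠ d (Fin.last m1)) ∧
      ∃ᶠ t in atTop, ∑ j, d j * (a t j * ∏ v, g v ^ q t j v) = 0 := by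
  classical
  -- integral generators
  obtain ⟨b, hb0, -, hb⟩ := exists_den (fun v : Fin ρ ⊕ Fin ρ => Sum.elim g (fun v => (g v)⁻¹) v)
  have hbK : (b : K) ≠ 0 := by exact_mod_cast hb0
  let ι := (Fin ρ ⊕ Fin ρ) ⊕ Unit
  let Ui : ι → 𝓞 K := Sum.elim (fun v => ⟨(b : K) * Sum.elim g (fun v => (g v)⁻¹) v, hb v⟩)
    (fun _ => (b : 𝓞 K))
  have hUi0 : ∀ v, Ui v ≠ 0 := by
    rintro ((v | v) | v) h
    · have h1 : (b : K) * g v = 0 := congrArg (fun x : 𝓞 K => (x : K)) h
      exact mul_ne_zero hbK (hg v) h1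
    · have h1 : (b : K) * (g v)⁻¹ = 0 := congrArg (fun x : 𝓞 K => (x : K)) h
      exact mul_ne_zero hbK (inv_ne_zero (hg v)) h1
    · have h1 : (b : 𝓞 K) = 0 := h
      exact hb0 (by exact_mod_cast h1)
  let E : ℕ → ℕ := fun t => ∑ j, ∑ v, (q t j v).natAbs
  let ki : ℕ → Fin (m1 + 1) → ι → ℕ := fun t j =>
    Sum.elim (Sum.elim (fun v => (q t j v).toNat) (fun v => (-q t j v).toNat))
      (fun _ => E t - ∑ v, (q t j v).natAbs)
  have hEj : ∀ t j, ∑ v, (q t j v).natAbs ≤ E t := fun t j =>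
    Finset.single_le_sum (f := fun j => ∑ v, (q t j v).natAbs) (fun _ _ => Nat.zero_le _)
      (Finset.mem_univ j)
  let e : Fin (Fintype.card ι) ≃ ι := (Fintype.equivFin ι).symm
  let U : Fin (Fintype.card ι) → 𝓞 K := fun v => Ui (e v)
  let k : ℕ → Fin (m1 + 1) → Fin (Fintype.card ι) → ℕ := fun t j v => ki t j (e v)
  have huu : ∀ t j, uu U (k t) j = ∏ x : ι, Ui x ^ ki t j x := by
    intro t j
    unfold uu
    exact Equiv.prod_comp e (fun x => Ui x ^ ki t j x)
  have huuK : ∀ t j, ((uu U (k t) j : 𝓞 K) : K) = (b : K) ^ E t * ∏ v, g v ^ q t j v := by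
    intro t j
    rw [huu, Fintype.prod_sum_type, Fintype.prod_sum_type]
    have h1 : ∀ v : Fin ρ, ((Ui (Sum.inl (Sum.inl v)) ^ ki t j (Sum.inl (Sum.inl v)) : 𝓞 K) : K) *
        ((Ui (Sum.inl (Sum.inr v)) ^ ki t j (Sum.inl (Sum.inr v)) : 𝓞 K) : K) =
        (b : K) ^ (q t j v).natAbs * g v ^ q t j v := by
      intro v
      have h2 : ((Ui (Sum.inl (Sum.inl v)) ^ ki t j (Sum.inl (Sum.inl v)) : 𝓞 K) : K) =
          ((b : K) * g v) ^ (q t j v).toNat := by
        show algebraMap (𝓞 K) K _ = _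
        rw [map_pow]
        rfl
      have h3 : ((Ui (Sum.inl (Sum.inr v)) ^ ki t j (Sum.inl (Sum.inr v)) : 𝓞 K) : K) =
          ((b : K) * (g v)⁻¹) ^ (-q t j v).toNat := by
        show algebraMap (𝓞 K) K _ = _
        rw [map_pow]
        rfl
      rw [h2, h3]
      rcases le_total 0 (q t j v) with h4 | h4
      · obtain ⟨n, hn⟩ := Int.eq_ofNat_of_zero_le h4
        rw [hn]
        simp [mul_pow]
      · obtain ⟨n, hn⟩ := Int.eq_ofNat_of_zero_le (neg_nonneg.2 h4)
        have h5 : q t j v = -(n : ℤ) := by omega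
        rw [h5]
        simp [mul_pow]
    have h2 : ((∏ x : Unit, Ui (Sum.inr x) ^ ki t j (Sum.inr x) : 𝓞 K) : K) =
        (b : K) ^ (E t - ∑ v, (q t j v).natAbs) := by
      show algebraMap (𝓞 K) K _ = _
      rw [map_prod]
      simp [Ui, ki]
    have h3 : (((∏ v, Ui (Sum.inl (Sum.inl v)) ^ ki t j (Sum.inl (Sum.inl v))) *
        (∏ v, Ui (Sum.inl (Sum.inr v)) ^ ki t j (Sum.inl (Sum.inr v))) : 𝓞 K) : K) =
        (b : K) ^ (∑ v, (q t j v).natAbs) * ∏ v, g v ^ q t j v := by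
      rw [← Finset.prod_mul_distrib, RingOfIntegers.coe_eq_algebraMap, map_prod,
        ← Finset.prod_pow_eq_pow_sum, ← Finset.prod_mul_distrib]
      refine Finset.prod_congr rfl fun v _ => ?_
      rw [map_mul]
      exact h1 v
    rw [RingOfIntegers.coe_eq_algebraMap, map_mul]
    rw [RingOfIntegers.coe_eq_algebraMap] at h2 h3
    rw [h2, h3]
    have h4 : (b : K) ^ E t = (b : K) ^ (∑ v, (q t j v).natAbs) *
        (b : K) ^ (E t - ∑ v, (q t j v).natAbs) := by
      rw [← pow_add, Nat.add_sub_cancel' (hEj t j)]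
    rw [h4]
    ring
  -- logarithmic sizes
  obtain ⟨L, hL0, hL⟩ : ∃ L : ℝ, 0 ≤ L ∧ ∀ (x : ι) (σ : K ≃ₐ[ℚ] K),
      |Real.log ‖ph ψ (sg σ (Ui x))‖| ≤ L := by
    refine ⟨∑ x : ι, ∑ σ : K ≃ₐ[ℚ] K, |Real.log ‖ph ψ (sg σ (Ui x))‖|,
      Finset.sum_nonneg fun _ _ => Finset.sum_nonneg fun _ _ => abs_nonneg _, fun x σ => ?_⟩
    refine (Finset.single_le_sum (f := fun σ : K ≃ₐ[ℚ] K => |Real.log ‖ph ψ (sg σ (Ui x))‖|)
      (fun _ _ => abs_nonneg _) (Finset.mem_univ σ)).trans ?_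
    exact Finset.single_le_sum
      (f := fun x : ι => ∑ σ : K ≃ₐ[ℚ] K, |Real.log ‖ph ψ (sg σ (Ui x))‖|)
      (fun _ _ => Finset.sum_nonneg fun _ _ => abs_nonneg _) (Finset.mem_univ x)
  have hki : ∀ t j, ∑ x : ι, ki t j x = E t := by
    intro t j
    rw [Fintype.sum_sum_type, Fintype.sum_sum_type, ← Finset.sum_add_distrib]
    have h1 : ∀ v : Fin ρ, ki t j (Sum.inl (Sum.inl v)) + ki t j (Sum.inl (Sum.inr v)) =
        (q t j v).natAbs := by
      intro v
      show (q t j v).toNat + (-q t j v).toNat = _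
      omega
    rw [Finset.sum_congr rfl fun v _ => h1 v]
    have h2 : ∑ x : Unit, ki t j (Sum.inr x) = E t - ∑ v, (q t j v).natAbs := by
      simp [ki]
    rw [h2]
    exact Nat.add_sub_cancel' (hEj t j)
  have hE : ∀ t, (E t : ℝ) ≤ (m1 + 1) * ρ * C * N t := by
    intro t
    have h1 : (E t : ℝ) = ∑ j : Fin (m1 + 1), ∑ v : Fin ρ, |(q t j v : ℝ)| := by
      simp only [E]
      push_cast
      refine Finset.sum_congr rfl fun j _ => Finset.sum_congr rfl fun v _ => ?_
      exact Nat.cast_natAbs (q t j v) |>.trans (by push_cast; rfl)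
    rw [h1]
    refine (Finset.sum_le_sum fun j _ => Finset.sum_le_sum fun v _ => hq t j v).trans ?_
    rw [Finset.sum_const, Finset.sum_const, Finset.card_univ, Finset.card_univ, Fintype.card_fin,
      Fintype.card_fin, nsmul_eq_mul, nsmul_eq_mul]
    push_cast
    exact le_of_eq (by ring)
  have hlog : ∀ t j (σ : K ≃ₐ[ℚ] K), |Real.log ‖ph ψ (sg σ (uu U (k t) j))‖| ≤
      (L * ((m1 + 1) * ρ * C)) * N t := by
    intro t j σ
    rw [huu, map_prod, map_prod, norm_prod, Real.log_prod]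
    · refine (Finset.abs_sum_le_sum_abs _ _).trans ?_
      have h1 : ∀ x ∈ (Finset.univ : Finset ι),
          |Real.log ‖ph ψ (sg σ (Ui x ^ ki t j x))‖| ≤ (ki t j x : ℝ) * L := by
        intro x _
        rw [map_pow, map_pow, norm_pow, Real.log_pow, abs_mul, Nat.abs_cast]
        exact mul_le_mul_of_nonneg_left (hL x σ) (Nat.cast_nonneg _)
      refine (Finset.sum_le_sum h1).trans ?_
      rw [← Finset.sum_mul, ← Nat.cast_sum, hki]
      calc (E t : ℝ) * L ≤ ((m1 + 1) * ρ * C * N t) * L := mul_le_mul_of_nonneg_right (hE t) hL0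
        _ = _ := by ring
    · intro x _
      rw [norm_ne_zero_iff]
      intro h
      exact pow_ne_zero _ (hUi0 x) (sg_inj σ (by rw [ph_inj ψ _ h, map_zero]))
  -- the coefficients
  choose β hβ0 hβ1 hβ2 using fun t => exists_den (a t)
  let c : ℕ → Fin (m1 + 1) → 𝓞 K := fun t j => ⟨(β t : K) * a t j, hβ2 t j⟩
  have hcK : ∀ t j, ((c t j : 𝓞 K) : K) = (β t : K) * a t j := fun t j => rfl
  have hβK : ∀ t, (β t : K) ≠ 0 := fun t => by exact_mod_cast hβ0 t
  have hfac : ∀ t (d : Fin (m1 + 1) → K), ∑ j, d j * ((c t j * uu U (k t) j : 𝓞 K) : K) =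
      ((β t : K) * (b : K) ^ E t) * ∑ j, d j * (a t j * ∏ v, g v ^ q t j v) := by
    intro t d
    rw [Finset.mul_sum]
    refine Finset.sum_congr rfl fun j _ => ?_
    rw [RingOfIntegers.coe_eq_algebraMap, map_mul, ← RingOfIntegers.coe_eq_algebraMap,
      ← RingOfIntegers.coe_eq_algebraMap, hcK, huuK]
    ring
  have hfac0 : ∀ t, (β t : K) * (b : K) ^ E t ≠ 0 := fun t => mul_ne_zero (hβK t)
    (pow_ne_zero _ hbK)
  obtain ⟨d, hd1, hd2⟩ := subK ψ cj hcj iK hi U (fun v => hUi0 (e v)) (L * ((m1 + 1) * ρ * C))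
    (by positivity) k c N hN hlog
    (by
      intro t
      have h1 : uu U (k t) ≠ 0 := by
        intro h
        exact uu_ne U (fun v => hUi0 (e v)) (k t) 0 (congrFun h 0)
      rw [← height_int ψ _ h1]
      have h2 : (fun j => ((uu U (k t) j : 𝓞 K) : K)) =
          ((b : K) ^ E t) • (fun j => ∏ v, g v ^ q t j v) := by
        funext j
        rw [huuK]
        rfl
      rw [h2, logHeight_smul_eq_logHeight _ (pow_ne_zero _ hbK)]
      exact hht t)
    (by
      intro δ hδ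
      have hm : (0 : ℝ) < m1 + 2 := by positivity
      filter_upwards [hsm (δ / (m1 + 2)) (by positivity)] with t ht j σ
      have h1 : ph ψ (sg σ (c t j)) = (β t : ℂ) * ψ (σ (a t j)) := by
        show ψ (σ ((c t j : 𝓞 K) : K)) = _
        rw [hcK, map_mul, map_mul, map_natCast, map_natCast]
      rw [h1, norm_mul, Complex.norm_natCast]
      have h2 : (β t : ℝ) ≤ Real.exp (∑ i, logHeight₁ (a t i)) := by
        rw [← Real.log_le_iff_le_exp (by exact_mod_cast Nat.pos_of_ne_zero (hβ0 t))]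
        exact hβ1 t
      have h3 : ‖ψ (σ (a t j))‖ ≤ Real.exp (logHeight₁ (a t j)) :=
        place_le_height (InfinitePlace.mk (ψ.comp (σ : K →+* K))) (a t j)
      have h4 : ∑ i, logHeight₁ (a t i) ≤ (m1 + 1) * (δ / (m1 + 2) * N t) := by
        refine (Finset.sum_le_sum fun i _ => ht i).trans ?_
        rw [Finset.sum_const, Finset.card_univ, Fintype.card_fin, nsmul_eq_mul]
        push_cast
        exact le_rfl
      calc (β t : ℝ) * ‖ψ (σ (a t j))‖ ≤
          Real.exp ((m1 + 1) * (δ / (m1 + 2) * N t)) * Real.exp (δ / (m1 + 2) * N t) := by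
            refine mul_le_mul (h2.trans (Real.exp_le_exp.2 h4))
              (h3.trans (Real.exp_le_exp.2 (ht j))) (norm_nonneg _) (Real.exp_pos _).le
        _ = Real.exp (δ * N t) := by
            rw [← Real.exp_add]
            congr 1
            field_simp
            ring)
    (by
      intro t
      have h1 := hfac t (fun _ => 1)
      simp only [one_mul] at h1
      rw [hsum t, mul_zero] at h1
      apply RingOfIntegers.ext
      rw [RingOfIntegers.coe_eq_algebraMap, map_sum]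
      exact h1.trans (map_zero (algebraMap (𝓞 K) K)).symm)
    (by
      intro t h
      apply hnz t
      funext j
      have h1 := congrArg (fun x : 𝓞 K => (x : K)) (congrFun h j)
      have h2 : (β t : K) * a t j = 0 := h1
      exact (mul_eq_zero.1 h2).resolve_left (hβK t))
  refine ⟨d, hd1, hd2.mono fun t ht => ?_⟩
  rw [hfac] at ht
  exact (mul_eq_zero.1 ht).resolve_left (hfac0 t)

end Pool.Agent.Y215.SK
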