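import Mathlib
import Pool.Agent.Y215.SK.Ht1

set_option autoImplicit false
set_option linter.unusedSectionVars false
set_option linter.unusedSimpArgs false

/-! # Germs of sequences of algebraic numbers, the field of negligible germs -/

namespace Pool.Agent.Y215.SK

open Filter
open Pool.Agent.Helper259.AbsHt

/-- the ultrafilter -/
noncomputable abbrev UU : Ultrafilter ℕ := hyperfilter ℕ

/-- germs of sequences of algebraic numbers -/
abbrev GQ := Germ (UU : Filter ℕ) Qbar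

/-- the germ of a sequence -/
noncomputable def gm (a : ℕ → Qbar) : GQ := (a : Germ (UU : Filter ℕ) Qbar)

lemma gm_eq {a b : ℕ → Qbar} : gm a = gm b ↔ ∀ᶠ n in (UU : Filter ℕ), a n = b n := Germ.coe_eq

lemma gm_add (a b : ℕ → Qbar) : gm a + gm b = gm (fun n => a n + b n) := rfl
lemma gm_sub (a b : ℕ → Qbar) : gm a - gm b = gm (fun n => a n - b n) := rfl
lemma gm_mul (a b : ℕ → Qbar) : gm a * gm b = gm (fun n => a n * b n) := rfl
lemma gm_div (a b : ℕ → Qbar) : gm a / gm b = gm (fun n => a n / b n) := rfl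
lemma gm_inv (a : ℕ → Qbar) : (gm a)⁻¹ = gm (fun n => (a n)⁻¹) := rfl
lemma gm_pow (a : ℕ → Qbar) (k : ℕ) : (gm a) ^ k = gm (fun n => a n ^ k) := rfl
lemma gm_zero : gm (fun _ => 0) = 0 := rfl
lemma gm_one : gm (fun _ => 1) = 1 := rfl
lemma gm_neg (a : ℕ → Qbar) : - gm a = gm (fun n => - a n) := rfl

lemma gm_surj (g : GQ) : ∃ a, gm a = g := by
  induction g using Germ.inductionOn with
  | _ f => exact ⟨f, rfl⟩

lemma gm_eq_zero {a : ℕ → Qbar} : gm a = 0 ↔ ∀ᶠ n in (UU : Filter ℕ), a n = 0 := by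
  rw [← gm_zero, gm_eq]

lemma gm_ne_zero {a : ℕ → Qbar} : gm a ≠ 0 ↔ ∀ᶠ n in (UU : Filter ℕ), a n ≠ 0 := by
  rw [Ne, gm_eq_zero]
  exact Ultrafilter.eventually_not.symm

lemma ev_of_atTop {p : ℕ → Prop} (h : ∀ᶠ n in atTop, p n) : ∀ᶠ n in (UU : Filter ℕ), p n :=
  Nat.hyperfilter_le_atTop h

lemma gm_sum {ι : Type} (s : Finset ι) (a : ι → ℕ → Qbar) :
    ∑ i ∈ s, gm (a i) = gm (fun n => ∑ i ∈ s, a i n) := by
  classical
  induction s using Finset.induction_on with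
  | empty => simp [← gm_zero]
  | insert i s hi ih =>
    rw [Finset.sum_insert hi, ih, gm_add]
    congr 1
    funext n
    rw [Finset.sum_insert hi]

lemma gm_prod {ι : Type} (s : Finset ι) (a : ι → ℕ → Qbar) :
    ∏ i ∈ s, gm (a i) = gm (fun n => ∏ i ∈ s, a i n) := by
  classical
  induction s using Finset.induction_on with
  | empty => simp [← gm_one]
  | insert i s hi ih =>
    rw [Finset.prod_insert hi, ih, gm_mul]
    congr 1
    funext n
    rw [Finset.prod_insert hi]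

/-- the constants -/
noncomputable def cst : Qbar →+* GQ where
  toFun a := gm fun _ => a
  map_one' := rfl
  map_mul' _ _ := rfl
  map_zero' := rfl
  map_add' _ _ := rfl

/-- negligible germs -/
def Neg (L : ℕ → ℝ) (x : GQ) : Prop :=
  ∃ a : ℕ → Qbar, gm a = x ∧ ∀ ε : ℝ, 0 < ε → ∀ᶠ n in (UU : Filter ℕ), h1 (a n) ≤ ε * L n

lemma neg_gm {L : ℕ → ℝ} (a : ℕ → Qbar) :
    Neg L (gm a) ↔ ∀ ε : ℝ, 0 < ε → ∀ᶠ n in (UU : Filter ℕ), h1 (a n) ≤ ε * L n := by
  constructor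
  · rintro ⟨b, hb, hb2⟩ ε hε
    filter_upwards [hb2 ε hε, gm_eq.1 hb] with n h1 h2
    rwa [← h2]
  · exact fun h => ⟨a, rfl, h⟩

/-- the field of the negligible germs -/
def KK (L : ℕ → ℝ) (hL : Tendsto L atTop atTop) : Subfield GQ where
  carrier := {x | Neg L x}
  mul_mem' := by
    rintro _ _ ⟨a, rfl, ha⟩ ⟨b, rfl, hb⟩
    rw [gm_mul]
    refine (neg_gm _).2 fun ε hε => ?_
    filter_upwards [ha (ε / 2) (by positivity), hb (ε / 2) (by positivity)] with n h1 h2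
    exact (h1_mul_le _ _).trans (by linarith)
  one_mem' := by
    refine ⟨fun _ => 1, rfl, fun ε hε => ?_⟩
    filter_upwards [ev_of_atTop (hL.eventually_ge_atTop 0)] with n hn
    rw [h1_one]
    positivity
  add_mem' := by
    rintro _ _ ⟨a, rfl, ha⟩ ⟨b, rfl, hb⟩
    rw [gm_add]
    refine (neg_gm _).2 fun ε hε => ?_
    filter_upwards [ha (ε / 3) (by positivity), hb (ε / 3) (by positivity),
      ev_of_atTop (hL.eventually_ge_atTop (3 / ε * Real.log 2))] with n h1 h2 h3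
    refine (h1_add_le _ _).trans ?_
    have h4 : Real.log 2 ≤ ε / 3 * L n := by
      calc Real.log 2 = ε / 3 * (3 / ε * Real.log 2) := by field_simp
        _ ≤ _ := mul_le_mul_of_nonneg_left h3 (by positivity)
    linarith
  zero_mem' := by
    refine ⟨fun _ => 0, rfl, fun ε hε => ?_⟩
    filter_upwards [ev_of_atTop (hL.eventually_ge_atTop 0)] with n hn
    rw [h1_zero]
    positivity
  neg_mem' := by
    rintro _ ⟨a, rfl, ha⟩
    rw [gm_neg]
    refine (neg_gm _).2 fun ε hε => ?_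
    filter_upwards [ha ε hε] with n h1
    rwa [h1_neg]
  inv_mem' := by
    rintro _ ⟨a, rfl, ha⟩
    rw [gm_inv]
    refine (neg_gm _).2 fun ε hε => ?_
    filter_upwards [ha ε hε] with n h1
    rwa [h1_inv]

lemma mem_KK {L : ℕ → ℝ} {hL : Tendsto L atTop atTop} (a : ℕ → Qbar) :
    gm a ∈ KK L hL ↔ ∀ ε : ℝ, 0 < ε → ∀ᶠ n in (UU : Filter ℕ), h1 (a n) ≤ ε * L n := neg_gm a

lemma mem_KK_of_le {L : ℕ → ℝ} {hL : Tendsto L atTop atTop} (a : ℕ → Qbar) (C : ℝ)
    (h : ∀ᶠ n in (UU : Filter ℕ), h1 (a n) ≤ C) : gm a ∈ KK L hL := by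
  rw [mem_KK]
  intro ε hε
  filter_upwards [h, ev_of_atTop (hL.eventually_ge_atTop (C / ε))] with n h1 h2
  rw [div_le_iff₀ hε] at h2
  linarith

lemma cst_mem {L : ℕ → ℝ} {hL : Tendsto L atTop atTop} (a : Qbar) : cst a ∈ KK L hL :=
  mem_KK_of_le _ (h1 a) (Filter.Eventually.of_forall fun _ => le_rfl)

/-- roots of negligible germs are negligible -/
lemma mem_of_pow {L : ℕ → ℝ} {hL : Tendsto L atTop atTop} (x : GQ) (E : ℕ) (hE : 1 ≤ E)
    (h : x ^ E ∈ KK L hL) : x ∈ KK L hL := by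
  obtain ⟨a, rfl⟩ := gm_surj x
  rw [gm_pow, mem_KK] at h
  rw [mem_KK]
  intro ε hε
  filter_upwards [h ε hε] with n hn
  rw [h1_pow] at hn
  have h2 : (1 : ℝ) ≤ E := by exact_mod_cast hE
  nlinarith [h1_nonneg (a n)]

end Pool.Agent.Y215.SK
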