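import Mathlib
import Pool.Agent.Y215.SK.Ht1

set_option autoImplicit false
set_option linter.unusedSectionVars false
set_option linter.unusedSimpArgs false

/-! # Heights of the elements of a finitely generated group: lower bound by the exponents -/

namespace Pool.Agent.Y215.SK

open Finset NumberField Height Module
open Pool.Agent.Helper259.AbsHt

/-- monomials with integer exponents -/
def mo {ρ : ℕ} {F : Type} [Field F] (g : Fin ρ → F) (q : Fin ρ → ℤ) : F := ∏ v, g v ^ q v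

section mo

variable {ρ : ℕ} {F : Type} [Field F] (g : Fin ρ → F)

lemma mo_ne (hg : ∀ v, g v ≠ 0) (q : Fin ρ → ℤ) : mo g q ≠ 0 :=
  Finset.prod_ne_zero_iff.2 fun v _ => zpow_ne_zero _ (hg v)

lemma mo_add (hg : ∀ v, g v ≠ 0) (p q : Fin ρ → ℤ) : mo g (p + q) = mo g p * mo g q := by
  unfold mo
  rw [← Finset.prod_mul_distrib]
  exact Finset.prod_congr rfl fun v _ => zpow_add₀ (hg v) _ _

lemma mo_sub (hg : ∀ v, g v ≠ 0) (p q : Fin ρ → ℤ) : mo g (p - q) = mo g p / mo g q := by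
  unfold mo
  rw [← Finset.prod_div_distrib]
  exact Finset.prod_congr rfl fun v _ => zpow_sub₀ (hg v) _ _

lemma mo_zsmul (k : ℤ) (q : Fin ρ → ℤ) : mo g (k • q) = mo g q ^ k := by
  unfold mo
  rw [← Finset.prod_zpow]
  refine Finset.prod_congr rfl fun v _ => ?_
  rw [Pi.smul_apply, smul_eq_mul, mul_comm, zpow_mul]

lemma mo_zero : mo g 0 = 1 := by
  unfold mo
  simp

lemma map_mo {E : Type} [Field E] (f : F →+* E) (q : Fin ρ → ℤ) :
    f (mo g q) = mo (fun v => f (g v)) q := by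
  unfold mo
  rw [map_prod]
  exact Finset.prod_congr rfl fun v _ => map_zpow₀ f _ _

end mo

theorem h_sum_le {ρ : ℕ} (h : (Fin ρ → ℤ) → ℝ) (h0 : h 0 = 0)
    (hadd : ∀ p q, h (p + q) ≤ h p + h q) {ι : Type} (s : Finset ι) (f : ι → Fin ρ → ℤ) :
    h (∑ i ∈ s, f i) ≤ ∑ i ∈ s, h (f i) := by
  classical
  induction s using Finset.induction_on with
  | empty => simp [h0]
  | insert i s hi ih =>
    rw [Finset.sum_insert hi, Finset.sum_insert hi]
    exact (hadd _ _).trans (by linarith)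

theorem low_abstract {ρ : ℕ} (h : (Fin ρ → ℤ) → ℝ) (h0 : ∀ q, 0 ≤ h q)
    (hs : ∀ (k : ℤ) q, h (k • q) = |(k : ℝ)| * h q) (hadd : ∀ p q, h (p + q) ≤ h p + h q)
    (hfin : ∀ B : ℝ, {q | h q ≤ B}.Finite) :
    ∃ C : ℝ, 0 < C ∧ ∀ q v, |(q v : ℝ)| ≤ C * h q := by
  classical
  have hzero : h 0 = 0 := by
    have := hs 0 0
    simpa using this
  obtain ⟨e, he⟩ : ∃ e : ℝ, e = ∑ v : Fin ρ, h (Pi.single v 1) := ⟨_, rfl⟩
  have he0 : 0 ≤ e := by
    rw [he]
    exact Finset.sum_nonneg fun _ _ => h0 _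
  obtain ⟨R, hR⟩ : ∃ R : ℕ, ∀ q, h q ≤ 1 + e → ∀ v, |q v| ≤ R := by
    have hf := hfin (1 + e)
    refine ⟨∑ q ∈ hf.toFinset, ∑ v, (q v).natAbs, fun q hq v => ?_⟩
    have h1 : q ∈ hf.toFinset := by simpa using hq
    have h2 : (q v).natAbs ≤ ∑ v, (q v).natAbs :=
      Finset.single_le_sum (f := fun v => (q v).natAbs) (fun _ _ => Nat.zero_le _)
        (Finset.mem_univ v)
    have h3 : ∑ v, (q v).natAbs ≤ ∑ q ∈ hf.toFinset, ∑ v, (q v).natAbs :=
      Finset.single_le_sum (f := fun q : Fin ρ → ℤ => ∑ v, (q v).natAbs)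
        (fun _ _ => Nat.zero_le _) h1
    rw [Int.abs_eq_natAbs]
    exact_mod_cast h2.trans h3
  refine ⟨R + 1, by positivity, fun q v0 => ?_⟩
  -- the maximal coordinate
  obtain ⟨v1, -, hv1⟩ := Finset.exists_max_image Finset.univ (fun v => |q v|) ⟨v0, Finset.mem_univ _⟩
  refine le_trans (b := |(q v1 : ℝ)|) (by
    have := hv1 v0 (Finset.mem_univ _)
    exact_mod_cast this) ?_
  by_cases hq1 : q v1 = 0
  · rw [hq1, Int.cast_zero, abs_zero]
    exact mul_nonneg (by positivity) (h0 q)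
  obtain ⟨T, hT⟩ : ∃ T : ℤ, T = |q v1| := ⟨_, rfl⟩
  have hTpos : 0 < T := by
    rw [hT]
    exact abs_pos.2 hq1
  have hTR : (0 : ℝ) < T := by exact_mod_cast hTpos
  let p : Fin ρ → ℤ := fun v => ((R + 1 : ℤ) * q v) / T
  let r : Fin ρ → ℤ := fun v => -(((R + 1 : ℤ) * q v) % T)
  have hr : ∀ v, |(r v : ℝ)| ≤ T := by
    intro v
    have h1 := Int.emod_nonneg ((R + 1 : ℤ) * q v) hTpos.ne'
    have h2 := Int.emod_lt_of_pos ((R + 1 : ℤ) * q v) hTpos
    have h3 : |r v| ≤ T := by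
      show |-(((R + 1 : ℤ) * q v) % T)| ≤ T
      rw [abs_neg, abs_of_nonneg h1]
      exact h2.le
    exact_mod_cast h3
  have hdec : T • p = (R + 1 : ℤ) • q + ∑ v, r v • (Pi.single v (1 : ℤ) : Fin ρ → ℤ) := by
    funext w
    simp only [Pi.smul_apply, Pi.add_apply, Finset.sum_apply, smul_eq_mul, Pi.single_apply,
      mul_ite, mul_one, mul_zero, Finset.sum_ite_eq, Finset.mem_univ, if_true]
    have h1 := Int.mul_ediv_add_emod ((R + 1 : ℤ) * q w) T
    show T * (((R + 1 : ℤ) * q w) / T) = (R + 1 : ℤ) * q w + -(((R + 1 : ℤ) * q w) % T)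
    linarith
  have hp : ¬ h p ≤ 1 + e := by
    intro hle
    have h1 := hR p hle v1
    have h2 : |p v1| = R + 1 := by
      show |((R + 1 : ℤ) * q v1) / T| = R + 1
      rcases abs_choice (q v1) with h | h
      · have h3 : q v1 = T := by rw [hT, h]
        rw [h3, Int.mul_ediv_cancel _ hTpos.ne']
        exact abs_of_nonneg (by positivity)
      · have h3 : q v1 = -T := by rw [hT, h]; ring
        have h4 : (R + 1 : ℤ) * q v1 = (-(R + 1 : ℤ)) * T := by rw [h3]; ring
        rw [h4, Int.mul_ediv_cancel _ hTpos.ne', abs_neg]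
        exact abs_of_nonneg (by positivity)
    omega
  have h3 : (T : ℝ) * h p ≤ (R + 1) * h q + T * e := by
    calc (T : ℝ) * h p = h (T • p) := by
          rw [hs, abs_of_pos hTR]
      _ ≤ h ((R + 1 : ℤ) • q) + h (∑ v, r v • (Pi.single v (1 : ℤ) : Fin ρ → ℤ)) := by
          rw [hdec]
          exact hadd _ _
      _ ≤ (R + 1) * h q + ∑ v, h (r v • (Pi.single v (1 : ℤ) : Fin ρ → ℤ)) := by
          refine add_le_add (le_of_eq ?_) (h_sum_le h hzero hadd _ _)
          rw [hs, abs_of_pos (by positivity)]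
          push_cast
          rfl
      _ ≤ (R + 1) * h q + T * e := by
          refine add_le_add le_rfl ?_
          rw [he, Finset.mul_sum]
          refine Finset.sum_le_sum fun v _ => ?_
          rw [hs]
          exact mul_le_mul_of_nonneg_right (hr v) (h0 _)
  push Not at hp
  have h4 : (T : ℝ) * (1 + e) ≤ T * h p := mul_le_mul_of_nonneg_left hp.le hTR.le
  have h5 : (T : ℝ) = |(q v1 : ℝ)| := by
    rw [hT]
    push_cast
    rfl
  rw [← h5]
  linarith

/-- the exponents are bounded by the height -/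
theorem low (K : IntermediateField ℚ Qbar) [NumberField K] {ρ : ℕ} (g : Fin ρ → K)
    (hg : ∀ v, g v ≠ 0) (hind : ∀ q : Fin ρ → ℤ, mo g q = 1 → q = 0) :
    ∃ C : ℝ, 0 < C ∧ ∀ (q : Fin ρ → ℤ) (v : Fin ρ), |(q v : ℝ)| ≤ C * h1 (mo g q : K) := by
  refine low_abstract (fun q => h1 (mo g q : K)) (fun q => h1_nonneg _) ?_ ?_ ?_
  · intro k q
    have e : ((mo g (k • q) : K) : Qbar) = ((mo g q : K) : Qbar) ^ k := by
      rw [mo_zsmul]
      exact map_zpow₀ (algebraMap K Qbar) _ _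
    show h1 ((mo g (k • q) : K) : Qbar) = _
    rw [e, h1_zpow]
  · intro p q
    have e : ((mo g (p + q) : K) : Qbar) = ((mo g p : K) : Qbar) * ((mo g q : K) : Qbar) := by
      rw [mo_add g hg]
      exact map_mul (algebraMap K Qbar) _ _
    show h1 ((mo g (p + q) : K) : Qbar) ≤ _
    rw [e]
    exact h1_mul_le _ _
  · intro B
    have hN := Northcott.finite_le (h := fun x : K => logHeight₁ x) (B * finrank ℚ K)
    have hinj : Function.Injective (fun q : Fin ρ → ℤ => mo g q) := by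
      intro p q hpq
      have h1 : mo g (p - q) = 1 := by
        rw [mo_sub g hg]
        have : mo g p = mo g q := hpq
        rw [this, div_self (mo_ne g hg q)]
      exact sub_eq_zero.1 (hind _ h1)
    refine (hN.preimage (f := fun q : Fin ρ → ℤ => mo g q) hinj.injOn).subset fun q hq => ?_
    have h2 : h1 ((mo g q : K) : Qbar) ≤ B := hq
    rw [h1_val, div_le_iff₀ (finrank_pos' K)] at h2
    exact h2

end Pool.Agent.Y215.SK
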