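import Mathlib
import Pool.Agent.Y215.SK.Low
import Pool.Agent.Y215.SK.Gam
import Pool.Agent.Y215.SK.Germ
import Pool.Agent.Y215.SK.Desc

set_option autoImplicit false
set_option linter.unusedSectionVars false
set_option linter.unusedSimpArgs false

/-! # Linear independence of germs in a finitely generated group over the negligible germs -/

namespace Pool.Agent.Y215.SK

open Finset NumberField Height Module Filter
open Pool.Agent.Helper259.AbsHt

theorem exists_psi (K : IntermediateField ℚ Qbar) [NumberField K] [IsGalois ℚ K]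
    (hi : ∃ z : K, z ^ 2 = -1) :
    ∃ (ψ : K →+* ℂ) (cj : K ≃ₐ[ℚ] K), (∀ x, ψ (cj x) = (starRingEnd ℂ) (ψ x)) ∧
      ∃ iK : 𝓞 K, ψ (iK : K) = Complex.I := by
  obtain ⟨ψ⟩ : Nonempty (K →+* ℂ) := inferInstance
  obtain ⟨σ, hσ⟩ := NumberField.ComplexEmbedding.exists_comp_symm_eq_of_comp_eq (k := ℚ) ψ
    ((starRingEnd ℂ).comp ψ) (Subsingleton.elim _ _)
  refine ⟨ψ, σ.symm, fun x => ?_, ?_⟩
  · have := RingHom.congr_fun hσ x
    simpa using this
  · obtain ⟨z, hz⟩ := hi
    have hint : IsIntegral ℤ z := by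
      refine ⟨Polynomial.X ^ 2 + 1, ?_, ?_⟩
      · monicity!
      · simp [hz]
    have h1 : (ψ z - Complex.I) * (ψ z + Complex.I) = 0 := by
      have h2 : ψ z ^ 2 = -1 := by rw [← map_pow, hz, map_neg, map_one]
      calc (ψ z - Complex.I) * (ψ z + Complex.I) = ψ z ^ 2 - Complex.I ^ 2 := by ring
        _ = 0 := by rw [h2, Complex.I_sq, sub_self]
    rcases mul_eq_zero.1 h1 with h | h
    · exact ⟨⟨z, hint⟩, sub_eq_zero.1 h⟩
    · refine ⟨⟨-z, hint.neg⟩, ?_⟩
      show ψ (-z) = _
      rw [map_neg, eq_neg_of_add_eq_zero_left h, neg_neg]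

/-- a relation survives for a nonconstant multiplier -/
theorem exists_mult (K : IntermediateField ℚ Qbar) [NumberField K] [IsGalois ℚ K]
    (hi : ∃ z : K, z ^ 2 = -1) {ρ : ℕ} (g : Fin ρ → K) (hg : ∀ v, g v ≠ 0) (C : ℝ) (hC : 0 < C)
    (hlow : ∀ (q : Fin ρ → ℤ) (v : Fin ρ), |(q v : ℝ)| ≤ C * h1 (mo g q : K))
    (L : ℕ → ℝ) (hL : Tendsto L atTop atTop) {m1 : ℕ} (q : ℕ → Fin (m1 + 1) → Fin ρ → ℤ)
    (i0 : Fin (m1 + 1))
    (hrat : gm (fun n => ((mo g (q n i0) : K) : Qbar)) /
      gm (fun n => ((mo g (q n (Fin.last m1)) : K) : Qbar)) ∉ KK L hL)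
    (a : ℕ → Fin (m1 + 1) → K) (ha : ∀ j, gm (fun n => (a n j : Qbar)) ∈ KK L hL)
    (hsum : ∀ᶠ n in (UU : Filter ℕ), ∑ j, a n j * mo g (q n j) = 0)
    (hnz : ∀ᶠ n in (UU : Filter ℕ), a n ≠ 0) :
    ∃ d : Fin (m1 + 1) → K, (∃ i, d i ≠ d (Fin.last m1)) ∧
      ∀ᶠ n in (UU : Filter ℕ), ∑ j, d j * (a n j * mo g (q n j)) = 0 := by
  classical
  by_contra hcon
  have hcon : ∀ d : Fin (m1 + 1) → K, (∃ i, d i ≠ d (Fin.last m1)) →
      ¬ ∀ᶠ n in (UU : Filter ℕ), ∑ j, d j * (a n j * mo g (q n j)) = 0 :=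
    fun d hd h => hcon ⟨d, hd, h⟩
  obtain ⟨ψ, cj, hcj, iK, hiK⟩ := exists_psi K hi
  have hfin := finrank_pos' K
  obtain ⟨D, hD⟩ : ∃ D : ℝ, D = (finrank ℚ K : ℝ) := ⟨_, rfl⟩
  rw [← hD] at hfin
  -- the height is large
  rw [gm_div, mem_KK] at hrat
  rw [not_forall] at hrat
  obtain ⟨ε0, hrat⟩ := hrat
  rw [Classical.not_imp] at hrat
  obtain ⟨hε0, hlarge⟩ := hrat
  have hlarge : ∀ᶠ n in (UU : Filter ℕ), ε0 * L n <
      h1 (((mo g (q n i0) : K) : Qbar) / ((mo g (q n (Fin.last m1)) : K) : Qbar)) := by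
    have h2 := Ultrafilter.eventually_not.2 hlarge
    filter_upwards [h2] with n hn
    exact not_le.1 hn
  -- enumeration
  have hcount : Countable K := by
    exact Finsupp.Countable.of_moduleFinite (R := ℚ)
  have : Countable {d : Fin (m1 + 1) → K // ∃ i, d i ≠ d (Fin.last m1)} := inferInstance
  have hne : Nonempty {d : Fin (m1 + 1) → K // ∃ i, d i ≠ d (Fin.last m1)} := by
    have hi0 : i0 ≠ Fin.last m1 := by
      rintro rfl
      obtain ⟨n, hn1, hn2⟩ := (hlarge.and (ev_of_atTop (hL.eventually_ge_atTop 0))).exists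
      have h3 : ((mo g (q n (Fin.last m1)) : K) : Qbar) ≠ 0 := by
        intro h
        exact mo_ne g hg _ (Subtype.ext h)
      rw [div_self h3, h1_one] at hn1
      nlinarith
    refine ⟨⟨Pi.single i0 1, i0, ?_⟩⟩
    rw [Pi.single_eq_same, Pi.single_eq_of_ne (Ne.symm hi0)]
    exact one_ne_zero
  obtain ⟨en, hen⟩ := exists_surjective_nat {d : Fin (m1 + 1) → K // ∃ i, d i ≠ d (Fin.last m1)}
  -- the choice
  have hchoice : ∀ t : ℕ, ∃ n : ℕ, t ≤ n ∧ (∑ j, a n j * mo g (q n j) = 0) ∧ a n ≠ 0 ∧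
      ε0 * L n < h1 (((mo g (q n i0) : K) : Qbar) / ((mo g (q n (Fin.last m1)) : K) : Qbar)) ∧
      (∀ j, h1 (a n j : Qbar) ≤ 1 / (t + 1) * L n) ∧
      ∀ k ≤ t, ∑ j, (en k).1 j * (a n j * mo g (q n j)) ≠ 0 := by
    intro t
    have e1 : ∀ᶠ n in (UU : Filter ℕ), ∀ j, h1 (a n j : Qbar) ≤ 1 / (t + 1) * L n := by
      rw [Filter.eventually_all]
      intro j
      exact (mem_KK _).1 (ha j) _ (by positivity)
    have e2 : ∀ᶠ n in (UU : Filter ℕ), ∀ k ∈ Finset.range (t + 1),
        ∑ j, (en k).1 j * (a n j * mo g (q n j)) ≠ 0 := by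
      rw [Filter.eventually_all_finset]
      intro k _
      exact Ultrafilter.eventually_not.2 (hcon (en k).1 (en k).2)
    obtain ⟨n, h1, h2, h3, h4, h5, h6⟩ := ((ev_of_atTop (Filter.eventually_ge_atTop t)).and
      (hsum.and (hnz.and (hlarge.and (e1.and e2))))).exists
    exact ⟨n, h1, h2, h3, h4, h5, fun k hk => h6 k (Finset.mem_range.2 (by omega))⟩
  choose nn hn1 hn2 hn3 hn4 hn5 hn6 using hchoice
  have hnn : Tendsto nn atTop atTop := tendsto_atTop_mono hn1 tendsto_id
  -- the normalized exponents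
  let q' : ℕ → Fin (m1 + 1) → Fin ρ → ℤ := fun t j => q (nn t) j - q (nn t) (Fin.last m1)
  let N : ℕ → ℝ := fun t => logHeight (fun j => mo g (q' t j))
  have hy0 : ∀ t, (fun j => mo g (q' t j)) ≠ 0 := by
    intro t h
    exact mo_ne g hg _ (congrFun h 0)
  have hlast : ∀ t, mo g (q' t (Fin.last m1)) = 1 := by
    intro t
    show mo g (q (nn t) (Fin.last m1) - q (nn t) (Fin.last m1)) = 1
    rw [sub_self, mo_zero]
  have hNle : ∀ t j, D * h1 (mo g (q' t j) : K) ≤ N t := by
    intro t j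
    rw [h1_val, ← hD]
    have h2 : logHeight₁ (mo g (q' t j)) ≤ N t := by
      rw [logHeight₁_eq_logHeight]
      have e : ![mo g (q' t j), 1] = (fun j => mo g (q' t j)) ∘ ![j, Fin.last m1] := by
        funext k
        fin_cases k
        · rfl
        · simp [hlast]
      rw [e]
      exact logHeight_comp_le _ _
    rw [mul_div_cancel₀ _ hfin.ne']
    exact h2
  have hNL : ∀ t, D * ε0 * L (nn t) ≤ N t := by
    intro t
    have h2 := hNle t i0
    have h3 : ((mo g (q' t i0) : K) : Qbar) =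
        ((mo g (q (nn t) i0) : K) : Qbar) / ((mo g (q (nn t) (Fin.last m1)) : K) : Qbar) := by
      show algebraMap K Qbar (mo g (q (nn t) i0 - q (nn t) (Fin.last m1))) = _
      rw [mo_sub g hg, map_div₀]
      rfl
    rw [h3] at h2
    have h4 := mul_le_mul_of_nonneg_left (hn4 t).le hfin.le
    linarith
  have hNt : Tendsto N atTop atTop := by
    refine tendsto_atTop_mono hNL ?_
    exact (hL.comp hnn).const_mul_atTop (by positivity)
  obtain ⟨d, hd1, hd2⟩ := subG ψ cj hcj iK hiK g hg (C / D) (by positivity) q'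
    (fun t => a (nn t)) N hNt
    (by
      intro t j v
      refine (hlow (q' t j) v).trans ?_
      rw [div_mul_eq_mul_div, le_div_iff₀ hfin]
      have h2 := mul_le_mul_of_nonneg_left (hNle t j) hC.le
      linarith)
    (fun t => le_rfl)
    (by
      intro δ hδ
      have hc : 0 < δ * ε0 := by positivity
      filter_upwards [Filter.eventually_ge_atTop ⌈1 / (δ * ε0)⌉₊,
        (hL.comp hnn).eventually_ge_atTop 0] with t ht hLt j
      have h2 := hn5 t j
      rw [h1_val, ← hD, div_le_iff₀ hfin] at h2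
      have h3 : 1 / ((t : ℝ) + 1) ≤ δ * ε0 := by
        rw [div_le_iff₀ (by positivity)]
        have h4 : 1 / (δ * ε0) ≤ t := (Nat.le_ceil _).trans (by exact_mod_cast ht)
        rw [div_le_iff₀ hc] at h4
        nlinarith
      have h5 : 0 ≤ L (nn t) := hLt
      calc logHeight₁ (a (nn t) j) ≤ 1 / ((t : ℝ) + 1) * L (nn t) * D := h2
        _ ≤ (δ * ε0) * L (nn t) * D := by gcongr
        _ = δ * (D * ε0 * L (nn t)) := by ring
        _ ≤ δ * N t := mul_le_mul_of_nonneg_left (hNL t) hδ.le)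
    (by
      intro t
      have h2 : ∀ j, a (nn t) j * ∏ v, g v ^ q' t j v =
          (mo g (q (nn t) (Fin.last m1)))⁻¹ * (a (nn t) j * mo g (q (nn t) j)) := by
        intro j
        show a (nn t) j * mo g (q (nn t) j - q (nn t) (Fin.last m1)) = _
        rw [mo_sub g hg]
        field_simp
      simp_rw [h2]
      rw [← Finset.mul_sum, hn2, mul_zero])
    (fun t => hn3 t)
  obtain ⟨k, hk⟩ := hen ⟨d, hd1⟩
  obtain ⟨t, ht1, ht2⟩ := (hd2.and_eventually (Filter.eventually_ge_atTop k)).exists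
  apply hn6 t k ht2
  rw [hk]
  have h2 : ∀ j, d j * (a (nn t) j * mo g (q (nn t) j)) =
      mo g (q (nn t) (Fin.last m1)) * (d j * (a (nn t) j * ∏ v, g v ^ q' t j v)) := by
    intro j
    show _ = mo g (q (nn t) (Fin.last m1)) * (d j * (a (nn t) j *
      mo g (q (nn t) j - q (nn t) (Fin.last m1))))
    rw [mo_sub g hg]
    have := mo_ne g hg (q (nn t) (Fin.last m1))
    field_simp
  show ∑ j, d j * (a (nn t) j * mo g (q (nn t) j)) = 0
  simp_rw [h2]
  rw [← Finset.mul_sum, ht1, mul_zero]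

/-- **Linear independence.** Germs of elements of a finitely generated group whose ratios are not
negligible are linearly independent over the field of negligible germs. -/
theorem sui (K : IntermediateField ℚ Qbar) [NumberField K] [IsGalois ℚ K]
    (hi : ∃ z : K, z ^ 2 = -1) {ρ : ℕ} (g : Fin ρ → K) (hg : ∀ v, g v ≠ 0) (C : ℝ) (hC : 0 < C)
    (hlow : ∀ (q : Fin ρ → ℤ) (v : Fin ρ), |(q v : ℝ)| ≤ C * h1 (mo g q : K))
    (L : ℕ → ℝ) (hL : Tendsto L atTop atTop) :
    ∀ (m : ℕ) (q : ℕ → Fin m → Fin ρ → ℤ),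
      (∀ i j, i ≠ j → gm (fun n => ((mo g (q n i) : K) : Qbar)) /
        gm (fun n => ((mo g (q n j) : K) : Qbar)) ∉ KK L hL) →
      ∀ c : Fin m → GQ, (∀ j, c j ∈ KK L hL) →
        ∑ j, c j * gm (fun n => ((mo g (q n j) : K) : Qbar)) = 0 → ∀ j, c j = 0 := by
  classical
  intro m
  induction m with
  | zero => exact fun _ _ _ _ _ j => j.elim0
  | succ m1 ih =>
    intro q hrat c hc hsum
    -- relations with a zero coefficient
    have hz : ∀ c : Fin (m1 + 1) → GQ, (∀ j, c j ∈ KK L hL) →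
        ∑ j, c j * gm (fun n => ((mo g (q n j) : K) : Qbar)) = 0 → (∃ i, c i = 0) →
        ∀ j, c j = 0 := by
      rintro c hc hsum ⟨i, hi0⟩ j
      rw [Fin.sum_univ_succAbove _ i, hi0, zero_mul, zero_add] at hsum
      have h2 := ih (fun n j => q n (i.succAbove j))
        (fun a b hab => hrat _ _ fun h => hab (Fin.succAbove_right_injective h))
        (fun j => c (i.succAbove j)) (fun j => hc _) hsum
      rcases eq_or_ne j i with rfl | hji
      · exact hi0
      · obtain ⟨j', rfl⟩ := Fin.exists_succAbove_eq hji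
        exact h2 j'
    by_contra hcon
    push Not at hcon
    obtain ⟨j0, hj0⟩ := hcon
    choose b hb using fun j => gm_surj (c j)
    have hb0 : ∀ᶠ n in (UU : Filter ℕ), (fun j => b j n) ≠ 0 := by
      rw [← hb j0, gm_ne_zero] at hj0
      filter_upwards [hj0] with n hn h
      exact hn (congrFun h j0)
    have hbs : ∀ᶠ n in (UU : Filter ℕ), ∑ j, b j n * ((mo g (q n j) : K) : Qbar) = 0 := by
      simp_rw [← hb, gm_mul] at hsum
      rw [gm_sum, gm_eq_zero] at hsum
      exact hsum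
    have hdes : ∀ n, ∃ a : Fin (m1 + 1) → K, ((fun j => b j n) ≠ 0 ∧
        ∑ j, b j n * ((mo g (q n j) : K) : Qbar) = 0) → a ≠ 0 ∧ ∑ j, a j * mo g (q n j) = 0 ∧
        ∀ j, h1 (a j : Qbar) ≤ 5 ^ (m1 + 1) * (∑ j, h1 (b j n) + 1) := by
      intro n
      by_cases h : (fun j => b j n) ≠ 0 ∧ ∑ j, b j n * ((mo g (q n j) : K) : Qbar) = 0
      · obtain ⟨a, h1, h2, h3⟩ := descent K (fun j => mo g (q n j)) (m1 + 1) (fun j => b j n)
          (∑ j, h1 (b j n)) (Finset.sum_nonneg fun _ _ => h1_nonneg _) h.1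
          (by
            refine (Finset.card_le_univ _).trans ?_
            rw [Fintype.card_fin])
          (fun j => Finset.single_le_sum (f := fun j => Pool.Agent.Y215.SK.h1 (b j n))
            (fun _ _ => h1_nonneg _) (Finset.mem_univ j)) h.2
        exact ⟨a, fun _ => ⟨h1, h2, h3⟩⟩
      · exact ⟨0, fun h' => absurd h' h⟩
    choose a ha using hdes
    have hev : ∀ᶠ n in (UU : Filter ℕ), a n ≠ 0 ∧ ∑ j, a n j * mo g (q n j) = 0 ∧
        ∀ j, h1 (a n j : Qbar) ≤ 5 ^ (m1 + 1) * (∑ j, h1 (b j n) + 1) := by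
      filter_upwards [hb0, hbs] with n h1 h2
      exact ha n ⟨h1, h2⟩
    have haK : ∀ j, gm (fun n => (a n j : Qbar)) ∈ KK L hL := by
      intro j
      rw [mem_KK]
      intro ε hε
      obtain ⟨F, hF⟩ : ∃ F : ℝ, F = 5 ^ (m1 + 1) := ⟨_, rfl⟩
      have hF0 : 0 < F := by rw [hF]; positivity
      have hm : (0 : ℝ) < F * (m1 + 2) := by positivity
      have e1 : ∀ᶠ n in (UU : Filter ℕ), ∀ j, h1 (b j n) ≤ ε / (F * (m1 + 2)) * L n := by
        rw [Filter.eventually_all]
        intro j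
        have h2 := hc j
        rw [← hb j, mem_KK] at h2
        exact h2 _ (by positivity)
      filter_upwards [e1, hev, ev_of_atTop (hL.eventually_ge_atTop ((F * (m1 + 2)) / ε))]
        with n h2 h3 h4
      refine (h3.2.2 j).trans ?_
      rw [← hF]
      have h5 : ∑ j, h1 (b j n) ≤ (m1 + 1) * (ε / (F * (m1 + 2)) * L n) := by
        refine (Finset.sum_le_sum fun j _ => h2 j).trans ?_
        rw [Finset.sum_const, Finset.card_univ, Fintype.card_fin, nsmul_eq_mul]
        push_cast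
        exact le_rfl
      have h6 : 1 ≤ ε / (F * (m1 + 2)) * L n := by
        calc (1 : ℝ) = ε / (F * (m1 + 2)) * ((F * (m1 + 2)) / ε) := by field_simp
          _ ≤ _ := mul_le_mul_of_nonneg_left h4 (by positivity)
      calc F * (∑ j, h1 (b j n) + 1) ≤ F * ((m1 + 1) * (ε / (F * (m1 + 2)) * L n) +
            ε / (F * (m1 + 2)) * L n) := by gcongr
        _ = ε * L n := by field_simp; ring
    have has : ∑ j, gm (fun n => (a n j : Qbar)) * gm (fun n => ((mo g (q n j) : K) : Qbar)) =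
        0 := by
      simp_rw [gm_mul]
      rw [gm_sum, gm_eq_zero]
      filter_upwards [hev] with n hn
      have h2 := congrArg (algebraMap K Qbar) hn.2.1
      rw [map_sum, map_zero] at h2
      simp_rw [map_mul] at h2
      exact h2
    have hne : ¬ ∀ j, gm (fun n => (a n j : Qbar)) = 0 := by
      intro h
      have h2 : ∀ᶠ n in (UU : Filter ℕ), ∀ j, (a n j : Qbar) = 0 := by
        rw [Filter.eventually_all]
        exact fun j => gm_eq_zero.1 (h j)
      obtain ⟨n, hn1, hn2⟩ := (h2.and hev).exists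
      exact hn2.1 (funext fun j => Subtype.ext (hn1 j))
    have hall : ∀ j, gm (fun n => (a n j : Qbar)) ≠ 0 := fun j h =>
      hne (hz _ haK has ⟨j, h⟩)
    rcases Nat.eq_zero_or_pos m1 with hm | hm
    · subst hm
      rw [Fin.sum_univ_one] at has
      have h2 : gm (fun n => ((mo g (q n 0) : K) : Qbar)) ≠ 0 := by
        rw [gm_ne_zero]
        exact Filter.Eventually.of_forall fun n h => mo_ne g hg _ (Subtype.ext h)
      exact hall 0 ((mul_eq_zero.1 has).resolve_right h2)
    · obtain ⟨d, ⟨i, hdi⟩, hd⟩ := exists_mult K hi g hg C hC hlow L hL q 0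
        (hrat 0 (Fin.last m1) (by
          intro h
          have := congrArg Fin.val h
          simp at this
          omega)) a haK (hev.mono fun n h => h.2.1) (hev.mono fun n h => h.1)
      have h2 := hz (fun j => cst (((d j : K) : Qbar) - ((d (Fin.last m1) : K) : Qbar)) *
        gm (fun n => (a n j : Qbar)))
        (fun j => mul_mem (cst_mem _) (haK j))
        (by
          have h3 : ∀ j, cst (((d j : K) : Qbar) - ((d (Fin.last m1) : K) : Qbar)) *
              gm (fun n => (a n j : Qbar)) * gm (fun n => ((mo g (q n j) : K) : Qbar)) =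
              gm (fun n => (((d j * (a n j * mo g (q n j)) : K)) : Qbar)) -
              cst ((d (Fin.last m1) : K) : Qbar) *
                (gm (fun n => (a n j : Qbar)) * gm (fun n => ((mo g (q n j) : K) : Qbar))) := by
            intro j
            have h4 : gm (fun n => (((d j * (a n j * mo g (q n j)) : K)) : Qbar)) =
                cst ((d j : K) : Qbar) * (gm (fun n => (a n j : Qbar)) *
                  gm (fun n => ((mo g (q n j) : K) : Qbar))) := rfl
            rw [h4, map_sub]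
            ring
          simp_rw [h3]
          rw [Finset.sum_sub_distrib, ← Finset.mul_sum, has, mul_zero, sub_zero, gm_sum,
            gm_eq_zero]
          filter_upwards [hd] with n hn
          have h4 := congrArg (algebraMap K Qbar) hn
          rw [map_sum, map_zero] at h4
          exact h4)
        ⟨Fin.last m1, by rw [sub_self, map_zero, zero_mul]⟩ i
      rcases mul_eq_zero.1 h2 with h3 | h3
      · have h4 := (map_eq_zero_iff cst cst.injective).1 h3
        exact hdi (Subtype.ext (sub_eq_zero.1 h4))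
      · exact hall i h3

end Pool.Agent.Y215.SK
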