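import Mathlib
import Pool.Agent.Y215.SK.Sui
import Pool.Agent.Y215.SP.Core

set_option autoImplicit false
set_option linter.unusedSectionVars false
set_option linter.unusedSimpArgs false

/-! # Vanishing sums of germs: class sums, and points on varieties -/

namespace Pool.Agent.Y215.SK

open Finset NumberField Height Module Filter MvPolynomial
open Pool.Agent.Helper259.AbsHt Pool.Agent.H533R3.SL Pool.Agent.Y215.SP

/-- representatives -/
theorem exists_rep {A : Type} (R : A → A → Prop) (hR : Equivalence R) :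
    ∃ f : A → A, (∀ a b, f a = f b ↔ R a b) ∧ ∀ a, f (f a) = f a := by
  let S : Setoid A := ⟨R, hR⟩
  have h1 : ∀ a b : A, (Quotient.mk S a).out = (Quotient.mk S b).out ↔ R a b := by
    intro a b
    rw [Quotient.out_inj]
    exact Quotient.eq
  refine ⟨fun a => (Quotient.mk S a).out, h1, fun a => ?_⟩
  show (Quotient.mk S ((Quotient.mk S a).out)).out = (Quotient.mk S a).out
  rw [Quotient.out_eq]

/-- the data of a finitely generated group in a Galois number field -/
structure Grp (ρ : ℕ) where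
  K : IntermediateField ℚ Qbar
  nf : NumberField K
  gal : IsGalois ℚ K
  hi : ∃ z : K, z ^ 2 = -1
  g : Fin ρ → K
  hg : ∀ v, g v ≠ 0
  C : ℝ
  hC : 0 < C
  hlow : ∀ (q : Fin ρ → ℤ) (v : Fin ρ), |(q v : ℝ)| ≤ C * h1 (mo g q : K)

/-- germs of elements of the group -/
noncomputable def yy {ρ : ℕ} (D : Grp ρ) (q : ℕ → Fin ρ → ℤ) : GQ :=
  gm (fun n => ((mo D.g (q n) : D.K) : Qbar))

section

variable {ρ : ℕ} (D : Grp ρ) (L : ℕ → ℝ) (hL : Tendsto L atTop atTop)

lemma yy_ne (q : ℕ → Fin ρ → ℤ) : yy D q ≠ 0 := by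
  unfold yy
  rw [gm_ne_zero]
  exact Filter.Eventually.of_forall fun n h => mo_ne D.g D.hg _ (Subtype.ext h)

lemma yy_add (p q : ℕ → Fin ρ → ℤ) : yy D (fun n => p n + q n) = yy D p * yy D q := by
  unfold yy
  rw [gm_mul]
  congr 1
  funext n
  rw [mo_add D.g D.hg]
  exact map_mul (algebraMap D.K Qbar) _ _

lemma yy_smul (k : ℕ) (q : ℕ → Fin ρ → ℤ) : yy D (fun n => (k : ℤ) • q n) = yy D q ^ k := by
  unfold yy
  rw [gm_pow]
  congr 1
  funext n
  rw [mo_zsmul, zpow_natCast]
  exact map_pow (algebraMap D.K Qbar) _ _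

lemma yy_zero : yy D (fun _ => 0) = 1 := by
  unfold yy
  rw [← gm_one]
  congr 1
  funext n
  rw [mo_zero]
  exact map_one (algebraMap D.K Qbar)

lemma yy_sum {ι : Type} (s : Finset ι) (k : ι → ℕ) (q : ℕ → ι → Fin ρ → ℤ) :
    yy D (fun n => ∑ j ∈ s, (k j : ℤ) • q n j) = ∏ j ∈ s, yy D (fun n => q n j) ^ k j := by
  classical
  induction s using Finset.induction_on with
  | empty => simpa using yy_zero D
  | insert i s hi ih =>
    rw [Finset.prod_insert hi, ← ih, ← yy_smul, ← yy_add]
    congr 1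
    funext n
    rw [Finset.sum_insert hi]

/-- **class sums** -/
theorem class_sums {A : Type} [Fintype A] [DecidableEq A] (q : ℕ → A → Fin ρ → ℤ) (c : A → GQ)
    (hc : ∀ a, c a ∈ KK L hL) (hsum : ∑ a, c a * yy D (fun n => q n a) = 0) (f : A → A)
    (hf1 : ∀ a b, f a = f b ↔ yy D (fun n => q n a) / yy D (fun n => q n b) ∈ KK L hL)
    (hf2 : ∀ a, f (f a) = f a) (b : A) :
    ∑ a ∈ Finset.univ.filter (fun a => f a = b), c a * yy D (fun n => q n a) = 0 := by
  classical
  have := D.nf
  have := D.gal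
  obtain ⟨S, hS⟩ : ∃ S : Finset A, S = Finset.univ.image f := ⟨_, rfl⟩
  let e : Fin (Fintype.card S) ≃ S := (Fintype.equivFin S).symm
  have hfe : ∀ i, f (e i) = e i := by
    intro i
    have h1 : ((e i : S) : A) ∈ Finset.univ.image f := by
      rw [← hS]
      exact (e i).2
    obtain ⟨a, -, ha⟩ := Finset.mem_image.1 h1
    rw [← ha, hf2]
  have h0 := sui D.K D.hi D.g D.hg D.C D.hC D.hlow L hL (Fintype.card S)
    (fun n i => q n (e i)) (by
      intro i j hij h
      apply hij
      have h2 : f (e i) = f (e j) := (hf1 _ _).2 h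
      rw [hfe, hfe] at h2
      exact e.injective (Subtype.ext h2))
    (fun i => ∑ a ∈ Finset.univ.filter (fun a => f a = e i), c a *
      (yy D (fun n => q n a) / yy D (fun n => q n (e i))))
    (by
      intro i
      refine sum_mem fun a ha => mul_mem (hc a) ?_
      rw [← hf1, hfe]
      exact (Finset.mem_filter.1 ha).2)
    (by
      have h2 : ∀ i : Fin (Fintype.card S), (∑ a ∈ Finset.univ.filter (fun a => f a = e i), c a *
          (yy D (fun n => q n a) / yy D (fun n => q n (e i)))) *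
          gm (fun n => ((mo D.g (q n (e i)) : D.K) : Qbar)) =
          ∑ a ∈ Finset.univ.filter (fun a => f a = e i), c a * yy D (fun n => q n a) := by
        intro i
        rw [Finset.sum_mul]
        refine Finset.sum_congr rfl fun a _ => ?_
        have h3 := yy_ne D (fun n => q n (e i))
        show c a * (yy D (fun n => q n a) / yy D (fun n => q n (e i))) *
          yy D (fun n => q n (e i)) = _
        field_simp
      simp_rw [h2]
      rw [e.sum_comp (fun b : S => ∑ a ∈ Finset.univ.filter (fun a => f a = b),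
        c a * yy D (fun n => q n a))]
      rw [Finset.sum_coe_sort S (fun b => ∑ a ∈ Finset.univ.filter (fun a => f a = b),
        c a * yy D (fun n => q n a))]
      rw [Finset.sum_fiberwise_of_maps_to]
      · exact hsum
      · intro a _
        rw [hS]
        exact Finset.mem_image_of_mem _ (Finset.mem_univ a))
  by_cases hb : b ∈ S
  · have h1 := h0 (e.symm ⟨b, hb⟩)
    simp only [Equiv.apply_symm_apply] at h1
    have h3 := yy_ne D (fun n => q n b)
    have h2 : ∑ a ∈ Finset.univ.filter (fun a => f a = b), c a * yy D (fun n => q n a) =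
        (∑ a ∈ Finset.univ.filter (fun a => f a = b), c a *
          (yy D (fun n => q n a) / yy D (fun n => q n b))) * yy D (fun n => q n b) := by
      rw [Finset.sum_mul]
      refine Finset.sum_congr rfl fun a _ => ?_
      field_simp
    rw [h2, h1, zero_mul]
  · refine Finset.sum_eq_zero fun a ha => ?_
    exfalso
    apply hb
    rw [hS, ← (Finset.mem_filter.1 ha).2]
    exact Finset.mem_image_of_mem _ (Finset.mem_univ a)

end

/-! ### polynomials with coefficients in a subfield -/

section coef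

variable {k F : Type} [Field k] [Field F] [Algebra k F] {n r : ℕ}

theorem coef_mem (S : Subfield F) (hk : ∀ a : k, algebraMap k F a ∈ S)
    (V : Fin r → Fin (n + 1) → F) (hV : ∀ j i, V j i ∈ S) (p : MvPolynomial (Fin (n + 1)) k) :
    ∀ α, coeff α (GU V p) ∈ S := by
  classical
  have hX : ∀ (j : Fin r) α, coeff α (MvPolynomial.X j : MvPolynomial (Fin r) F) ∈ S := by
    intro j α
    rw [MvPolynomial.coeff_X]
    split_ifs
    · exact one_mem S
    · exact zero_mem S
  have hC : ∀ a ∈ S, ∀ α, coeff α (MvPolynomial.C a : MvPolynomial (Fin r) F) ∈ S := by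
    intro a ha α
    rw [MvPolynomial.coeff_C]
    split_ifs
    · exact ha
    · exact zero_mem S
  have hmul : ∀ p q : MvPolynomial (Fin r) F, (∀ α, coeff α p ∈ S) → (∀ α, coeff α q ∈ S) →
      ∀ α, coeff α (p * q) ∈ S := by
    intro p q hp hq α
    rw [MvPolynomial.coeff_mul]
    exact sum_mem fun x _ => mul_mem (hp _) (hq _)
  induction p using MvPolynomial.induction_on with
  | C a =>
    intro α
    unfold GU
    rw [MvPolynomial.aeval_C]
    exact hC _ (hk a) α
  | add p q hp hq =>
    intro α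
    have h1 : GU V (p + q) = GU V p + GU V q := by
      unfold GU
      rw [map_add]
    rw [h1, MvPolynomial.coeff_add]
    exact add_mem (hp α) (hq α)
  | mul_X p i hp =>
    have h1 : GU V (p * MvPolynomial.X i) = GU V p *
        ∑ j, MvPolynomial.C (V j i) * MvPolynomial.X j := by
      unfold GU
      rw [map_mul, MvPolynomial.aeval_X]
    rw [h1]
    refine hmul _ _ hp fun α => ?_
    rw [MvPolynomial.coeff_sum]
    exact sum_mem fun j _ => hmul _ _ (hC _ (hV j i)) (hX j) α

end coef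

/-- **Points on varieties.** -/
theorem point_block {k : Type} [Field k] [Algebra k GQ] {n N r ρ : ℕ}
    (P : Fin N → MvPolynomial (Fin (n + 1)) k) (hP : ∀ i, ∃ e, (P i).IsHomogeneous e)
    (G : MvPolynomial (Fin (n + 1)) k)
    (D : Grp ρ) (L : ℕ → ℝ) (hL : Tendsto L atTop atTop)
    (hk : ∀ a : k, algebraMap k GQ a ∈ KK L hL)
    (q : ℕ → Fin r → Fin ρ → ℤ) (s : Fin r → GQ) (hs : ∀ j, s j ∈ KK L hL)
    (hs0 : ∀ j, s j ≠ 0) (V : Fin r → Fin (n + 1) → GQ) (hV : ∀ j i, V j i ∈ KK L hL)
    (hG : ∀ (l : Fin r → ℕ),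
        (∀ i, MvPolynomial.aeval (cur (fun j a => (s j * yy D (fun n => q n j)) * V j a) l)
          (P i) = 0) →
        (∃ i i', cur (fun j a => (s j * yy D (fun n => q n j)) * V j a) l i *
            Polynomial.C (∑ j, (s j * yy D (fun n => q n j)) * V j i') ≠
          cur (fun j a => (s j * yy D (fun n => q n j)) * V j a) l i' *
            Polynomial.C (∑ j, (s j * yy D (fun n => q n j)) * V j i)) →
        MvPolynomial.aeval (fun a => ∑ j, (s j * yy D (fun n => q n j)) * V j a) G = 0)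
    (hz : ∀ i, aeval (fun a => ∑ j, (s j * yy D (fun n => q n j)) * V j a) (P i) = 0)
    (hGx : aeval (fun a => ∑ j, (s j * yy D (fun n => q n j)) * V j a) G ≠ 0)
    (hx : (fun a => ∑ j, (s j * yy D (fun n => q n j)) * V j a) ≠ 0) :
    ∃ (J : Finset (Fin r)) (j1 : Fin r),
      (∀ j ∈ J, (s j * yy D (fun n => q n j)) / (s j1 * yy D (fun n => q n j1)) ∈ KK L hL) ∧
      (∀ a b, (∑ j ∈ J, (s j * yy D (fun n => q n j)) * V j a) *
        (∑ j, (s j * yy D (fun n => q n j)) * V j b) =
        (∑ j ∈ J, (s j * yy D (fun n => q n j)) * V j b) *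
          (∑ j, (s j * yy D (fun n => q n j)) * V j a)) ∧
      ∃ a, (∑ j ∈ J, (s j * yy D (fun n => q n j)) * V j a) ≠ 0 := by
  classical
  obtain ⟨U, hU⟩ : ∃ U : Fin r → GQ, U = fun j => s j * yy D (fun n => q n j) := ⟨_, rfl⟩
  have hUj : ∀ j, s j * yy D (fun n => q n j) = U j := fun j => by rw [hU]
  simp only [hUj] at hz hGx hx hG ⊢
  have hU0 : ∀ j, U j ≠ 0 := fun j => by
    rw [← hUj]
    exact mul_ne_zero (hs0 j) (yy_ne D _)
  -- exponents
  let qq : ∀ i : Fin N, ℕ → Sp V (P i) → Fin ρ → ℤ := fun i n α =>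
    ∑ j, ((α : Fin r →₀ ℕ) j : ℤ) • q n j
  have hqq : ∀ i (α : Sp V (P i)), yy D (fun n => qq i n α) =
      ∏ j, yy D (fun n => q n j) ^ ((α : Fin r →₀ ℕ) j) := fun i α =>
    yy_sum D Finset.univ (fun j => (α : Fin r →₀ ℕ) j) q
  -- the classes
  have hrep : ∀ i : Fin N, ∃ f : Sp V (P i) → Sp V (P i),
      (∀ a b, f a = f b ↔ yy D (fun n => qq i n a) / yy D (fun n => qq i n b) ∈ KK L hL) ∧
      ∀ a, f (f a) = f a := by
    intro i
    refine exists_rep (fun a b => yy D (fun n => qq i n a) / yy D (fun n => qq i n b) ∈ KK L hL)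
      ⟨fun a => ?_, fun {a b} h => ?_, fun {a b c} h1 h2 => ?_⟩
    · show yy D (fun n => qq i n a) / yy D (fun n => qq i n a) ∈ KK L hL
      rw [div_self (yy_ne D _)]
      exact one_mem _
    · show yy D (fun n => qq i n b) / yy D (fun n => qq i n a) ∈ KK L hL
      have := inv_mem h
      rwa [inv_div] at this
    · show yy D (fun n => qq i n a) / yy D (fun n => qq i n c) ∈ KK L hL
      have := mul_mem h1 h2
      rwa [div_mul_div_cancel₀ (yy_ne D _)] at this
  choose f hf1 hf2 using hrep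
  -- class sums
  have hcls : ∀ i c, ∑ α ∈ Finset.univ.filter (fun α => f i α = c),
      coeff (α : Fin r →₀ ℕ) (GU V (P i)) * ∏ j, U j ^ ((α : Fin r →₀ ℕ) j) = 0 := by
    intro i c
    have hx2 : ∀ α : Sp V (P i), coeff (α : Fin r →₀ ℕ) (GU V (P i)) *
        ∏ j, U j ^ ((α : Fin r →₀ ℕ) j) =
        (coeff (α : Fin r →₀ ℕ) (GU V (P i)) * ∏ j, s j ^ ((α : Fin r →₀ ℕ) j)) *
          yy D (fun n => qq i n α) := by
      intro α
      rw [hqq, mul_assoc, ← Finset.prod_mul_distrib]
      congr 1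
      refine Finset.prod_congr rfl fun j _ => ?_
      rw [← hUj, mul_pow]
    simp_rw [hx2]
    refine class_sums D L hL (qq i) (fun α => coeff (α : Fin r →₀ ℕ) (GU V (P i)) *
      ∏ j, s j ^ ((α : Fin r →₀ ℕ) j)) (fun α => mul_mem (coef_mem _ hk V hV _ _)
      (prod_mem fun j _ => pow_mem (hs j) _)) ?_ (f i) (hf1 i) (hf2 i) c
    simp_rw [← hx2]
    have h1 := hz i
    have h2 : (fun a => ∑ j, U j * V j a) = fun a => ∑ j, algebraMap GQ GQ (V j a) * U j := by
      funext a
      refine Finset.sum_congr rfl fun j _ => ?_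
      rw [Algebra.algebraMap_self, RingHom.id_apply, mul_comm]
    rw [h2, aeval_GU V (P i) U] at h1
    simp only [Algebra.algebraMap_self, RingHom.id_apply] at h1
    rw [← Finset.sum_coe_sort] at h1
    exact h1
  -- the exponents in the same class
  let W : Set (Fin r → ℤ) := {w | ∃ i, ∃ α β : Sp V (P i), f i α = f i β ∧
    w = fun j => (((α : Fin r →₀ ℕ) j : ℕ) : ℤ) - (((β : Fin r →₀ ℕ) j : ℕ) : ℤ)}
  have hW0 : ∀ w ∈ W, ∑ i, w i = 0 := by
    rintro _ ⟨i, α, β, -, rfl⟩
    obtain ⟨e, he⟩ := hP i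
    rw [Finset.sum_sub_distrib]
    have h1 := GU_homog V (P i) e he _ α.2
    have h2 := GU_homog V (P i) e he _ β.2
    have h3 : (∑ x, (((α : Fin r →₀ ℕ) x : ℕ) : ℤ)) = (e : ℤ) := by exact_mod_cast h1
    have h4 : (∑ x, (((β : Fin r →₀ ℕ) x : ℕ) : ℤ)) = (e : ℤ) := by exact_mod_cast h2
    rw [h3, h4, sub_self]
  obtain ⟨Y, hY⟩ : ∃ Y : Fin r → GQ, Y = fun j => yy D (fun n => q n j) := ⟨_, rfl⟩
  have hYj : ∀ j, yy D (fun n => q n j) = Y j := fun j => by rw [hY]
  have hY0 : ∀ j, Y j ≠ 0 := fun j => by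
    rw [← hYj]
    exact yy_ne D _
  simp only [hYj] at hqq hUj
  have hWK : ∀ w ∈ W, mo Y w ∈ KK L hL := by
    rintro _ ⟨i, α, β, hαβ, rfl⟩
    have h1 := (hf1 i α β).1 hαβ
    rw [hqq, hqq, ← Finset.prod_div_distrib] at h1
    unfold mo
    convert h1 using 1
    refine Finset.prod_congr rfl fun j _ => ?_
    rw [zpow_sub₀ (hY0 j), zpow_natCast, zpow_natCast]
  obtain ⟨l, hl, hgen⟩ := exists_gen W hW0
  -- ratios in the same block are negligible
  have hrat : ∀ j j', l j = l j' → Y j / Y j' ∈ KK L hL := by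
    intro j j' hjj
    rcases dichot W (Pi.single j 1 - Pi.single j' 1) with ⟨l', hl', hne⟩ | ⟨E, hE, hEW⟩
    · exfalso
      apply hne
      have h2 := hgen j j' hjj l' hl'
      simp only [Pi.sub_apply, mul_sub, Finset.sum_sub_distrib, Pi.single_apply, mul_ite,
        mul_one, mul_zero, Finset.sum_ite_eq', Finset.mem_univ, if_true]
      rw [h2, sub_self]
    · have hcl : ∀ w ∈ AddSubgroup.closure W, mo Y w ∈ KK L hL := by
        intro w hw
        induction hw using AddSubgroup.closure_induction with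
        | mem x hx => exact hWK x hx
        | zero =>
          rw [mo_zero]
          exact one_mem _
        | add x y _ _ hx hy =>
          rw [mo_add Y hY0]
          exact mul_mem hx hy
        | neg x _ hx =>
          have h1 : mo Y (-x) = (mo Y x)⁻¹ := by
            have h2 := mo_sub Y hY0 0 x
            rw [zero_sub, mo_zero, one_div] at h2
            exact h2
          rw [h1]
          exact inv_mem hx
      have h1 := hcl _ hEW
      have hsg : ∀ j : Fin r, mo Y (Pi.single j 1) = Y j := by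
        intro j
        unfold mo
        rw [Finset.prod_eq_single j]
        · simp
        · intro b _ hb
          rw [Pi.single_eq_of_ne hb, zpow_zero]
        · intro h
          exact absurd (Finset.mem_univ _) h
      rw [mo_zsmul, mo_sub Y hY0, hsg, hsg, zpow_natCast] at h1
      exact mem_of_pow _ E hE h1
  -- the curve
  have hcur : ∀ i, aeval (cur (fun j a => U j * V j a) l) (P i) = 0 := by
    intro i
    refine cur_zero U V (P i) l (f i) (hcls i) fun α β hαβ => ?_
    have h2 : ∑ j, ((l j : ℕ) : ℤ) * ((((α : Fin r →₀ ℕ) j : ℕ) : ℤ) -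
        (((β : Fin r →₀ ℕ) j : ℕ) : ℤ)) = 0 := hl _ ⟨i, α, β, hαβ, rfl⟩
    simp_rw [mul_sub] at h2
    rw [Finset.sum_sub_distrib, sub_eq_zero] at h2
    have h3 : ((∑ j, (α : Fin r →₀ ℕ) j * l j : ℕ) : ℤ) =
        ((∑ j, (β : Fin r →₀ ℕ) j * l j : ℕ) : ℤ) := by
      push_cast
      simp_rw [mul_comm _ ((l _ : ℕ) : ℤ)]
      exact h2
    exact_mod_cast h3
  have hprop : ∀ (w : ℕ) (a b : Fin (n + 1)),
      (∑ j ∈ Finset.univ.filter (fun j => l j = w), U j * V j a) * (∑ j, U j * V j b) =
      (∑ j ∈ Finset.univ.filter (fun j => l j = w), U j * V j b) * (∑ j, U j * V j a) := by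
    intro w a b
    refine part_prop (fun j a => U j * V j a) l ?_ w a b
    by_contra hne
    push Not at hne
    exact hGx (hG l hcur hne)
  obtain ⟨a1, ha1⟩ := Function.ne_iff.1 hx
  have h1 : ∑ w ∈ Finset.univ.image l, ∑ j ∈ Finset.univ.filter (fun j => l j = w),
      U j * V j a1 ≠ 0 := by
    rw [Finset.sum_fiberwise_of_maps_to (fun j _ => Finset.mem_image_of_mem _ (Finset.mem_univ j))]
    exact ha1
  obtain ⟨w, hw, hw0⟩ := Finset.exists_ne_zero_of_sum_ne_zero h1
  obtain ⟨j1, _, rfl⟩ := Finset.mem_image.1 hw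
  refine ⟨Finset.univ.filter (fun j => l j = l j1), j1, fun j hj => ?_, fun a b => hprop _ a b,
    a1, hw0⟩
  have h2 : U j / U j1 = (s j / s j1) * (Y j / Y j1) := by
    rw [← hUj, ← hUj]
    have := hs0 j1
    have := hY0 j1
    field_simp
  rw [h2]
  exact mul_mem (div_mem (hs j) (hs j1)) (hrat j j1 (Finset.mem_filter.1 hj).2)

end Pool.Agent.Y215.SK
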