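import Mathlib
import Pool.Agent.Y215.SK.Cls

set_option autoImplicit false
set_option linter.unusedSectionVars false
set_option linter.unusedSimpArgs false

/-! # Finitely generated groups of algebraic numbers and their division groups -/

namespace Pool.Agent.Y215.SK

open Finset NumberField Height Module Filter
open Pool.Agent.Helper259.AbsHt

theorem exists_galois (s : Set Qbar) (hs : s.Finite) :
    ∃ (K : IntermediateField ℚ Qbar) (_ : NumberField K) (_ : IsGalois ℚ K), ∀ x ∈ s, x ∈ K := by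
  obtain ⟨L, hL, hmem⟩ := exists_nf s hs
  have h0 : Algebra.IsAlgebraic ℚ Qbar := AlgebraicClosure.isAlgebraic ℚ
  have hac : IsAlgClosure ℚ Qbar := ⟨inferInstance, h0⟩
  have hn : Normal ℚ Qbar := IsAlgClosure.normal ℚ Qbar
  have h1 : FiniteDimensional ℚ (IntermediateField.normalClosure ℚ L Qbar) := inferInstance
  have h2 : Normal ℚ (IntermediateField.normalClosure ℚ L Qbar) := normalClosure.normal ℚ L Qbar
  exact ⟨IntermediateField.normalClosure ℚ L Qbar, ⟨⟩, ⟨⟩,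
    fun x hx => L.le_normalClosure (hmem x hx)⟩

lemma mo_units {ρ : ℕ} (γ : Fin ρ → Qbarˣ) (q : Fin ρ → ℤ) :
    mo (fun v => (γ v : Qbar)) q = ((∏ v, γ v ^ q v : Qbarˣ) : Qbar) := by
  unfold mo
  rw [Units.coe_prod]
  exact Finset.prod_congr rfl fun v _ => (Units.val_zpow_eq_zpow_val _ _).symm

lemma ofMul_prod' {ρ : ℕ} (γ : Fin ρ → Qbarˣ) (q : Fin ρ → ℤ) :
    Additive.ofMul (∏ v, γ v ^ q v) = ∑ v, q v • Additive.ofMul (γ v) := by
  rw [ofMul_prod]
  exact Finset.sum_congr rfl fun v _ => ofMul_zpow _ _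

theorem exists_grp0 (Γ : Subgroup Qbarˣ) (hΓ : Γ.FG) :
    ∃ (ρ : ℕ) (D : Grp ρ), ∀ u : Qbarˣ, (∃ m : ℕ, 0 < m ∧ u ^ m ∈ Γ) →
      ∃ (M : ℕ) (p : Fin ρ → ℤ), 0 < M ∧ (u : Qbar) ^ M = ((mo D.g p : D.K) : Qbar) := by
  classical
  obtain ⟨S, hS⟩ := hΓ
  let v : S → Additive Qbarˣ := fun x => Additive.ofMul x.1
  obtain ⟨t, ht, hmax⟩ := exists_maximal_linearIndepOn ℤ v
  have htf : Finite t := inferInstance
  have := Fintype.ofFinite t
  let e : Fin (Fintype.card t) ≃ t := (Fintype.equivFin t).symm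
  let γ : Fin (Fintype.card t) → Qbarˣ := fun i => (e i).1.1
  have hrange : Set.range (fun i => Additive.ofMul (γ i)) = v '' t := by
    ext x
    constructor
    · rintro ⟨i, rfl⟩
      exact ⟨(e i).1, (e i).2, rfl⟩
    · rintro ⟨y, hy, rfl⟩
      refine ⟨e.symm ⟨y, hy⟩, ?_⟩
      simp [γ, v]
  have hind : ∀ q : Fin (Fintype.card t) → ℤ, (∏ i, γ i ^ q i) = 1 → q = 0 := by
    intro q hq
    have h1 : LinearIndependent ℤ (fun x : t => v x) := ht
    have h2 : LinearIndependent ℤ (fun i => Additive.ofMul (γ i)) := h1.comp e e.injective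
    rw [Fintype.linearIndependent_iff] at h2
    funext i
    refine h2 q ?_ i
    rw [← ofMul_prod', hq, ofMul_one]
  obtain ⟨z, hz⟩ := IsAlgClosed.exists_pow_nat_eq (-1 : Qbar) (n := 2) (by norm_num)
  obtain ⟨K, hK, hgal, hmem⟩ := exists_galois (Set.range (fun i => (γ i : Qbar)) ∪ {z})
    ((Set.finite_range _).union (Set.finite_singleton z))
  have hγK : ∀ i, (γ i : Qbar) ∈ K := fun i => hmem _ (Or.inl ⟨i, rfl⟩)
  let g : Fin (Fintype.card t) → K := fun i => ⟨γ i, hγK i⟩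
  have hgv : ∀ q, ((mo g q : K) : Qbar) = mo (fun v => (γ v : Qbar)) q := fun q =>
    map_mo g (algebraMap K Qbar) q
  have hg0 : ∀ v, g v ≠ 0 := fun v h => (γ v).ne_zero (congrArg Subtype.val h)
  obtain ⟨C, hC, hlow⟩ := low K g hg0 (by
    intro q hq
    apply hind
    have h1 := hgv q
    rw [hq, mo_units] at h1
    exact Units.ext h1.symm)
  let D : Grp (Fintype.card t) := ⟨K, hK, hgal, ⟨⟨z, hmem z (Or.inr rfl)⟩, Subtype.ext hz⟩, g,
    hg0, C, hC, hlow⟩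
  refine ⟨Fintype.card t, D, fun u hu => ?_⟩
  obtain ⟨m, hm, hum⟩ := hu
  -- some power lies in the group generated by `γ`
  have hspan : ∀ x ∈ Γ, ∃ N : ℕ, 0 < N ∧ N • Additive.ofMul x ∈ Submodule.span ℤ (v '' t) := by
    intro x hx
    rw [← hS] at hx
    induction hx using Subgroup.closure_induction with
    | mem x hx =>
      by_cases h : (⟨x, hx⟩ : S) ∈ t
      · refine ⟨1, one_pos, ?_⟩
        rw [one_smul]
        exact Submodule.subset_span ⟨_, h, rfl⟩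
      · obtain ⟨a, ha, ha2⟩ := hmax _ h
        refine ⟨a.natAbs, Int.natAbs_pos.2 ha, ?_⟩
        have h1 : v ⟨x, hx⟩ = Additive.ofMul x := rfl
        rw [h1] at ha2
        rcases Int.natAbs_eq a with h2 | h2
        · rw [h2, natCast_zsmul] at ha2
          exact ha2
        · rw [h2, neg_smul, natCast_zsmul] at ha2
          exact neg_mem_iff.1 ha2
    | one =>
      refine ⟨1, one_pos, ?_⟩
      rw [ofMul_one, smul_zero]
      exact Submodule.zero_mem _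
    | mul x y _ _ hx hy =>
      obtain ⟨N1, h1, h2⟩ := hx
      obtain ⟨N2, h3, h4⟩ := hy
      refine ⟨N1 * N2, Nat.mul_pos h1 h3, ?_⟩
      rw [ofMul_mul, nsmul_add]
      refine Submodule.add_mem _ ?_ ?_
      · rw [mul_comm, mul_smul]
        exact Submodule.smul_of_tower_mem _ _ h2
      · rw [mul_smul]
        exact Submodule.smul_of_tower_mem _ _ h4
    | inv x _ hx =>
      obtain ⟨N1, h1, h2⟩ := hx
      refine ⟨N1, h1, ?_⟩
      rw [ofMul_inv, neg_nsmul]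
      exact Submodule.neg_mem _ h2
  obtain ⟨N, hN, hNs⟩ := hspan _ hum
  rw [← hrange, Submodule.mem_span_range_iff_exists_fun] at hNs
  obtain ⟨p, hp⟩ := hNs
  rw [← ofMul_prod'] at hp
  refine ⟨m * N, p, Nat.mul_pos hm hN, ?_⟩
  have huM : u ^ (m * N) = ∏ i, γ i ^ p i := by
    rw [pow_mul]
    have h1 : Additive.ofMul ((u ^ m) ^ N) = Additive.ofMul (∏ i, γ i ^ p i) := by
      rw [hp, ofMul_pow]
    exact Additive.ofMul.injective h1
  show (u : Qbar) ^ (m * N) = ((mo g p : K) : Qbar)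
  rw [hgv, mo_units, ← huM, Units.val_pow_eq_pow_val]

/-- the height of a monomial -/
theorem h1_mo_le {ρ : ℕ} (D : Grp ρ) (p : Fin ρ → ℤ) (B : ℝ) (hB : ∀ v, |(p v : ℝ)| ≤ B) :
    h1 ((mo D.g p : D.K) : Qbar) ≤ B * ∑ i, h1 (D.g i : Qbar) := by
  have e : ((mo D.g p : D.K) : Qbar) = mo (fun v => ((D.g v : D.K) : Qbar)) p :=
    map_mo D.g (algebraMap D.K Qbar) p
  rw [e]
  unfold mo
  refine (h1_prod_le _ _).trans ?_
  rw [Finset.mul_sum]
  refine Finset.sum_le_sum fun i _ => ?_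
  rw [h1_zpow]
  exact mul_le_mul_of_nonneg_right (hB i) (h1_nonneg _)

theorem exists_grp (Γ : Subgroup Qbarˣ) (hΓ : Γ.FG) :
    ∃ (ρ : ℕ) (D : Grp ρ) (C0 : ℝ), ∀ u : Qbarˣ, (∃ m : ℕ, 0 < m ∧ u ^ m ∈ Γ) →
      ∃ (s : Qbar) (q : Fin ρ → ℤ), s ≠ 0 ∧ h1 s ≤ C0 ∧
        (u : Qbar) = s * ((mo D.g q : D.K) : Qbar) := by
  obtain ⟨ρ, D, hD⟩ := exists_grp0 Γ hΓ
  refine ⟨ρ, D, ∑ i, h1 (D.g i : Qbar), fun u hu => ?_⟩
  obtain ⟨M, p, hM0, huM⟩ := hD u hu
  have hMZ : (0 : ℤ) < M := by exact_mod_cast hM0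
  let q : Fin ρ → ℤ := fun i => p i / M
  let rr : Fin ρ → ℤ := fun i => p i % M
  have hdec : p = (M : ℤ) • q + rr := by
    funext i
    show p i = M * (p i / M) + p i % M
    exact (Int.mul_ediv_add_emod _ _).symm
  have hmq : ((mo D.g q : D.K) : Qbar) ≠ 0 := fun h => mo_ne D.g D.hg q (Subtype.ext h)
  refine ⟨(u : Qbar) / ((mo D.g q : D.K) : Qbar), q, div_ne_zero u.ne_zero hmq, ?_,
    (div_mul_cancel₀ _ hmq).symm⟩
  have h2 : ((u : Qbar) / ((mo D.g q : D.K) : Qbar)) ^ M = ((mo D.g rr : D.K) : Qbar) := by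
    rw [div_pow, div_eq_iff (pow_ne_zero _ hmq), huM, hdec, mo_add _ D.hg, mo_zsmul, zpow_natCast,
      mul_comm]
    rfl
  have h3 := h1_pow ((u : Qbar) / ((mo D.g q : D.K) : Qbar)) M
  rw [h2] at h3
  have hMR : (0 : ℝ) < M := by exact_mod_cast hM0
  have h4 : h1 ((mo D.g rr : D.K) : Qbar) ≤ M * ∑ i, h1 (D.g i : Qbar) := by
    refine h1_mo_le D rr M fun i => ?_
    have h5 := Int.emod_nonneg (p i) hMZ.ne'
    have h6 := Int.emod_lt_of_pos (p i) hMZ
    have h7 : |rr i| ≤ M := by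
      show |p i % M| ≤ M
      rw [abs_of_nonneg h5]
      exact h6.le
    exact_mod_cast h7
  rw [h3] at h4
  exact le_of_mul_le_mul_left h4 hMR

/-- elements of bounded height of the division group are close to finitely many -/
theorem cover (Γ : Subgroup Qbarˣ) (hΓ : Γ.FG) (δ : ℝ) (hδ : 0 < δ) :
    ∃ (c : ℝ) (e : ℕ), 0 ≤ c ∧ ∀ C2 : ℝ, 0 ≤ C2 → ∃ R : Finset Qbarˣ,
      (R.card : ℝ) ≤ (c * (1 + C2)) ^ e ∧
      ∀ w : Qbarˣ, (∃ m : ℕ, 0 < m ∧ w ^ m ∈ Γ) → h1 (w : Qbar) ≤ C2 →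
      ∃ z ∈ R, h1 ((w : Qbar) / (z : Qbar)) ≤ δ := by
  classical
  obtain ⟨ρ, D, hD⟩ := exists_grp0 Γ hΓ
  have hch : ∀ w : Qbarˣ, ∃ (M : ℕ) (p : Fin ρ → ℤ), 0 < M ∧
      ((∃ m : ℕ, 0 < m ∧ w ^ m ∈ Γ) → (w : Qbar) ^ M = ((mo D.g p : D.K) : Qbar)) := by
    intro w
    by_cases h : ∃ m : ℕ, 0 < m ∧ w ^ m ∈ Γ
    · obtain ⟨M, p, h1, h2⟩ := hD w h
      exact ⟨M, p, h1, fun _ => h2⟩
    · exact ⟨1, 0, one_pos, fun h' => absurd h' h⟩
  choose M p hM hp using hch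
  obtain ⟨S, hS⟩ : ∃ S : ℝ, S = ∑ i, h1 (D.g i : Qbar) := ⟨_, rfl⟩
  have hS0 : 0 ≤ S := by
    rw [hS]
    exact Finset.sum_nonneg fun _ _ => h1_nonneg _
  obtain ⟨T, hT⟩ : ∃ T : ℕ, T = ⌈S / δ⌉₊ + 1 := ⟨_, rfl⟩
  have hT0 : 0 < T := by omega
  have hTR : (0 : ℝ) < T := by exact_mod_cast hT0
  have hTS : S ≤ δ * T := by
    have h1 : S / δ ≤ T := by
      refine (Nat.le_ceil _).trans ?_
      rw [hT]
      push_cast
      linarith
    rw [div_le_iff₀ hδ] at h1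
    linarith
  have hDC := D.hC
  refine ⟨2 * (D.C * T) + 5, ρ, by positivity, fun C2 hC2 => ?_⟩
  obtain ⟨B, hB⟩ : ∃ B : ℕ, B = ⌈D.C * |C2| * T⌉₊ + 1 := ⟨_, rfl⟩
  let cell : Qbarˣ → Fin ρ → ℤ := fun w v => (p w v * T) / M w
  let CS : Finset (Fin ρ → ℤ) := Fintype.piFinset fun _ => Finset.Icc (-(B : ℤ)) B
  let rep : (Fin ρ → ℤ) → Qbarˣ := fun c =>
    if h : ∃ w : Qbarˣ, (∃ m : ℕ, 0 < m ∧ w ^ m ∈ Γ) ∧ cell w = c then h.choose else 1
  refine ⟨CS.image rep, ?_, fun w hw hwC => ?_⟩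
  · have h1 : (CS.image rep).card ≤ (2 * B + 1) ^ ρ := by
      refine Finset.card_image_le.trans ?_
      show (Fintype.piFinset fun _ : Fin ρ => Finset.Icc (-(B : ℤ)) B).card ≤ _
      rw [Fintype.card_piFinset, Finset.prod_const, Finset.card_univ, Fintype.card_fin,
        Int.card_Icc]
      refine Nat.pow_le_pow_left ?_ _
      omega
    have h2 : ((CS.image rep).card : ℝ) ≤ ((2 * B + 1 : ℕ) : ℝ) ^ ρ := by exact_mod_cast h1
    refine h2.trans (pow_le_pow_left₀ (Nat.cast_nonneg _) ?_ _)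
    have h3 : (⌈D.C * |C2| * T⌉₊ : ℝ) < D.C * |C2| * T + 1 := Nat.ceil_lt_add_one (by positivity)
    rw [hB]
    push_cast
    rw [abs_of_nonneg hC2] at h3 ⊢
    have h4 : (2 * (D.C * T) + 5) * (1 + C2) = 2 * (D.C * C2 * T) + 5 + (2 * (D.C * T) + 5 * C2) := by
      ring
    have h5 : 0 ≤ 2 * (D.C * T) + 5 * C2 := by positivity
    linarith
  have hcellmem : cell w ∈ CS := by
    rw [Fintype.mem_piFinset]
    intro v
    have hMZ : (0 : ℤ) < M w := by exact_mod_cast hM w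
    have hMR : (0 : ℝ) < M w := by exact_mod_cast hM w
    have h1 := D.hlow (p w) v
    rw [← hp w hw, h1_pow] at h1
    have h2 : |(p w v : ℝ)| ≤ D.C * |C2| * M w := by
      refine h1.trans ?_
      have h3 : Pool.Agent.Y215.SK.h1 (w : Qbar) ≤ |C2| := hwC.trans (le_abs_self _)
      have h4 := D.hC
      calc D.C * (M w * Pool.Agent.Y215.SK.h1 (w : Qbar)) ≤ D.C * (M w * |C2|) := by gcongr
        _ = D.C * |C2| * M w := by ring
    have h5 : |(p w v : ℝ) * T| ≤ (D.C * |C2| * T) * M w := by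
      rw [abs_mul, abs_of_pos hTR]
      calc |(p w v : ℝ)| * T ≤ (D.C * |C2| * M w) * T := by gcongr
        _ = _ := by ring
    have h6 : D.C * |C2| * T ≤ ((B : ℤ) - 1 : ℤ) := by
      rw [hB]
      push_cast
      have := Nat.le_ceil (D.C * |C2| * T)
      linarith
    have h7 : |(p w v : ℝ) * T| ≤ (((B : ℤ) - 1 : ℤ) : ℝ) * M w :=
      h5.trans (mul_le_mul_of_nonneg_right h6 hMR.le)
    have h8 : |p w v * T| ≤ ((B : ℤ) - 1) * M w := by
      have : ((|p w v * T| : ℤ) : ℝ) ≤ ((((B : ℤ) - 1) * M w : ℤ) : ℝ) := by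
        push_cast
        push_cast at h7
        exact h7
      exact_mod_cast this
    rw [abs_le] at h8
    rw [Finset.mem_Icc]
    constructor
    · show -(B : ℤ) ≤ (p w v * T) / M w
      rw [Int.le_ediv_iff_mul_le hMZ]
      nlinarith
    · show (p w v * T) / M w ≤ B
      have h9 : (p w v * T) / M w ≤ (((B : ℤ) - 1) * M w) / M w :=
        Int.ediv_le_ediv hMZ h8.2
      rw [Int.mul_ediv_cancel _ hMZ.ne'] at h9
      omega
  refine ⟨rep (cell w), Finset.mem_image_of_mem _ hcellmem, ?_⟩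
  have hex : ∃ w' : Qbarˣ, (∃ m : ℕ, 0 < m ∧ w' ^ m ∈ Γ) ∧ cell w' = cell w := ⟨w, hw, rfl⟩
  obtain ⟨w', hw'⟩ : ∃ w' : Qbarˣ, w' = rep (cell w) := ⟨_, rfl⟩
  have hrep : (∃ m : ℕ, 0 < m ∧ w' ^ m ∈ Γ) ∧ cell w' = cell w := by
    have h1 : rep (cell w) = hex.choose := dif_pos hex
    rw [hw', h1]
    exact hex.choose_spec
  rw [← hw']
  obtain ⟨hw'1, hw'2⟩ := hrep
  have hMM : (0 : ℝ) < (M w * M w' : ℕ) := by exact_mod_cast Nat.mul_pos (hM w) (hM w')
  have hpow : ((w : Qbar) / (w' : Qbar)) ^ (M w * M w') =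
      ((mo D.g ((M w' : ℤ) • p w - (M w : ℤ) • p w') : D.K) : Qbar) := by
    have e1 : ((mo D.g ((M w' : ℤ) • p w - (M w : ℤ) • p w') : D.K) : Qbar) =
        ((mo D.g (p w) : D.K) : Qbar) ^ M w' / ((mo D.g (p w') : D.K) : Qbar) ^ M w := by
      rw [mo_sub _ D.hg, mo_zsmul, mo_zsmul, zpow_natCast, zpow_natCast]
      exact map_div₀ (algebraMap D.K Qbar) _ _
    rw [e1, ← hp w hw, ← hp w' hw'1, div_pow, ← pow_mul, ← pow_mul, mul_comm (M w')]
  have h3 := h1_pow ((w : Qbar) / (w' : Qbar)) (M w * M w')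
  rw [hpow] at h3
  have h4 := h1_mo_le D ((M w' : ℤ) • p w - (M w : ℤ) • p w') ((M w * M w' : ℕ) / T) (by
    intro v
    rw [le_div_iff₀ hTR]
    have e1 : ((M w' : ℤ) • p w - (M w : ℤ) • p w') v = M w' * p w v - M w * p w' v := rfl
    rw [e1]
    have h5 := congrFun hw'2 v
    have h6 : (p w' v * T) / M w' = (p w v * T) / M w := h5
    have hMZ : (0 : ℤ) < M w := by exact_mod_cast hM w
    have hMZ' : (0 : ℤ) < M w' := by exact_mod_cast hM w'
    have a1 := Int.mul_ediv_add_emod (p w v * T) (M w)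
    have a2 := Int.emod_nonneg (p w v * T) hMZ.ne'
    have a3 := Int.emod_lt_of_pos (p w v * T) hMZ
    have b1 := Int.mul_ediv_add_emod (p w' v * T) (M w')
    have b2 := Int.emod_nonneg (p w' v * T) hMZ'.ne'
    have b3 := Int.emod_lt_of_pos (p w' v * T) hMZ'
    rw [h6] at b1
    obtain ⟨c, hc⟩ : ∃ c : ℤ, c = (p w v * T) / M w := ⟨_, rfl⟩
    rw [← hc] at a1 b1
    obtain ⟨x, hx⟩ : ∃ x : ℤ, x = (p w v * T) % M w := ⟨_, rfl⟩
    obtain ⟨y, hy⟩ : ∃ y : ℤ, y = (p w' v * T) % M w' := ⟨_, rfl⟩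
    rw [← hx] at a1 a2 a3
    rw [← hy] at b1 b2 b3
    have h7 : (M w' * p w v - M w * p w' v) * T = M w' * x - M w * y := by
      linear_combination (-(M w' : ℤ)) * a1 + (M w : ℤ) * b1
    have h8 : |(M w' * p w v - M w * p w' v) * T| ≤ M w * M w' := by
      rw [h7, abs_le]
      constructor
      · nlinarith
      · nlinarith
    have h9 : |(M w' * p w v - M w * p w' v)| * T ≤ M w * M w' := by
      have : |(T : ℤ)| = T := abs_of_pos (by exact_mod_cast hT0)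
      rw [abs_mul, this] at h8
      exact h8
    exact_mod_cast h9)
  rw [h3, ← hS] at h4
  have h5 : (M w * M w' : ℕ) / T * S ≤ (M w * M w' : ℕ) * δ := by
    rw [div_mul_eq_mul_div, div_le_iff₀ hTR]
    calc ((M w * M w' : ℕ) : ℝ) * S ≤ (M w * M w' : ℕ) * (δ * T) :=
          mul_le_mul_of_nonneg_left hTS hMM.le
      _ = _ := by ring
  exact le_of_mul_le_mul_left (h4.trans h5) hMM

end Pool.Agent.Y215.SK
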