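import Mathlib
import Pool.Agent.Y215.SK.Grps
import Pool.Agent.Y215.SK.Defs

set_option autoImplicit false
set_option linter.unusedSectionVars false
set_option linter.unusedSimpArgs false

/-! # Sums of elements of a group of finite rank on varieties: bounded height -/

namespace Pool.Agent.Y215.SK

open Finset NumberField Height Module Filter MvPolynomial
open Pool.Agent.Helper259.AbsHt Pool.Agent.H533R3.SL Pool.Agent.Y215.SP

variable {n N r : ℕ}

theorem aeval_hom_smul {k R : Type} [Field k] [CommRing R] [Algebra k R] {e : ℕ}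
    (F : MvPolynomial (Fin (n + 1)) k) (hF : F.IsHomogeneous e) (c : R) (x : Fin (n + 1) → R) :
    aeval (fun a => c * x a) F = c ^ e * aeval x F := by
  rw [MvPolynomial.aeval_def, MvPolynomial.aeval_def, MvPolynomial.eval₂_eq',
    MvPolynomial.eval₂_eq', Finset.mul_sum]
  refine Finset.sum_congr rfl fun m hm => ?_
  have h1 : ∑ j, m j = e := by
    have := hF (MvPolynomial.mem_support_iff.1 hm)
    rw [← this, Finsupp.weight_apply, Finsupp.sum_fintype _ _ (by simp)]
    simp
  simp only [mul_pow, Finset.prod_mul_distrib, Finset.prod_pow_eq_pow_sum, h1]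
  ring

/-- the algebra structure on the germs -/
noncomputable abbrev algGQ (k : Type) [Field k] [Algebra k Qbar] : Algebra k GQ :=
  (cst.comp (algebraMap k Qbar)).toAlgebra

theorem aeval_gm {k : Type} [Field k] [Algebra k Qbar]
    (F : MvPolynomial (Fin (n + 1)) k) (x : Fin (n + 1) → ℕ → Qbar) :
    letI := algGQ k
    aeval (fun a => gm (x a)) F = gm (fun t => aeval (fun a => x a t) F) := by
  let _ := algGQ k
  induction F using MvPolynomial.induction_on with
  | C a =>
    simp only [MvPolynomial.aeval_C]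
    rfl
  | add p q hp hq =>
    simp only [map_add]
    rw [hp, hq]
    rfl
  | mul_X p i hp =>
    simp only [map_mul, MvPolynomial.aeval_X]
    rw [hp]
    rfl

/-- a partial sum is proportional to the sum -/
def Good (J : Finset (Fin r)) (u : Fin r → Qbarˣ) (V : Fin r → Fin (n + 1) → Qbar) : Prop :=
  (∀ a b, psum J u V a * psum Finset.univ u V b = psum J u V b * psum Finset.univ u V a) ∧
    ∃ a, psum J u V a ≠ 0

theorem good_smul (J : Finset (Fin r)) (u : Fin r → Qbarˣ) (V : Fin r → Fin (n + 1) → Qbar)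
    (c : Qbar) (h : Good J u (fun j a => c * V j a)) : Good J u V := by
  have h1 : ∀ (J : Finset (Fin r)) a, psum J u (fun j a => c * V j a) a = c * psum J u V a := by
    intro J a
    unfold psum
    rw [Finset.mul_sum]
    exact Finset.sum_congr rfl fun j _ => by ring
  obtain ⟨h2, a, ha⟩ := h
  rw [h1] at ha
  have hc : c ≠ 0 := left_ne_zero_of_mul ha
  refine ⟨fun a b => ?_, a, right_ne_zero_of_mul ha⟩
  have h3 := h2 a b
  rw [h1, h1, h1, h1] at h3
  have h4 : (c * c) * (psum J u V a * psum Finset.univ u V b) =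
      (c * c) * (psum J u V b * psum Finset.univ u V a) := by
    linear_combination h3
  exact mul_left_cancel₀ (mul_ne_zero hc hc) h4

/-- **Bounded multipliers.** -/
theorem mult_boundT {k : Type} [Field k] [Algebra k Qbar]
    (P : Fin N → MvPolynomial (Fin (n + 1)) k) (hP : ∀ i, ∃ e, (P i).IsHomogeneous e)
    (G : MvPolynomial (Fin (n + 1)) k) (hGh : ∃ e, G.IsHomogeneous e)
    (T : Set (Fin r × Fin (n + 1)))
    (hG : ∀ (L : Type) [Field L] [Algebra k L] (c : Fin r → Fin (n + 1) → L) (l : Fin r → ℕ),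
        (∀ j a, (j, a) ∉ T → c j a = 0) →
        (∀ i, MvPolynomial.aeval (cur c l) (P i) = 0) →
        (∃ i i', cur c l i * Polynomial.C (∑ j, c j i') ≠
          cur c l i' * Polynomial.C (∑ j, c j i)) →
        MvPolynomial.aeval (fun i => ∑ j, c j i) G = 0)
    (Γ : Subgroup Qbarˣ) (hΓ : Γ.FG) :
    ∃ C : ℝ, ∀ (u : Fin r → Qbarˣ) (V : Fin r → Fin (n + 1) → Qbar),
      (∀ j a, (j, a) ∉ T → V j a = 0) →
      (∀ j, u j ∈ DivHull Γ) → OnOff P G (psum Finset.univ u V) →
      ∃ J : Finset (Fin r), Good J u V ∧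
        absLogHeight (fun j : J => (u j : Qbar)) ≤ C * (1 + hV V) := by
  classical
  by_contra hcon
  push Not at hcon
  have hcon2 : ∀ t : ℕ, ∃ (u : Fin r → Qbarˣ) (V : Fin r → Fin (n + 1) → Qbar) (ℓ : ℝ),
      (∀ j a, (j, a) ∉ T → V j a = 0) ∧ (∀ j, u j ∈ DivHull Γ) ∧ OnOff P G (psum Finset.univ u V) ∧
      (∀ J : Finset (Fin r), Good J u V → ℓ ≤ absLogHeight (fun j : J => (u j : Qbar))) ∧
      (∀ j a, (t + 1 : ℝ) * h1 (V j a) ≤ ℓ) ∧ (t : ℝ) + 1 ≤ ℓ := by
    intro t
    obtain ⟨u, V, hVT, h1, ⟨h2, h3, h4⟩, h5⟩ := hcon (t + 1)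
    have hp0 : ∃ p : Fin r × Fin (n + 1), V p.1 p.2 ≠ 0 := by
      by_contra h
      push Not at h
      apply h2
      funext a
      refine Finset.sum_eq_zero fun j _ => ?_
      rw [h (j, a), mul_zero]
    obtain ⟨p0, hp0⟩ := hp0
    obtain ⟨c, hc⟩ : ∃ c : Qbar, c = (V p0.1 p0.2)⁻¹ := ⟨_, rfl⟩
    have hc0 : c ≠ 0 := by rw [hc]; exact inv_ne_zero hp0
    have hx : psum Finset.univ u (fun j a => c * V j a) =
        fun a => c * psum Finset.univ u V a := by
      funext a
      unfold psum
      rw [Finset.mul_sum]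
      exact Finset.sum_congr rfl fun j _ => by ring
    have hV0 : 0 ≤ hV V := absLogHeight_nonneg _
    -- the minimum
    have huniv : Good Finset.univ u V :=
      ⟨fun a b => mul_comm _ _, Function.ne_iff.1 h2⟩
    obtain ⟨J0, hJ0, hmin⟩ := Finset.exists_min_image
      (Finset.univ.filter (fun J : Finset (Fin r) => Good J u V))
      (fun J => absLogHeight (fun j : J => (u j : Qbar))) ⟨_, by simpa using huniv⟩
    rw [Finset.mem_filter] at hJ0
    have h6 := h5 J0 hJ0.2
    have h8 : (0 : ℝ) < t + 1 := by positivity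
    refine ⟨u, fun j a => c * V j a, absLogHeight (fun j : J0 => (u j : Qbar)),
      fun j a hja => by
        show c * V j a = 0
        rw [hVT j a hja, mul_zero], h1, ⟨?_, ?_, ?_⟩,
      ?_, ?_, ?_⟩
    · rw [hx]
      intro h
      apply h2
      funext a
      have := congrFun h a
      exact (mul_eq_zero.1 this).resolve_left hc0
    · intro i
      obtain ⟨e, he⟩ := hP i
      rw [hx, aeval_hom_smul _ he, h3, mul_zero]
    · obtain ⟨e, he⟩ := hGh
      rw [hx, aeval_hom_smul _ he]
      exact mul_ne_zero (pow_ne_zero _ hc0) h4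
    · intro J hJ
      exact hmin J (by
        rw [Finset.mem_filter]
        exact ⟨Finset.mem_univ _, good_smul J u V c hJ⟩)
    · intro j a
      have h6' : Pool.Agent.Y215.SK.h1 (c * V j a) ≤ hV V := by
        rw [hc, ← div_eq_inv_mul]
        exact h1_ratio_le (fun p : Fin r × Fin (n + 1) => V p.1 p.2) (j, a) p0 hp0
      have h7 : (t + 1 : ℝ) * Pool.Agent.Y215.SK.h1 (c * V j a) ≤ (t + 1) * hV V :=
        mul_le_mul_of_nonneg_left h6' (by positivity)
      nlinarith
    · nlinarith
  choose u V L hVT hu hx hmin hVh hxh using hcon2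
  have hL : Tendsto L atTop atTop := by
    refine tendsto_atTop_mono (fun t => le_trans (by linarith) (hxh t)) tendsto_natCast_atTop_atTop
  obtain ⟨ρ, D, C0, hD⟩ := exists_grp Γ hΓ
  choose s q hs0 hsh hus using fun (t : ℕ) (j : Fin r) => hD (u t j) (hu t j)
  let _ := algGQ k
  -- germs
  have hUg : ∀ j, gm (fun t => s t j) * yy D (fun t => q t j) = gm (fun t => (u t j : Qbar)) := by
    intro j
    unfold yy
    rw [gm_mul]
    congr 1
    funext t
    exact (hus t j).symm
  have hJg : ∀ (J : Finset (Fin r)) a,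
      ∑ j ∈ J, (gm (fun t => s t j) * yy D (fun t => q t j)) * gm (fun t => V t j a) =
      gm (fun t => psum J (u t) (V t) a) := by
    intro J a
    simp_rw [hUg, gm_mul]
    rw [gm_sum]
    rfl
  obtain ⟨J, j1, hrat, hprop, a1, ha1⟩ := point_block P hP G D L hL
    (fun a => cst_mem _) q (fun j => gm (fun t => s t j))
    (fun j => mem_KK_of_le _ C0 (Filter.Eventually.of_forall fun t => hsh t j))
    (fun j => gm_ne_zero.2 (Filter.Eventually.of_forall fun t => hs0 t j))
    (fun j a => gm (fun t => V t j a))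
    (by
      intro j a
      rw [mem_KK]
      intro ε hε
      filter_upwards [ev_of_atTop (Filter.eventually_ge_atTop ⌈1 / ε⌉₊)] with t ht
      have h2 := hVh t j a
      have h3 : 1 / ε ≤ t := (Nat.le_ceil _).trans (by exact_mod_cast ht)
      rw [div_le_iff₀ hε] at h3
      have h4 := h1_nonneg (V t j a)
      have h5 : 1 ≤ ε * (t + 1) := by nlinarith
      calc h1 (V t j a) = 1 * h1 (V t j a) := (one_mul _).symm
        _ ≤ ε * (t + 1) * h1 (V t j a) := mul_le_mul_of_nonneg_right h5 h4
        _ = ε * ((t + 1) * h1 (V t j a)) := by ring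
        _ ≤ ε * L t := mul_le_mul_of_nonneg_left h2 hε.le)
    (fun l h1 h2 => hG GQ _ l (fun j a hja => by
      have h3 : gm (fun t => V t j a) = 0 :=
        gm_eq_zero.2 (Filter.Eventually.of_forall fun t => hVT t j a hja)
      rw [h3, mul_zero]) h1 h2)
    (by
      intro i
      simp_rw [hJg]
      rw [aeval_gm, gm_eq_zero]
      exact Filter.Eventually.of_forall fun t => (hx t).2.1 i)
    (by
      simp_rw [hJg]
      rw [aeval_gm, gm_ne_zero]
      exact Filter.Eventually.of_forall fun t => (hx t).2.2)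
    (by
      simp_rw [hJg]
      intro h
      have h2 : ∀ᶠ t in (UU : Filter ℕ), ∀ a, psum Finset.univ (u t) (V t) a = 0 := by
        rw [Filter.eventually_all]
        exact fun a => gm_eq_zero.1 (congrFun h a)
      obtain ⟨t, ht⟩ := h2.exists
      exact (hx t).1 (funext ht))
  simp_rw [hJg] at hprop ha1
  simp_rw [hUg] at hrat
  rw [gm_ne_zero] at ha1
  have hgood : ∀ᶠ t in (UU : Filter ℕ), Good J (u t) (V t) := by
    have h2 : ∀ᶠ t in (UU : Filter ℕ), ∀ a b, psum J (u t) (V t) a *
        psum Finset.univ (u t) (V t) b = psum J (u t) (V t) b * psum Finset.univ (u t) (V t) a := by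
      rw [Filter.eventually_all]
      intro a
      rw [Filter.eventually_all]
      intro b
      exact gm_eq.1 (hprop a b)
    filter_upwards [h2, ha1] with t h3 h4
    exact ⟨h3, a1, h4⟩
  have hev : ∀ᶠ t in (UU : Filter ℕ), ∀ j : J, h1 ((u t j : Qbar) / (u t j1 : Qbar)) ≤
      1 / (2 * (r + 1)) * L t := by
    rw [Filter.eventually_all]
    intro j
    have h2 := hrat j j.2
    rw [gm_div, mem_KK] at h2
    exact h2 _ (by positivity)
  obtain ⟨t, ht1, ht2⟩ := (hgood.and hev).exists
  have h2 : L t ≤ r * (1 / (2 * (r + 1)) * L t) := by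
    refine (hmin t J ht1).trans ?_
    have h3 := absLogHeight_smul (fun j : J => (u t j : Qbar)) (inv_ne_zero (u t j1).ne_zero)
    rw [← h3]
    refine (height_le_sum _).trans ?_
    have h4 : ∀ j ∈ (Finset.univ : Finset J),
        h1 ((((u t j1 : Qbar))⁻¹ • fun j : J => (u t j : Qbar)) j) ≤
        1 / (2 * (r + 1)) * L t := by
      intro j _
      rw [Pi.smul_apply, smul_eq_mul, ← div_eq_inv_mul]
      exact ht2 j
    refine (Finset.sum_le_sum h4).trans ?_
    rw [Finset.sum_const, Finset.card_univ, Fintype.card_coe, nsmul_eq_mul]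
    have h5 : (J.card : ℝ) ≤ r := by
      have := Finset.card_le_univ J
      rw [Fintype.card_fin] at this
      exact_mod_cast this
    have h6 : 0 ≤ L t := le_trans (by positivity) (hxh t)
    exact mul_le_mul_of_nonneg_right h5 (by positivity)
  have h3 := hxh t
  have h4 : (0 : ℝ) ≤ t := Nat.cast_nonneg t
  have h5 : (r : ℝ) * (1 / (2 * (r + 1)) * L t) ≤ L t / 2 := by
    have h6 : (0 : ℝ) < r + 1 := by positivity
    have h7 : (r : ℝ) * (1 / (2 * (r + 1)) * L t) = (r / (r + 1)) * (L t / 2) := by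
      field_simp
    rw [h7]
    have h8 : (r : ℝ) / (r + 1) ≤ 1 := by
      rw [div_le_one h6]
      linarith
    have h9 : 0 ≤ L t / 2 := by linarith
    nlinarith
  linarith

/-- **Bounded multipliers.** -/
theorem mult_bound {k : Type} [Field k] [Algebra k Qbar]
    (P : Fin N → MvPolynomial (Fin (n + 1)) k) (hP : ∀ i, ∃ e, (P i).IsHomogeneous e)
    (G : MvPolynomial (Fin (n + 1)) k) (hGh : ∃ e, G.IsHomogeneous e)
    (hG : ∀ (L : Type) [Field L] [Algebra k L] (c : Fin r → Fin (n + 1) → L) (l : Fin r → ℕ),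
        (∀ i, MvPolynomial.aeval (cur c l) (P i) = 0) →
        (∃ i i', cur c l i * Polynomial.C (∑ j, c j i') ≠
          cur c l i' * Polynomial.C (∑ j, c j i)) →
        MvPolynomial.aeval (fun i => ∑ j, c j i) G = 0)
    (Γ : Subgroup Qbarˣ) (hΓ : Γ.FG) :
    ∃ C : ℝ, ∀ (u : Fin r → Qbarˣ) (V : Fin r → Fin (n + 1) → Qbar),
      (∀ j, u j ∈ DivHull Γ) → OnOff P G (psum Finset.univ u V) →
      ∃ J : Finset (Fin r), Good J u V ∧
        absLogHeight (fun j : J => (u j : Qbar)) ≤ C * (1 + hV V) := by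
  obtain ⟨C, hC⟩ := mult_boundT P hP G hGh Set.univ
    (fun L _ _ c l _ h1 h2 => hG L c l h1 h2) Γ hΓ
  exact ⟨C, fun u V hu hon => hC u V (fun j a h => absurd (Set.mem_univ _) h) hu hon⟩

end Pool.Agent.Y215.SK
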