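import Mathlib
import Pool.Agent.Y215.SK.FinA
import Pool.Agent.TH409.SH.Conv

set_option autoImplicit false
set_option linter.unusedSectionVars false
set_option linter.unusedSimpArgs false

/-! # Sums of elements of a group of finite rank: rational points, converse -/

namespace Pool.Agent.Y215.SK

open Finset NumberField Height Module Filter MvPolynomial
open Pool.Agent.Helper259.AbsHt Pool.Agent.H533R3.SL Pool.Agent.Y215.SP

variable {n N r : ℕ}

theorem good_prop (J : Finset (Fin r)) (u : Fin r → Qbarˣ) (V : Fin r → Fin (n + 1) → Qbar)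
    (h : Good J u V) (h0 : psum Finset.univ u V ≠ 0) :
    ∃ c : Qbar, c ≠ 0 ∧ psum J u V = c • psum Finset.univ u V := by
  obtain ⟨h1, a, ha⟩ := h
  have hxa : psum Finset.univ u V a ≠ 0 := by
    intro h
    apply h0
    funext b
    have h2 := h1 a b
    rw [h, mul_zero] at h2
    exact (mul_eq_zero.1 h2).resolve_left ha
  refine ⟨psum J u V a / psum Finset.univ u V a, div_ne_zero ha hxa, ?_⟩
  funext b
  rw [Pi.smul_apply, smul_eq_mul, div_mul_eq_mul_div, eq_div_iff hxa]
  exact (h1 a b).symm

theorem psum_height (J : Finset (Fin r)) (u : Fin r → Qbarˣ) (V : Fin r → Fin (n + 1) → Qbar) :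
    absLogHeight (psum J u V) ≤ r + hV V + absLogHeight (fun j : J => (u j : Qbar)) := by
  have h1 := absLogHeight_linear (ι' := Fin (n + 1)) (ι := J) (fun q => V q.2 q.1)
    (fun j : J => (u j : Qbar))
  have e : psum J u V = fun a => ∑ i : J, V i a * (u i : Qbar) := by
    funext a
    unfold psum
    rw [← Finset.sum_coe_sort]
    exact Finset.sum_congr rfl fun j _ => mul_comm _ _
  rw [e]
  have h2 : absLogHeight (fun q : Fin (n + 1) × J => V q.2 q.1) ≤ hV V :=
    absLogHeight_comp_le (fun q : Fin (n + 1) × J => ((q.2 : Fin r), q.1))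
      (fun p : Fin r × Fin (n + 1) => V p.1 p.2)
  have h3 : Real.log (Nat.card J) ≤ r := by
    rw [Nat.card_eq_fintype_card, Fintype.card_coe]
    have h4 := Finset.card_le_univ J
    rw [Fintype.card_fin] at h4
    rcases Nat.eq_zero_or_pos J.card with h5 | h5
    · rw [h5]
      simp
    · have h6 : (J.card : ℝ) ≤ r := by exact_mod_cast h4
      have h7 := Real.log_le_sub_one_of_pos (x := (J.card : ℝ)) (by exact_mod_cast h5)
      linarith
  linarith

/-- finitely many rational points of bounded height -/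
theorem northcott_proj (K : Type) [Field K] [NumberField K] (φ : K →+* Qbar) (B : ℝ) :
    {p : Projectivization K (Fin (n + 1) → K) | ∃ (y : Fin (n + 1) → K) (hy : y ≠ 0),
      p = Projectivization.mk K y hy ∧ absLogHeight (fun a => φ (y a)) ≤ B}.Finite := by
  classical
  have hN := Northcott.finite_le (h := fun x : K => logHeight₁ x) (B * finrank ℚ K)
  have hT : {y : Fin (n + 1) → K | ∀ a, y a ∈ {x : K | logHeight₁ x ≤ B * finrank ℚ K}}.Finite :=
    Set.Finite.pi' fun _ => hN
  have hpos : (0 : ℝ) < finrank ℚ K := by exact_mod_cast Module.finrank_pos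
  refine (hT.biUnion (t := fun y => {p : Projectivization K (Fin (n + 1) → K) |
    ∃ hy : y ≠ 0, p = Projectivization.mk K y hy}) fun y _ => ?_).subset ?_
  · refine Set.Subsingleton.finite ?_
    rintro p ⟨h1, rfl⟩ q ⟨h2, rfl⟩
    rfl
  · rintro p ⟨y, hy, rfl, hB⟩
    obtain ⟨a0, ha0⟩ := Function.ne_iff.1 hy
    have ha0' : y a0 ≠ 0 := ha0
    have hy' : (fun a => y a / y a0) ≠ 0 := by
      intro h
      have := congrFun h a0
      simp only [Pi.zero_apply] at this
      rw [div_self ha0'] at this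
      exact one_ne_zero this
    rw [Set.mem_iUnion₂]
    refine ⟨fun a => y a / y a0, fun a => ?_, hy', ?_⟩
    · have h1 := h1_ratio_le (fun a => φ (y a)) a a0 (by
        intro h
        exact ha0' ((map_eq_zero φ).1 h))
      have e : φ (y a) / φ (y a0) = φ (y a / y a0) := (map_div₀ φ _ _).symm
      rw [e, h1_eq, div_le_iff₀ hpos] at h1
      show logHeight₁ (y a / y a0) ≤ B * finrank ℚ K
      exact h1.trans (mul_le_mul_of_nonneg_right hB hpos.le)
    · rw [Projectivization.mk_eq_mk_iff']
      refine ⟨y a0, ?_⟩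
      funext a
      rw [Pi.smul_apply, smul_eq_mul, mul_div_cancel₀ _ ha0']

/-- **Finiteness over every number field.** -/
theorem ratPts_finite {k K : Type} [Field k] [Field K] [NumberField K] [Algebra k Qbar]
    (φ : K →+* Qbar) (P : Fin N → MvPolynomial (Fin (n + 1)) k)
    (G : MvPolynomial (Fin (n + 1)) k) (Γ : Subgroup Qbarˣ) (C : ℝ)
    (hC : ∀ (u : Fin r → Qbarˣ) (V : Fin r → Fin (n + 1) → Qbar),
      (∀ j, u j ∈ DivHull Γ) → OnOff P G (psum Finset.univ u V) →
      ∃ J : Finset (Fin r), Good J u V ∧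
        absLogHeight (fun j : J => (u j : Qbar)) ≤ C * (1 + hV V)) (B : ℝ) :
    (ratPts φ P G Γ {V : Fin r → Fin (n + 1) → Qbar | hV V ≤ B}).Finite := by
  refine (northcott_proj K φ (r + B + |C| * (1 + B))).subset ?_
  rintro p ⟨y, hy, rfl, hon, u, hu, V, hVB, hps⟩
  refine ⟨y, hy, rfl, ?_⟩
  rw [← hps] at hon ⊢
  obtain ⟨J, hJ, hh⟩ := hC u V hu hon
  obtain ⟨c, hc, hc2⟩ := good_prop J u V hJ hon.1
  rw [← absLogHeight_smul _ hc, ← hc2]
  have hVB' : hV V ≤ B := hVB
  have hV0 : 0 ≤ hV V := absLogHeight_nonneg _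
  have h1 := psum_height J u V
  have h2 : C * (1 + hV V) ≤ |C| * (1 + B) :=
    mul_le_mul (le_abs_self C) (by linarith) (by linarith) (abs_nonneg C)
  linarith

/-- **Converse.** -/
theorem converse2 (k : Type) [Field k] [NumberField k]
    (P : Fin N → MvPolynomial (Fin (n + 1)) k) (hu : Uniruled (Ideal.span (Set.range P))) :
    ∃ r : ℕ, ∀ G : MvPolynomial (Fin (n + 1)) k, (∃ e, G.IsHomogeneous e) →
      G ∉ Ideal.span (Set.range P) →
      ∃ (_ : Algebra k Qbar) (K : Type) (_ : Field K) (_ : NumberField K) (φ : K →+* Qbar)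
        (V : Fin r → Fin (n + 1) → Qbar),
        (ratPts φ P G (Subgroup.closure {Units.mk0 (2 : Qbar) two_ne_zero}) {V}).Infinite := by
  classical
  obtain ⟨L, _, _, p, hp, hgen, hc⟩ := hu
  obtain ⟨M, hM⟩ : ∃ M : ℕ, ∀ i m, M ≤ m → (p i).coeff m = 0 := by
    refine ⟨∑ i, (p i).natDegree + 1, fun i m hm => Polynomial.coeff_eq_zero_of_natDegree_lt ?_⟩
    have : (p i).natDegree ≤ ∑ i, (p i).natDegree :=
      Finset.single_le_sum (f := fun i => (p i).natDegree) (fun _ _ => Nat.zero_le _)
        (Finset.mem_univ i)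
    omega
  refine ⟨M, fun G hG hGI => ?_⟩
  obtain ⟨K, _, _, _, v, hv1, ⟨i1, i2, hv2⟩, hv3⟩ :=
    Pool.Agent.TH409.SH.specialise (n := n) k L p (Set.range P)
      (fun F hF => hp F (Ideal.subset_span hF)) M hM hc G (hgen G hG hGI)
  -- an embedding in `Qbar`
  obtain ⟨φ⟩ : Nonempty (K →+* Qbar) := ⟨(IsAlgClosed.lift : K →ₐ[ℚ] Qbar).toRingHom⟩
  let _ : Algebra k Qbar := (φ.comp (algebraMap k K)).toAlgebra
  refine ⟨inferInstance, K, inferInstance, inferInstance, φ, fun j i => φ (v j i), ?_⟩
  let q : Fin (n + 1) → Polynomial K := cur v (fun j => (j : ℕ))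
  have hP0 : ∀ i, aeval q (P i) = 0 := fun i => hv1 _ ⟨i, rfl⟩
  have hev : ∀ (F : MvPolynomial (Fin (n + 1)) k) (z : K),
      aeval (fun i => (q i).eval z) F = (aeval q F : Polynomial K).eval z := by
    intro F z
    have h1 : (aeval q F : Polynomial K).eval z =
        MvPolynomial.eval₂ ((Polynomial.evalRingHom z).comp (algebraMap k (Polynomial K)))
          (fun i => Polynomial.evalRingHom z (q i)) F := by
      rw [MvPolynomial.aeval_def]
      exact MvPolynomial.hom_eval₂ F _ (Polynomial.evalRingHom z) _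
    rw [h1, MvPolynomial.aeval_def]
    congr 1
    refine RingHom.ext fun a => ?_
    show _ = Polynomial.eval z (algebraMap k (Polynomial K) a)
    rw [Polynomial.algebraMap_apply]
    show _ = Polynomial.eval z (Polynomial.C _)
    rw [Polynomial.eval_C]
  have hφ : ∀ (F : MvPolynomial (Fin (n + 1)) k) (y : Fin (n + 1) → K),
      aeval (fun a => φ (y a)) F = φ (aeval y F) := by
    intro F y
    have h1 : φ (aeval y F) = MvPolynomial.eval₂ (φ.comp (algebraMap k K))
        (fun i => φ (y i)) F := by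
      rw [MvPolynomial.aeval_def]
      exact MvPolynomial.hom_eval₂ F _ φ _
    rw [h1, MvPolynomial.aeval_def]
    rfl
  have hG1 : (aeval q G : Polynomial K) ≠ 0 := by
    intro h
    apply hv3
    have h2 := hev G 1
    rw [h, Polynomial.eval_zero] at h2
    exact h2
  have hnc : q i1 * Polynomial.C ((q i2).eval 1) ≠ q i2 * Polynomial.C ((q i1).eval 1) := hv2
  have hpoint : ∀ z : K, (fun i => (q i).eval z) = fun a => ∑ j : Fin M, z ^ (j : ℕ) * v j a := by
    intro z
    funext i
    show (∑ j : Fin M, Polynomial.C (v j i) * Polynomial.X ^ (j : ℕ)).eval z = _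
    rw [Polynomial.eval_finsetSum]
    refine Finset.sum_congr rfl fun j _ => ?_
    rw [Polynomial.eval_mul, Polynomial.eval_C, Polynomial.eval_pow, Polynomial.eval_X, mul_comm]
  have hw : Units.mk0 (2 : Qbar) two_ne_zero ∈
      Subgroup.closure {Units.mk0 (2 : Qbar) two_ne_zero} :=
    Subgroup.subset_closure (Set.mem_singleton _)
  have h2m : ∀ m : ℕ, φ ((2 : K) ^ m) = (2 : Qbar) ^ m := by
    intro m
    rw [map_pow, map_ofNat]
  intro hfin
  -- the exceptional parameters
  have hne0 : q i1 ≠ 0 ∨ q i2 ≠ 0 := by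
    by_contra h
    push Not at h
    apply hnc
    rw [h.1, h.2]
  obtain ⟨i0, hi0⟩ : ∃ i0, q i0 ≠ 0 := hne0.elim (fun h => ⟨_, h⟩) (fun h => ⟨_, h⟩)
  have hbad : {z : K | (q i0 * aeval q G).eval z = 0}.Finite :=
    Polynomial.finite_setOfPred_isRoot (mul_ne_zero hi0 hG1)
  have hfib : ∀ y : Fin (n + 1) → K, y ≠ 0 →
      {z : K | ∀ i j, (q i).eval z * y j = (q j).eval z * y i}.Finite := by
    intro y hy
    have h1 : ∃ i j, q i * Polynomial.C (y j) ≠ q j * Polynomial.C (y i) := by
      by_contra h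
      push Not at h
      obtain ⟨j0, hj0⟩ := Function.ne_iff.1 hy
      simp only [Pi.zero_apply] at hj0
      have h2 : ∀ i, q i = q j0 * Polynomial.C (y i / y j0) := by
        intro i
        have h3 := h i j0
        have h4 : q i * Polynomial.C (y j0) * Polynomial.C (y j0)⁻¹ =
            q j0 * Polynomial.C (y i) * Polynomial.C (y j0)⁻¹ := by rw [h3]
        rw [mul_assoc, mul_assoc, ← Polynomial.C_mul, ← Polynomial.C_mul, mul_inv_cancel₀ hj0,
          Polynomial.C_1, mul_one, ← div_eq_mul_inv] at h4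
        exact h4
      apply hnc
      rw [h2 i1, h2 i2]
      simp only [Polynomial.eval_mul, Polynomial.eval_C, Polynomial.C_mul]
      ring
    obtain ⟨i, j, hij⟩ := h1
    refine (Polynomial.finite_setOfPred_isRoot (sub_ne_zero.2 hij)).subset ?_
    intro t ht
    have := ht i j
    show Polynomial.eval t _ = 0
    rw [Polynomial.eval_sub, Polynomial.eval_mul, Polynomial.eval_mul, Polynomial.eval_C,
      Polynomial.eval_C, this, sub_self]
  have hsub : Set.range (fun m : ℕ => (2 : K) ^ m) ⊆
      {z : K | (q i0 * aeval q G).eval z = 0} ∪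
      ⋃ p ∈ ratPts φ P G (Subgroup.closure {Units.mk0 (2 : Qbar) two_ne_zero})
        {fun (j : Fin M) i => φ (v j i)},
        {z : K | ∀ i j, (q i).eval z * p.rep j = (q j).eval z * p.rep i} := by
    rintro _ ⟨m, rfl⟩
    simp only
    obtain ⟨z, hz⟩ : ∃ z : K, z = 2 ^ m := ⟨_, rfl⟩
    rw [← hz]
    by_cases h : (q i0 * aeval q G).eval z = 0
    · exact Or.inl h
    · right
      rw [Polynomial.eval_mul] at h
      have h1 : (q i0).eval z ≠ 0 := left_ne_zero_of_mul h
      have h2 : (aeval q G : Polynomial K).eval z ≠ 0 := right_ne_zero_of_mul h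
      have h3 : (fun i => (q i).eval z) ≠ 0 := by
        intro h0
        apply h1
        exact congrFun h0 i0
      rw [Set.mem_iUnion₂]
      refine ⟨Projectivization.mk K _ h3, ⟨_, h3, rfl, ⟨?_, ?_, ?_⟩,
        fun j => (Units.mk0 (2 : Qbar) two_ne_zero) ^ (m * (j : ℕ)), ?_, _, rfl, ?_⟩, ?_⟩
      · intro h
        apply h3
        funext a
        have := congrFun h a
        exact (map_eq_zero φ).1 this
      · intro i
        rw [hφ, hev, hP0, Polynomial.eval_zero, map_zero]
      · rw [hφ, hev]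
        exact (map_ne_zero φ).2 h2
      · intro j
        refine ⟨1, one_pos, ?_⟩
        rw [pow_one]
        exact Subgroup.pow_mem _ hw _
      · funext a
        have h5 : (q a).eval z = _ := congrFun (hpoint z) a
        rw [h5, map_sum]
        unfold psum
        refine Finset.sum_congr rfl fun j _ => ?_
        rw [map_mul, map_pow, hz, h2m, ← pow_mul, Units.val_pow_eq_pow_val, Units.val_mk0]
      · obtain ⟨a, ha⟩ := Projectivization.exists_smul_eq_mk_rep K _ h3
        intro i j
        rw [← ha]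
        show _ * ((a : K) • (fun i => (q i).eval z)) j =
          _ * ((a : K) • (fun i => (q i).eval z)) i
        simp only [Pi.smul_apply, smul_eq_mul]
        ring
  have hinf : (Set.range (fun m : ℕ => (2 : K) ^ m)).Infinite := by
    refine Set.infinite_range_of_injective ?_
    intro a b hab
    have h1 : (2 : K) ^ a = 2 ^ b := hab
    have h2 : ((2 ^ a : ℕ) : K) = ((2 ^ b : ℕ) : K) := by
      push_cast
      exact h1
    have h3 : (2 : ℕ) ^ a = 2 ^ b := by exact_mod_cast h2
    exact Nat.pow_right_injective le_rfl h3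
  exact hinf ((hbad.union (hfin.biUnion fun p _ => hfib p.rep p.rep_nonzero)).subset hsub)

end Pool.Agent.Y215.SK
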