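import Mathlib
import Pool.Agent.Y215.SP.Off

set_option autoImplicit false

/-! # Points with small multipliers, for vectors with prescribed zero coordinates -/

namespace Pool.Agent.Y215.SK

open Finset MvPolynomial Pool.Agent.Helper259.AbsHt Pool.Agent.H533R3.SL Pool.Agent.Y215.SP

variable {n N r : ℕ}

theorem card_smallOffT {k : Type} [Field k] (P : Fin N → MvPolynomial (Fin (n + 1)) k) (d : ℕ)
    (hd : 1 ≤ d) (hP : ∀ i, ∃ e, e ≤ d ∧ (P i).IsHomogeneous e)
    (G : MvPolynomial (Fin (n + 1)) k)
    {L : Type} [Field L] [Algebra k L]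
    (T : Set (Fin r × Fin (n + 1)))
    (hG : ∀ (c : Fin r → Fin (n + 1) → L) (l : Fin r → ℕ),
        (∀ j a, (j, a) ∉ T → c j a = 0) →
        (∀ i, MvPolynomial.aeval (cur c l) (P i) = 0) →
        (∃ i i', cur c l i * Polynomial.C (∑ j, c j i') ≠
          cur c l i' * Polynomial.C (∑ j, c j i)) →
        MvPolynomial.aeval (fun i => ∑ j, c j i) G = 0)
    (ι : Qbar →+* L) (v : Fin r → Fin (n + 1) → L) (hv : ∀ j a, (j, a) ∉ T → v j a = 0) :
    (smallOff ι P G (epsn ((d + 1) ^ r) / d) v).encard ≤
      (2 ^ r * M0 ((d + 1) ^ r) d r : ℕ) := by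
  classical
  set ε := epsn ((d + 1) ^ r) / d with hε
  let mask : Finset (Fin r) → Fin r → Fin (n + 1) → L := fun A j i => if j ∈ A then v j i else 0
  have hcov : smallOff ι P G ε v ⊆ ⋃ A : Finset (Fin r), Off0 ι P G ε (mask A) := by
    rintro p ⟨t, hth, htz, htG, h0, hp⟩
    have hA : ∃ j1, t j1 ≠ 0 := by
      by_contra h
      push Not at h
      apply h0
      funext i
      refine Finset.sum_eq_zero fun j _ => ?_
      rw [h j, map_zero, zero_mul]
    obtain ⟨j1, hj1⟩ := hA
    let A := Finset.univ.filter (fun j => t j ≠ 0)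
    let σ : Fin r → Fin r := fun j => if t j ≠ 0 then j else j1
    have hpt : pt ι (mask A) (t ∘ σ) = pt ι v t := by
      funext i
      refine Finset.sum_congr rfl fun j _ => ?_
      by_cases hj : t j = 0
      · have h1 : mask A j i = 0 := if_neg (by simp [A, hj])
        rw [h1, hj, map_zero, zero_mul, mul_zero]
      · have h1 : mask A j i = v j i := if_pos (by simp [A, hj])
        have h2 : σ j = j := if_pos hj
        rw [h1, Function.comp_apply, h2]
    rw [Set.mem_iUnion]
    refine ⟨A, t ∘ σ, fun j => ?_, ?_, ?_, ?_, ?_⟩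
    · by_cases hj : t j = 0
      · have h2 : σ j = j1 := if_neg (by simpa using hj)
        rw [Function.comp_apply, h2]
        exact hj1
      · have h2 : σ j = j := if_pos hj
        rw [Function.comp_apply, h2]
        exact hj
    · exact lt_of_le_of_lt (absLogHeight_comp_le σ t) hth
    · rw [hpt]; exact htz
    · rw [hpt]; exact htG
    · have h1 : pt ι (mask A) (t ∘ σ) ≠ 0 := by rw [hpt]; exact h0
      exact ⟨h1, hp.trans (mk_congr h0 h1 hpt.symm)⟩
  refine (encard_le_mul _ _ (M0 ((d + 1) ^ r) d r) hcov fun A => ?_).trans ?_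
  · obtain ⟨P', hP'1, hP'2⟩ := exists_few (mask A) P d hP
    have hsub : Off0 ι P G ε (mask A) ⊆ Off0 ι P' G ε (mask A) := by
      rintro p ⟨t, h1, h2, h3, h4, h5⟩
      refine ⟨t, h1, h2, fun a => ?_, h4, h5⟩
      rcases hP'1 a with h | ⟨i, h⟩
      · rw [h, map_zero]
      · rw [h]
        exact h3 i
    refine (Set.encard_le_encard hsub).trans ?_
    refine card_off0 P' d hd (fun a => ?_) G ι (mask A) fun s l hz hc => ?_
    · rcases hP'1 a with h | ⟨i, h⟩
      · exact ⟨0, Nat.zero_le _, by rw [h]; exact MvPolynomial.isHomogeneous_zero _ _ _⟩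
      · rw [h]
        exact hP i
    · refine hG _ l (fun j a hja => ?_)
        (fun i => cur_span s (mask A) l P' hz (P i) (hP'2 i)) hc
      show s j * (if j ∈ A then v j a else 0) = 0
      rw [hv j a hja, ite_self, mul_zero]
  · rw [Nat.card_eq_fintype_card, Fintype.card_finset, Fintype.card_fin]


end Pool.Agent.Y215.SK
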