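import Mathlib
import Pool.Agent.Y215.SK.FinB
import Pool.Agent.Y215.SK.Defs2
import Pool.Agent.Y215.SK.OffT

set_option autoImplicit false
set_option linter.unusedSectionVars false
set_option linter.unusedSimpArgs false

/-! # Finitely many points close to a group of finite rank -/

namespace Pool.Agent.Y215.SK

open Finset NumberField Height Module Filter MvPolynomial
open Pool.Agent.Helper259.AbsHt Pool.Agent.H533R3.SL Pool.Agent.Y215.SP

variable {n N r : ℕ}

/-- the height of a sub-vector of a Segre product -/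
theorem height_mul_le {ι κ : Type} [Fintype ι] [Fintype κ] (x : ι → Qbar) (y : κ → Qbar)
    (hx : x ≠ 0) (hy : y ≠ 0) {τ : Type} [Finite τ] (f : τ → ι) (g : τ → κ) :
    absLogHeight (fun t => x (f t) * y (g t)) ≤ absLogHeight x + absLogHeight y := by
  rw [← absLogHeight_segre hx hy]
  exact absLogHeight_comp_le (fun t => (f t, g t)) (fun a : ι × κ => x a.1 * y a.2)

theorem div_mem_hull (Γ : Subgroup Qbarˣ) (u w : Qbarˣ) (hu : u ∈ DivHull Γ)
    (hw : w ∈ DivHull Γ) : u / w ∈ DivHull Γ := by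
  obtain ⟨m, hm, h1⟩ := hu
  obtain ⟨m', hm', h2⟩ := hw
  refine ⟨m * m', Nat.mul_pos hm hm', ?_⟩
  rw [div_pow]
  refine Γ.div_mem ?_ ?_
  · rw [pow_mul]
    exact Γ.pow_mem h1 _
  · rw [mul_comm, pow_mul]
    exact Γ.pow_mem h2 _

/-- **Finiteness over `Qbar`.** -/
theorem mix_finiteT {k : Type} [Field k] [Algebra k Qbar]
    (P : Fin N → MvPolynomial (Fin (n + 1)) k) (d : ℕ) (hd : 1 ≤ d)
    (hP : ∀ i, ∃ e, e ≤ d ∧ (P i).IsHomogeneous e)
    (G : MvPolynomial (Fin (n + 1)) k) (hGh : ∃ e, G.IsHomogeneous e)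
    (T : Set (Fin r × Fin (n + 1)))
    (hG : ∀ (L : Type) [Field L] [Algebra k L] (c : Fin r → Fin (n + 1) → L) (l : Fin r → ℕ),
        (∀ j a, (j, a) ∉ T → c j a = 0) →
        (∀ i, MvPolynomial.aeval (cur c l) (P i) = 0) →
        (∃ i i', cur c l i * Polynomial.C (∑ j, c j i') ≠
          cur c l i' * Polynomial.C (∑ j, c j i)) →
        MvPolynomial.aeval (fun i => ∑ j, c j i) G = 0)
    (Γ : Subgroup Qbarˣ) (hΓ : Γ.FG) :
    ∃ (A : ℝ) (e : ℕ), ∀ V : Fin r → Fin (n + 1) → Qbar, (∀ j a, (j, a) ∉ T → V j a = 0) →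
      (mixPts P G Γ (epsn ((d + 1) ^ r) / d / 2) V).Finite ∧
      ((mixPts P G Γ (epsn ((d + 1) ^ r) / d / 2) V).ncard : ℝ) ≤ A * (1 + hV V) ^ e := by
  classical
  obtain ⟨ε, hε⟩ : ∃ ε : ℝ, ε = epsn ((d + 1) ^ r) / d := ⟨_, rfl⟩
  rw [← hε]
  have hε0 : 0 < ε := by
    rw [hε]
    exact div_pos (epsn_pos _ (Nat.one_le_pow _ _ (by omega))) (by exact_mod_cast hd)
  obtain ⟨C, hC⟩ := mult_boundT P (fun i => (hP i).imp fun e h => h.2) G hGh T hG Γ hΓ
  obtain ⟨δ, hδ⟩ : ∃ δ : ℝ, δ = ε / (2 * (r + 1)) := ⟨_, rfl⟩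
  have hδ0 : 0 < δ := by
    rw [hδ]
    positivity
  obtain ⟨c0, e0, hc0, hcov⟩ := cover Γ hΓ δ hδ0
  obtain ⟨M', hM'⟩ : ∃ M' : ℕ, M' = 2 ^ r * M0 ((d + 1) ^ r) d r := ⟨_, rfl⟩
  refine ⟨M' * (c0 * (1 + |C| * (1 + ε))) ^ (e0 * r), e0 * r, fun V hVT => ?_⟩
  have hV0 : 0 ≤ hV V := absLogHeight_nonneg _
  obtain ⟨C2, hC2⟩ : ∃ C2 : ℝ, C2 = |C| * (1 + (ε + hV V)) := ⟨_, rfl⟩
  have hC20 : 0 ≤ C2 := by
    rw [hC2]
    positivity
  obtain ⟨R, hRc, hR⟩ := hcov C2 hC20
  have hsub : mixPts P G Γ (ε / 2) V ⊆ ⋃ z : Fin r → R,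
      smallOff (RingHom.id Qbar) P G ε (fun j a => ((z j : Qbarˣ) : Qbar) * V j a) := by
    rintro p ⟨u, s, hu, hs, hon, h0, rfl⟩
    obtain ⟨x, hx⟩ : ∃ x : Fin (n + 1) → Qbar,
      x = psum Finset.univ u (fun j a => s j * V j a) := ⟨_, rfl⟩
    have hs0 : s ≠ 0 := by
      rintro rfl
      apply h0
      funext a
      unfold psum
      simp
    have hVne : (fun p : Fin r × Fin (n + 1) => V p.1 p.2) ≠ 0 := by
      intro h
      apply h0
      funext a
      refine Finset.sum_eq_zero fun j _ => ?_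
      have h2 : V j a = 0 := congrFun h (j, a)
      show (u j : Qbar) * (s j * V j a) = 0
      rw [h2, mul_zero, mul_zero]
    have hVs : hV (fun j a => s j * V j a) ≤ ε + hV V := by
      have h2 := height_mul_le s (fun p : Fin r × Fin (n + 1) => V p.1 p.2) hs0 hVne
        (τ := Fin r × Fin (n + 1)) (fun p => p.1) (fun p => p)
      unfold hV
      refine h2.trans ?_
      linarith
    obtain ⟨J, hJ, hh⟩ := hC u (fun j a => s j * V j a) (fun j a hja => by
      show s j * V j a = 0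
      rw [hVT j a hja, mul_zero]) hu hon
    obtain ⟨c, hc, hc2⟩ := good_prop J u _ hJ h0
    have hJne : ∃ j1, j1 ∈ J := by
      by_contra h
      push Not at h
      have h2 : J = ∅ := Finset.eq_empty_of_forall_notMem h
      apply smul_ne_zero hc h0
      rw [← hc2, h2]
      funext a
      unfold psum
      simp
    obtain ⟨j1, hj1⟩ := hJne
    have hw : ∀ j ∈ J, ∃ z ∈ R, h1 (((u j / u j1 : Qbarˣ) : Qbar) / (z : Qbar)) ≤ δ := by
      intro j hj
      refine hR (u j / u j1) (div_mem_hull Γ _ _ (hu j) (hu j1)) ?_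
      have h2 : ((u j / u j1 : Qbarˣ) : Qbar) = (u j : Qbar) / (u j1 : Qbar) :=
        Units.val_div_eq_div_val _ _
      rw [h2]
      have h3 := h1_ratio_le (fun j : J => (u j : Qbar)) ⟨j, hj⟩ ⟨j1, hj1⟩ (u j1).ne_zero
      refine h3.trans (hh.trans ?_)
      rw [hC2]
      have h4 : 0 ≤ hV (fun j a => s j * V j a) := absLogHeight_nonneg _
      exact mul_le_mul (le_abs_self C) (by linarith) (by linarith) (abs_nonneg C)
    choose! z hzR hz using hw
    let zz : Fin r → R := fun j => if h : j ∈ J then ⟨z j, hzR j h⟩ else ⟨z j1, hzR j1 hj1⟩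
    have hzz : ∀ j ∈ J, ((zz j : R) : Qbarˣ) = z j := by
      intro j hj
      show ((if h : j ∈ J then (⟨z j, hzR j h⟩ : R) else ⟨z j1, hzR j1 hj1⟩ : R) : Qbarˣ) = z j
      rw [dif_pos hj]
    let θ : Fin r → Qbar := fun j => if j ∈ J then ((u j / u j1 : Qbarˣ) : Qbar) / (z j : Qbar) else 0
    have hθ0 : θ ≠ 0 := by
      intro h
      have h2 := congrFun h j1
      have h3 : θ j1 = ((u j1 / u j1 : Qbarˣ) : Qbar) / (z j1 : Qbar) := if_pos hj1
      rw [h3] at h2
      exact div_ne_zero (Units.ne_zero _) (Units.ne_zero _) h2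
    have hθh : absLogHeight θ ≤ r * δ := by
      refine (height_le_sum _).trans ?_
      have h2 : ∀ j ∈ (Finset.univ : Finset (Fin r)), h1 (θ j) ≤ δ := by
        intro j _
        by_cases hj : j ∈ J
        · have h3 : θ j = ((u j / u j1 : Qbarˣ) : Qbar) / (z j : Qbar) := if_pos hj
          rw [h3]
          exact hz j hj
        · have h3 : θ j = 0 := if_neg hj
          rw [h3, h1_zero]
          exact hδ0.le
      refine (Finset.sum_le_sum h2).trans ?_
      rw [Finset.sum_const, Finset.card_univ, Fintype.card_fin, nsmul_eq_mul]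
    have hth : absLogHeight (fun j => s j * θ j) < ε := by
      have h2 := height_mul_le s θ hs0 hθ0 (τ := Fin r) (fun j => j) (fun j => j)
      refine lt_of_le_of_lt h2 ?_
      have h3 : (r : ℝ) * δ ≤ ε / 2 := by
        rw [hδ]
        have hr : (0 : ℝ) < r + 1 := by positivity
        have h4 : (r : ℝ) * (ε / (2 * (r + 1))) = (r / (r + 1)) * (ε / 2) := by field_simp
        rw [h4]
        have h5 : (r : ℝ) / (r + 1) ≤ 1 := by
          rw [div_le_one hr]
          linarith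
        nlinarith
      linarith
    have hpt : pt (RingHom.id Qbar) (fun j a => ((zz j : Qbarˣ) : Qbar) * V j a)
        (fun j => s j * θ j) = fun a => (c / (u j1 : Qbar)) * x a := by
      funext a
      have h2 := congrFun hc2 a
      rw [Pi.smul_apply, smul_eq_mul, ← hx] at h2
      rw [div_mul_eq_mul_div, eq_div_iff (u j1).ne_zero, ← h2]
      unfold pt psum
      rw [Finset.sum_mul, ← Finset.sum_subset (Finset.subset_univ J)]
      · refine Finset.sum_congr rfl fun j hj => ?_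
        have h3 : θ j = ((u j / u j1 : Qbarˣ) : Qbar) / (z j : Qbar) := if_pos hj
        show (s j * θ j) * (((zz j : R) : Qbarˣ) * V j a) * (u j1 : Qbar) =
          (u j : Qbar) * (s j * V j a)
        rw [h3, hzz j hj, Units.val_div_eq_div_val]
        have := (u j1).ne_zero
        have := (z j).ne_zero
        field_simp
      · intro j _ hj
        have h3 : θ j = 0 := if_neg hj
        show (s j * θ j) * (((zz j : R) : Qbarˣ) * V j a) * (u j1 : Qbar) = 0
        rw [h3]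
        ring
    have hb : c / (u j1 : Qbar) ≠ 0 := div_ne_zero hc (u j1).ne_zero
    rw [← hx] at hon
    rw [Set.mem_iUnion]
    refine ⟨zz, fun j => s j * θ j, hth, ?_, ?_, ?_⟩
    · intro i
      obtain ⟨e, -, he⟩ := hP i
      rw [hpt, aeval_hom_smul _ he, hon.2.1, mul_zero]
    · obtain ⟨e, he⟩ := hGh
      rw [hpt, aeval_hom_smul _ he]
      exact mul_ne_zero (pow_ne_zero _ hb) hon.2.2
    · have h1 : pt (RingHom.id Qbar) (fun j a => ((zz j : Qbarˣ) : Qbar) * V j a)
          (fun j => s j * θ j) ≠ 0 := by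
        rw [hpt]
        intro h
        apply hon.1
        funext a
        exact (mul_eq_zero.1 (congrFun h a)).resolve_left hb
      refine ⟨h1, ?_⟩
      rw [Projectivization.mk_eq_mk_iff']
      refine ⟨(c / (u j1 : Qbar))⁻¹, ?_⟩
      rw [hpt, ← hx]
      funext a
      rw [Pi.smul_apply, smul_eq_mul, inv_mul_cancel_left₀ hb]
  have henc : (mixPts P G Γ (ε / 2) V).encard ≤ ((Nat.card (Fin r → R) * M' : ℕ) : ℕ∞) := by
    refine encard_le_mul _ _ M' hsub fun z => ?_
    rw [hε, hM']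
    exact card_smallOffT P d hd hP G T (fun c l hT hz hc => hG Qbar c l hT hz hc)
      (RingHom.id Qbar) _ (fun j a hja => by
        show ((z j : Qbarˣ) : Qbar) * V j a = 0
        rw [hVT j a hja, mul_zero])
  have hfin := Set.finite_of_encard_le_coe henc
  refine ⟨hfin, ?_⟩
  have h1 : (mixPts P G Γ (ε / 2) V).ncard ≤ R.card ^ r * M' := by
    rw [← hfin.cast_ncard_eq] at henc
    have h2 : (mixPts P G Γ (ε / 2) V).ncard ≤ Nat.card (Fin r → R) * M' := by
      exact_mod_cast henc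
    rwa [Nat.card_eq_fintype_card, Fintype.card_fun, Fintype.card_fin, Fintype.card_coe] at h2
  have h2 : ((mixPts P G Γ (ε / 2) V).ncard : ℝ) ≤ (R.card : ℝ) ^ r * M' := by exact_mod_cast h1
  refine h2.trans ?_
  have h3 : (R.card : ℝ) ≤ (c0 * (1 + |C| * (1 + ε)) * (1 + hV V)) ^ e0 := by
    refine hRc.trans (pow_le_pow_left₀ (by positivity) ?_ _)
    rw [mul_assoc]
    refine mul_le_mul_of_nonneg_left ?_ hc0
    rw [hC2]
    have h4 : 0 ≤ |C| * (ε * hV V) := by positivity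
    nlinarith [abs_nonneg C]
  calc (R.card : ℝ) ^ r * M' ≤ ((c0 * (1 + |C| * (1 + ε)) * (1 + hV V)) ^ e0) ^ r * M' := by
        gcongr
    _ = M' * (c0 * (1 + |C| * (1 + ε))) ^ (e0 * r) * (1 + hV V) ^ (e0 * r) := by
        rw [← pow_mul, mul_pow]
        ring

/-- **Finiteness over `Qbar`.** -/
theorem mix_finite {k : Type} [Field k] [Algebra k Qbar]
    (P : Fin N → MvPolynomial (Fin (n + 1)) k) (d : ℕ) (hd : 1 ≤ d)
    (hP : ∀ i, ∃ e, e ≤ d ∧ (P i).IsHomogeneous e)
    (G : MvPolynomial (Fin (n + 1)) k) (hGh : ∃ e, G.IsHomogeneous e)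
    (hG : ∀ (L : Type) [Field L] [Algebra k L] (c : Fin r → Fin (n + 1) → L) (l : Fin r → ℕ),
        (∀ i, MvPolynomial.aeval (cur c l) (P i) = 0) →
        (∃ i i', cur c l i * Polynomial.C (∑ j, c j i') ≠
          cur c l i' * Polynomial.C (∑ j, c j i)) →
        MvPolynomial.aeval (fun i => ∑ j, c j i) G = 0)
    (Γ : Subgroup Qbarˣ) (hΓ : Γ.FG) :
    ∃ (A : ℝ) (e : ℕ), ∀ V : Fin r → Fin (n + 1) → Qbar,
      (mixPts P G Γ (epsn ((d + 1) ^ r) / d / 2) V).Finite ∧
      ((mixPts P G Γ (epsn ((d + 1) ^ r) / d / 2) V).ncard : ℝ) ≤ A * (1 + hV V) ^ e := by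
  obtain ⟨A, e, h⟩ := mix_finiteT P d hd hP G hGh Set.univ
    (fun L _ _ c l _ h1 h2 => hG L c l h1 h2) Γ hΓ
  exact ⟨A, e, fun V => h V fun j a h => absurd (Set.mem_univ _) h⟩

end Pool.Agent.Y215.SK
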